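import Mathlib

/-! Project GP8, numbers for MED8. -/

set_option autoImplicit false

open Filter Topology Set

namespace Pool.Agent.Lib.MP_6bc78b_nt.GP.G8.H19

/-- One term. -/
lemma term_bd {z u g P V : ℝ} {l : ℕ} (hg : 0 < g) (hu : 16 * z ≤ u) (hu0 : 0 ≤ u)
    (hl1 : u / (4 * g) ≤ l) (hl2 : (l : ℝ) ≤ u / (4 * g) + 1) (hV : 0 < V)
    (hlV : 4 * l / V ≤ Real.exp g) (hP : Real.exp (2 * g) ≤ P) :
    Real.exp (-(7 / 8 * u)) / V ^ l * ((4 * l / P) ^ l * Real.exp u + (2 * l) ^ l) ≤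
      2 * Real.exp (-(2 * z) + g) := by
  have hP0 : 0 < P := lt_of_lt_of_le (Real.exp_pos _) hP
  have hgl1 : u / 4 ≤ g * l := by
    rw [div_le_iff₀ (by positivity)] at hl1
    linarith
  have hgl2 : g * l ≤ u / 4 + g := by
    have h1 : g * l ≤ g * (u / (4 * g) + 1) := mul_le_mul_of_nonneg_left hl2 hg.le
    have h2 : g * (u / (4 * g) + 1) = u / 4 + g := by field_simp
    linarith
  have h1 : (4 * l / P) ^ l / V ^ l ≤ Real.exp (-(u / 4)) := by
    have e1 : (4 * (l : ℝ) / P) ^ l / V ^ l = (4 * l / V / P) ^ l := by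
      rw [← div_pow]
      congr 1
      field_simp
    rw [e1]
    have e2 : 4 * (l : ℝ) / V / P ≤ Real.exp (-g) := by
      rw [div_le_iff₀ hP0]
      calc 4 * (l : ℝ) / V ≤ Real.exp g := hlV
        _ = Real.exp (-g) * Real.exp (2 * g) := by rw [← Real.exp_add]; congr 1; ring
        _ ≤ Real.exp (-g) * P := mul_le_mul_of_nonneg_left hP (Real.exp_pos _).le
    calc (4 * (l : ℝ) / V / P) ^ l ≤ Real.exp (-g) ^ l :=
          pow_le_pow_left₀ (by positivity) e2 l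
      _ = Real.exp (-(g * l)) := by rw [← Real.exp_nat_mul]; congr 1; ring
      _ ≤ _ := Real.exp_le_exp.2 (by linarith)
  have h2 : (2 * (l : ℝ)) ^ l / V ^ l ≤ Real.exp (u / 4 + g) := by
    rw [← div_pow]
    have e2 : 2 * (l : ℝ) / V ≤ Real.exp g := by
      refine le_trans ?_ hlV
      apply div_le_div_of_nonneg_right _ hV.le
      have : (0 : ℝ) ≤ l := Nat.cast_nonneg l
      linarith
    calc (2 * (l : ℝ) / V) ^ l ≤ Real.exp g ^ l := pow_le_pow_left₀ (by positivity) e2 l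
      _ = Real.exp (g * l) := by rw [← Real.exp_nat_mul]; congr 1; ring
      _ ≤ _ := Real.exp_le_exp.2 hgl2
  calc Real.exp (-(7 / 8 * u)) / V ^ l * ((4 * l / P) ^ l * Real.exp u + (2 * l) ^ l)
      = Real.exp (-(7 / 8 * u)) * Real.exp u * ((4 * l / P) ^ l / V ^ l) +
        Real.exp (-(7 / 8 * u)) * ((2 * (l : ℝ)) ^ l / V ^ l) := by ring
    _ ≤ Real.exp (-(7 / 8 * u)) * Real.exp u * Real.exp (-(u / 4)) +
        Real.exp (-(7 / 8 * u)) * Real.exp (u / 4 + g) := by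
        apply add_le_add
        · exact mul_le_mul_of_nonneg_left h1 (by positivity)
        · exact mul_le_mul_of_nonneg_left h2 (by positivity)
    _ = Real.exp (-(u / 8)) + Real.exp (-(5 / 8 * u) + g) := by
        rw [← Real.exp_add, ← Real.exp_add, ← Real.exp_add]
        congr 2 <;> ring
    _ ≤ Real.exp (-(2 * z) + g) + Real.exp (-(2 * z) + g) := by
        apply add_le_add <;> apply Real.exp_le_exp.2
        · linarith
        · linarith
    _ = _ := by ring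

/-- The threshold against the length. -/
lemma ev_one (K : ℕ) {κ c A : ℝ} (hκ : 0 < κ) (hc : 0 < c) (hA : 0 < A) :
    ∀ᶠ z : ℝ in atTop, ∀ l n1 : ℕ, (l : ℝ) ≤ A * z →
      (n1 : ℝ) ≤ K * (3 * Real.log z) / κ + 1 →
      4 * l / (c / (1 + n1) ^ 2) ≤ Real.exp (3 / 2 * Real.log z) := by
  set D : ℝ := 2 + K * 24 / κ with hD
  have hD0 : 0 < D := by positivity
  have h1 := tendsto_rpow_atTop (by norm_num : (0 : ℝ) < 1 / 4)
  filter_upwards [h1.eventually_ge_atTop (4 * A * D ^ 2 / c), eventually_ge_atTop 1]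
    with z hz hz1 l n1 hl hn
  have hz0 : 0 < z := by linarith
  have hlog : Real.log z ≤ 8 * z ^ (1 / 8 : ℝ) := by
    have := Real.log_le_rpow_div hz0.le (by norm_num : (0 : ℝ) < 1 / 8)
    linarith
  have hz8 : 1 ≤ z ^ (1 / 8 : ℝ) := Real.one_le_rpow hz1 (by norm_num)
  have hn2 : 1 + (n1 : ℝ) ≤ D * z ^ (1 / 8 : ℝ) := by
    calc 1 + (n1 : ℝ) ≤ 2 + K * (3 * Real.log z) / κ := by linarith
      _ ≤ 2 * z ^ (1 / 8 : ℝ) + K * (3 * (8 * z ^ (1 / 8 : ℝ))) / κ := by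
          apply add_le_add (by linarith)
          apply div_le_div_of_nonneg_right _ hκ.le
          apply mul_le_mul_of_nonneg_left _ (Nat.cast_nonneg K)
          linarith
      _ = D * z ^ (1 / 8 : ℝ) := by rw [hD]; ring
  have hsq : (1 + (n1 : ℝ)) ^ 2 ≤ D ^ 2 * z ^ (1 / 4 : ℝ) := by
    calc (1 + (n1 : ℝ)) ^ 2 ≤ (D * z ^ (1 / 8 : ℝ)) ^ 2 :=
          pow_le_pow_left₀ (by positivity) hn2 2
      _ = D ^ 2 * z ^ (1 / 4 : ℝ) := by
          rw [mul_pow, ← Real.rpow_natCast (z ^ (1 / 8 : ℝ)) 2, ← Real.rpow_mul hz0.le]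
          norm_num
  have e1 : 4 * (l : ℝ) / (c / (1 + n1) ^ 2) = 4 * l * (1 + n1) ^ 2 / c := by
    field_simp
  have e2 : Real.exp (3 / 2 * Real.log z) = z ^ (1 / 4 : ℝ) * (z * z ^ (1 / 4 : ℝ)) := by
    have e3 : Real.exp (3 / 2 * Real.log z) = z ^ (3 / 2 : ℝ) := by
      rw [Real.rpow_def_of_pos hz0]; congr 1; ring
    rw [e3]
    nth_rewrite 3 [← Real.rpow_one z]
    rw [← Real.rpow_add hz0, ← Real.rpow_add hz0]
    norm_num
  rw [e1, e2, div_le_iff₀ hc]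
  have hz4 : 0 ≤ z ^ (1 / 4 : ℝ) := Real.rpow_nonneg hz0.le _
  rw [div_le_iff₀ hc] at hz
  calc 4 * (l : ℝ) * (1 + n1) ^ 2 ≤ 4 * (A * z) * (D ^ 2 * z ^ (1 / 4 : ℝ)) := by
        apply mul_le_mul (by linarith) hsq (by positivity) (by positivity)
    _ = (4 * A * D ^ 2) * (z * z ^ (1 / 4 : ℝ)) := by ring
    _ ≤ (z ^ (1 / 4 : ℝ) * c) * (z * z ^ (1 / 4 : ℝ)) :=
        mul_le_mul_of_nonneg_right hz (by positivity)
    _ = _ := by ring

/-- The sum of all terms is small. -/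
lemma ev_two (K : ℕ) {κ A E δ : ℝ} (hκ : 0 < κ) (hA : 0 < A) (hE : 0 < E) (hδ : 0 < δ) :
    ∀ᶠ z : ℝ in atTop, ∀ n1 n2 : ℕ,
      (n1 : ℝ) ≤ K * (3 * Real.log z) / κ + 1 → (n2 : ℝ) ≤ K * (16 * z) / κ + 1 →
      (n2 : ℝ) ^ 2 * n1 * (E * (A * z + 1) * Real.exp (-(2 * z) + 3 / 2 * Real.log z)) ≤ δ := by
  set D1 : ℝ := K * 3 / κ + 1 with hD1
  set D2 : ℝ := K * 16 / κ + 1 with hD2
  have hD10 : 0 < D1 := by positivity
  have hD20 : 0 < D2 := by positivity
  set G : ℝ := D2 ^ 2 * D1 * (E * (A + 1)) with hG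
  have hG0 : 0 < G := by positivity
  have h1 : Tendsto (fun z : ℝ => G * (z ^ 6 * Real.exp (-z))) atTop (𝓝 (G * 0)) :=
    (Real.tendsto_pow_mul_exp_neg_atTop_nhds_zero 6).const_mul G
  rw [mul_zero] at h1
  filter_upwards [h1.eventually (gt_mem_nhds hδ), eventually_ge_atTop 1]
    with z hz hz1 n1 n2 hn1 hn2
  have hz0 : 0 < z := by linarith
  have hlog : Real.log z ≤ z := by
    have := Real.log_le_sub_one_of_pos hz0
    linarith
  have hlog0 : 0 ≤ Real.log z := Real.log_nonneg hz1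
  have a1 : (n1 : ℝ) ≤ D1 * z := by
    calc (n1 : ℝ) ≤ K * (3 * Real.log z) / κ + 1 := hn1
      _ ≤ K * (3 * z) / κ + z := by
          apply add_le_add _ hz1
          apply div_le_div_of_nonneg_right _ hκ.le
          apply mul_le_mul_of_nonneg_left _ (Nat.cast_nonneg K)
          linarith
      _ = _ := by rw [hD1]; ring
  have a2 : (n2 : ℝ) ≤ D2 * z := by
    calc (n2 : ℝ) ≤ K * (16 * z) / κ + 1 := hn2
      _ ≤ K * (16 * z) / κ + z := by linarith
      _ = _ := by rw [hD2]; ring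
  have a3 : A * z + 1 ≤ (A + 1) * z := by nlinarith
  have a4 : Real.exp (-(2 * z) + 3 / 2 * Real.log z) ≤ z ^ 2 * Real.exp (-z) := by
    have e1 : z ^ 2 = Real.exp (2 * Real.log z) := by
      rw [mul_comm, Real.exp_mul, Real.exp_log hz0]
      norm_num
    rw [e1, ← Real.exp_add]
    apply Real.exp_le_exp.2
    linarith
  calc (n2 : ℝ) ^ 2 * n1 * (E * (A * z + 1) * Real.exp (-(2 * z) + 3 / 2 * Real.log z))
      ≤ (D2 * z) ^ 2 * (D1 * z) * (E * ((A + 1) * z) * (z ^ 2 * Real.exp (-z))) := by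
        gcongr
    _ = G * (z ^ 6 * Real.exp (-z)) := by rw [hG]; ring
    _ ≤ δ := hz.le

end Pool.Agent.Lib.MP_6bc78b_nt.GP.G8.H19
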