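import Pool.Agent.Lib.MP_6bc78b_nt.GP.H3.Defs8
import Pool.Agent.Lib.MP_6bc78b_nt.GP.H19.MedNum

/-! Project GP8, row MED8. -/

set_option autoImplicit false

open Complex Filter Topology MeasureTheory ArithmeticFunction Set
open scoped ENNReal

namespace Pool.Agent.Lib.MP_6bc78b_nt.GP.G8.H19

open Pool.Agent.Lib.MP_6bc78b_nt.MS Pool.Agent.Lib.MP_6bc78b_nt.MS.P1
  Pool.Agent.Lib.MP_6bc78b_nt.GP.G7

/-! ## Continuity -/

lemma cpow_cont {n : ℕ} (hn : n ≠ 0) :
    Continuous (fun t : ℝ => (n : ℂ) ^ (-(1 + t * I : ℂ))) := by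
  apply Continuous.const_cpow _ (Or.inl (by exact_mod_cast hn))
  fun_prop

lemma Qp_cont (P Q : ℝ) : Continuous (Qp P Q) := by
  classical
  unfold Qp
  apply continuous_finsetSum
  intro q hq
  have : q.Prime := by
    rw [qs, Finset.mem_filter] at hq
    exact hq.2.1
  exact cpow_cont this.ne_zero

lemma Mb_cont (ε η y T : ℝ) : Continuous (Mb ε η y T) := by
  unfold Mb
  apply continuous_finsetSum
  intro m hm
  have : m ≠ 0 := by
    have := (Finset.mem_Ioc.1 hm).1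
    omega
  exact continuous_const.mul (cpow_cont this)

/-! ## A block of primes -/

lemma exp_half : Real.exp (1 / 2) < 1.65 := by
  have h1 := Real.exp_one_lt_d9
  have h2 : Real.exp (1 / 2) * Real.exp (1 / 2) = Real.exp 1 := by
    rw [← Real.exp_add]; norm_num
  have h3 := Real.exp_pos (1 / 2)
  by_contra hc
  rw [not_lt] at hc
  nlinarith

lemma Wq_block {P κ : ℝ} (hP : 3 ≤ P) (hκ : 0 < κ) (hκ2 : κ ≤ 1 / 2) :
    Wq P (P * Real.exp κ) ≤ 1 := by
  classical
  have hP0 : 0 < P := by linarith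
  have he : Real.exp κ ≤ 1.65 := by
    have := Real.exp_le_exp.2 hκ2
    have := exp_half
    linarith
  have he1 : 1 ≤ Real.exp κ := Real.one_le_exp hκ.le
  have hsub : qs P (P * Real.exp κ) ⊆ Finset.Ioc ⌊P⌋₊ ⌊P * Real.exp κ⌋₊ := fun q hq => by
    rw [qs, Finset.mem_filter, Finset.mem_range] at hq
    exact Finset.mem_Ioc.2 ⟨(Nat.floor_lt hP0.le).2 hq.2.2, by omega⟩
  have hfl : ⌊P⌋₊ ≤ ⌊P * Real.exp κ⌋₊ := by
    apply Nat.floor_le_floor
    nlinarith
  have hcard : ((qs P (P * Real.exp κ)).card : ℝ) ≤ P * Real.exp κ - P + 1 := by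
    have h1 : (qs P (P * Real.exp κ)).card ≤ ⌊P * Real.exp κ⌋₊ - ⌊P⌋₊ := by
      have := Finset.card_le_card hsub
      rwa [Nat.card_Ioc] at this
    have h2 : ((qs P (P * Real.exp κ)).card : ℝ) ≤ (⌊P * Real.exp κ⌋₊ : ℝ) - ⌊P⌋₊ := by
      rw [← Nat.cast_sub hfl]
      exact_mod_cast h1
    have h3 := Nat.floor_le (by positivity : 0 ≤ P * Real.exp κ)
    have h4 := Nat.lt_floor_add_one P
    linarith
  calc Wq P (P * Real.exp κ) ≤ ∑ _q ∈ qs P (P * Real.exp κ), 1 / P := by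
        unfold Wq
        apply Finset.sum_le_sum
        intro q hq
        have hq' : P < q := by
          rw [qs, Finset.mem_filter] at hq
          exact hq.2.2
        exact div_le_div_of_nonneg_left (by norm_num) hP0 hq'.le
    _ = ((qs P (P * Real.exp κ)).card : ℝ) / P := by
        rw [Finset.sum_const, nsmul_eq_mul]; ring
    _ ≤ (P * Real.exp κ - P + 1) / P := div_le_div_of_nonneg_right hcard hP0.le
    _ ≤ 1 := by
        rw [div_le_one hP0]
        nlinarith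

/-! ## One term -/

/-- The integral of one term. -/
lemma term_int {C : ℝ}
    (hcm : ∀ (P Q b F M₁ M₂ : ℝ) (k : ℕ) (α : ℕ → ℂ),
      2 ≤ P → P < Q → Wq P Q ≤ 1 → 0 < b → b ≤ 1 → 0 < M₁ → M₁ ≤ M₂ → 0 ≤ F →
      (∀ m, ‖α m‖ ≤ F) →
      ∫⁻ t : ℝ, ENNReal.ofReal (‖(∑ m ∈ Finset.Ioc ⌊M₁⌋₊ ⌊M₂⌋₊,
          α m * (m : ℂ) ^ (-(1 + t * I : ℂ))) * Qp P Q t ^ k‖ ^ 2 * Real.exp (-(b * |t|))) ≤
        ENNReal.ofReal (C * F ^ 2 * (k + 1) * ((4 * k / P) ^ k / (b * M₁) +
          (2 * k) ^ k * (1 + Real.log (M₂ / M₁)))))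
    (hC : 0 < C) {a ε η T h y P Q F B : ℝ} {k : ℕ} (ha : 0 < a) (hε : 0 < ε) (hε1 : ε < 1)
    (hT : 0 < T) (hh : 1 ≤ h) (hb : a * h / T ≤ 1) (hy : 1 ≤ y) (hP : 2 ≤ P) (hPQ : P < Q)
    (hW : Wq P Q ≤ 1) (hF : 0 ≤ F) (hff : ∀ m : ℕ, (m : ℝ) ≤ T / ε → |ff η T m| ≤ F)
    (hB : B = 1 / (a * ε) + 1 + Real.log (1 / ε ^ 2)) :
    ∫⁻ t : ℝ, ENNReal.ofReal (‖Mb ε η y T t * Qp P Q t ^ k‖ ^ 2 *
        Real.exp (-(a * h / T * |t|))) ≤
      ENNReal.ofReal (C * F ^ 2 * (k + 1) * (B * ((4 * k / P) ^ k * y + (2 * k) ^ k))) := by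
  have hy0 : 0 < y := by linarith
  have hM1 : 0 < ε * T / y := by positivity
  have hM12 : ε * T / y ≤ T / (ε * y) := by
    rw [div_le_div_iff₀ hy0 (by positivity)]
    have : ε * ε ≤ 1 := by nlinarith
    have h2 : 0 ≤ T * y := by positivity
    nlinarith
  set α : ℕ → ℂ := fun m => if (m : ℝ) ≤ T / ε then ((ff η T m : ℝ) : ℂ) else 0 with hα
  have hαF : ∀ m, ‖α m‖ ≤ F := by
    intro m
    simp only [hα]
    split_ifs with hm
    · rw [Complex.norm_real, Real.norm_eq_abs]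
      exact hff m hm
    · rw [norm_zero]; exact hF
  have hMb : ∀ t : ℝ, Mb ε η y T t = ∑ m ∈ Finset.Ioc ⌊ε * T / y⌋₊ ⌊T / (ε * y)⌋₊,
      α m * (m : ℂ) ^ (-(1 + t * I : ℂ)) := by
    intro t
    unfold Mb
    apply Finset.sum_congr rfl
    intro m hm
    have hm2 : (m : ℝ) ≤ T / ε := by
      have h1 := (Finset.mem_Ioc.1 hm).2
      have h2 : (m : ℝ) ≤ T / (ε * y) :=
        (Nat.cast_le.2 h1).trans (Nat.floor_le (by positivity))
      refine h2.trans ?_
      apply div_le_div_of_nonneg_left hT.le hε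
      nlinarith
    simp only [hα]
    rw [if_pos hm2]
  have hmain := hcm P Q (a * h / T) F (ε * T / y) (T / (ε * y)) k α hP hPQ hW (by positivity) hb
    hM1 hM12 hF hαF
  have hcongr : ∫⁻ t : ℝ, ENNReal.ofReal (‖Mb ε η y T t * Qp P Q t ^ k‖ ^ 2 *
        Real.exp (-(a * h / T * |t|))) = ∫⁻ t : ℝ, ENNReal.ofReal
        (‖(∑ m ∈ Finset.Ioc ⌊ε * T / y⌋₊ ⌊T / (ε * y)⌋₊,
          α m * (m : ℂ) ^ (-(1 + t * I : ℂ))) * Qp P Q t ^ k‖ ^ 2 *
          Real.exp (-(a * h / T * |t|))) := by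
    apply lintegral_congr
    intro t
    rw [hMb t]
  rw [hcongr]
  refine hmain.trans (ENNReal.ofReal_le_ofReal ?_)
  apply mul_le_mul_of_nonneg_left _ (by positivity)
  have hlog : Real.log (T / (ε * y) / (ε * T / y)) = Real.log (1 / ε ^ 2) := by
    congr 1
    field_simp
  have hl0 : 0 ≤ Real.log (1 / ε ^ 2) := by
    apply Real.log_nonneg
    rw [le_div_iff₀ (by positivity)]
    nlinarith
  have hP0 : 0 < P := by linarith
  have hX : 0 ≤ (4 * (k : ℝ) / P) ^ k := by positivity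
  have hY : 0 ≤ (2 * (k : ℝ)) ^ k := by positivity
  have hinv : 0 < 1 / (a * ε) := by positivity
  have e1 : (4 * (k : ℝ) / P) ^ k / (a * h / T * (ε * T / y)) ≤
      B * ((4 * (k : ℝ) / P) ^ k * y) := by
    have e2 : (4 * (k : ℝ) / P) ^ k / (a * h / T * (ε * T / y)) =
        (4 * (k : ℝ) / P) ^ k * y * (1 / (a * ε) / h) := by field_simp
    rw [e2, mul_comm B]
    apply mul_le_mul_of_nonneg_left _ (by positivity)
    calc 1 / (a * ε) / h ≤ 1 / (a * ε) := div_le_self hinv.le hh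
      _ ≤ B := by rw [hB]; linarith
  have e3 : (2 * (k : ℝ)) ^ k * (1 + Real.log (T / (ε * y) / (ε * T / y))) ≤
      B * (2 * (k : ℝ)) ^ k := by
    rw [hlog, mul_comm B]
    apply mul_le_mul_of_nonneg_left _ hY
    rw [hB]; linarith
  calc _ ≤ B * ((4 * (k : ℝ) / P) ^ k * y) + B * (2 * (k : ℝ)) ^ k := add_le_add e1 e3
    _ = _ := by ring

/-! ## The pointwise bound -/

lemma point {n1 n2 : ℕ} {W VAv : ℝ} {VBv : ℕ → ℝ} {Q M : ℕ → ℂ} {R : ℕ → ℂ} {l : ℕ → ℕ}
    (hW : 1 ≤ W) (hVA : 0 < VAv) (h1 : ∃ w < n1, VAv < ‖R w‖ ^ 2)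
    (h2 : ∀ v < n2, ‖Q v‖ ^ 2 ≤ VBv v) :
    ‖(1 / (W : ℂ)) * ∑ v ∈ Finset.range n2, Q v * M v‖ ^ 2 ≤
      ∑ v ∈ Finset.range n2, ∑ w ∈ Finset.range n1,
        (n2 * VBv v / VAv ^ l v) * ‖M v * R w ^ l v‖ ^ 2 := by
  have hW0 : 0 < W := by linarith
  have a1 : ‖(1 / (W : ℂ)) * ∑ v ∈ Finset.range n2, Q v * M v‖ ≤
      ∑ v ∈ Finset.range n2, ‖Q v * M v‖ := by
    rw [norm_mul, norm_div, norm_one, Complex.norm_real, Real.norm_of_nonneg hW0.le]
    calc 1 / W * ‖∑ v ∈ Finset.range n2, Q v * M v‖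
        ≤ 1 * ‖∑ v ∈ Finset.range n2, Q v * M v‖ := by
          apply mul_le_mul_of_nonneg_right _ (norm_nonneg _)
          rw [div_le_one hW0]; exact hW
      _ = ‖∑ v ∈ Finset.range n2, Q v * M v‖ := one_mul _
      _ ≤ _ := norm_sum_le _ _
  have a2 : (∑ v ∈ Finset.range n2, ‖Q v * M v‖) ^ 2 ≤
      n2 * ∑ v ∈ Finset.range n2, ‖Q v * M v‖ ^ 2 := by
    have := sq_sum_le_card_mul_sum_sq (s := Finset.range n2) (f := fun v => ‖Q v * M v‖)
    simpa using this
  obtain ⟨w0, hw0, hR⟩ := h1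
  have a3 : ∀ v ∈ Finset.range n2, n2 * ‖Q v * M v‖ ^ 2 ≤
      ∑ w ∈ Finset.range n1, (n2 * VBv v / VAv ^ l v) * ‖M v * R w ^ l v‖ ^ 2 := by
    intro v hv
    have hq := h2 v (Finset.mem_range.1 hv)
    have hVB0 : 0 ≤ VBv v := (by positivity : 0 ≤ ‖Q v‖ ^ 2).trans hq
    have b1 : ‖M v‖ ^ 2 ≤ ‖M v * R w0 ^ l v‖ ^ 2 / VAv ^ l v := by
      rw [le_div_iff₀ (by positivity), norm_mul, norm_pow, mul_pow]
      apply mul_le_mul_of_nonneg_left _ (by positivity)
      calc VAv ^ l v ≤ (‖R w0‖ ^ 2) ^ l v := pow_le_pow_left₀ hVA.le hR.le _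
        _ = (‖R w0‖ ^ l v) ^ 2 := by rw [← pow_mul, ← pow_mul, mul_comm]
    calc n2 * ‖Q v * M v‖ ^ 2 = n2 * (‖Q v‖ ^ 2 * ‖M v‖ ^ 2) := by
          rw [norm_mul, mul_pow]
      _ ≤ n2 * (VBv v * (‖M v * R w0 ^ l v‖ ^ 2 / VAv ^ l v)) := by
          apply mul_le_mul_of_nonneg_left _ (Nat.cast_nonneg _)
          exact mul_le_mul hq b1 (by positivity) hVB0
      _ = (n2 * VBv v / VAv ^ l v) * ‖M v * R w0 ^ l v‖ ^ 2 := by ring
      _ ≤ _ := Finset.single_le_sum
          (f := fun w => (n2 * VBv v / VAv ^ l v) * ‖M v * R w ^ l v‖ ^ 2)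
          (fun w _ => by positivity) (Finset.mem_range.2 hw0)
  calc ‖(1 / (W : ℂ)) * ∑ v ∈ Finset.range n2, Q v * M v‖ ^ 2
      ≤ (∑ v ∈ Finset.range n2, ‖Q v * M v‖) ^ 2 :=
        pow_le_pow_left₀ (norm_nonneg _) a1 2
    _ ≤ n2 * ∑ v ∈ Finset.range n2, ‖Q v * M v‖ ^ 2 := a2
    _ = ∑ v ∈ Finset.range n2, n2 * ‖Q v * M v‖ ^ 2 := Finset.mul_sum _ _ _
    _ ≤ _ := Finset.sum_le_sum a3

/-! ## The theorem -/

theorem med8 (hX : CMB2XStatement) (hBX : BASXStatement) : MED8Statement := by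
  intro a ε η κ c δ K ha hε hε1 hη hη1 hκ hκ2 hc hc1 hδ hK
  obtain ⟨C, hC, hcm⟩ := hX
  obtain ⟨-, hbet, hffb, -⟩ := hBX
  set B : ℝ := 1 / (a * ε) + 1 + Real.log (1 / ε ^ 2) with hB
  have hl0 : 0 ≤ Real.log (1 / ε ^ 2) := by
    apply Real.log_nonneg
    rw [le_div_iff₀ (by positivity)]
    nlinarith
  have hB0 : 0 < B := by rw [hB]; positivity
  set A : ℝ := 18 + 16 * K with hA
  have hA0 : 0 < A := by rw [hA]; positivity
  have hz : Tendsto (fun T : ℝ => Real.log (Real.log (Real.log T))) atTop atTop :=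
    Real.tendsto_log_atTop.comp (Real.tendsto_log_atTop.comp Real.tendsto_log_atTop)
  have hy : Tendsto (fun T : ℝ => Real.log (Real.log T)) atTop atTop :=
    Real.tendsto_log_atTop.comp Real.tendsto_log_atTop
  have ev1 := hz.eventually (ev_one K hκ hc hA0)
  have ev2 := hz.eventually (ev_two K (E := 16 * C * B * 2) hκ hA0 (by positivity) hδ)
  have ev3 := hz.eventually_ge_atTop 3
  have ev4 : ∀ᶠ T : ℝ in atTop, a * Real.log T ^ 2 / T ≤ 1 := by
    have h1 : Tendsto (fun T : ℝ => Real.log T ^ 2 / T) atTop (𝓝 0) := by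
      have := (isLittleO_log_rpow_rpow_atTop (2 : ℝ) (one_pos)).tendsto_div_nhds_zero
      refine this.congr (fun T => ?_)
      rw [Real.rpow_one]
      norm_num
    have h2 := (h1.const_mul a)
    rw [mul_zero] at h2
    filter_upwards [h2.eventually (gt_mem_nhds one_pos)] with T hT
    rw [mul_div_assoc]
    exact hT.le
  have ev5 := hy.eventually_ge_atTop 1
  have ev6 := eventually_ge_atTop (max 11 (1 / ε))
  obtain ⟨T0, hT0⟩ := eventually_atTop.1
    (ev1.and (ev2.and (ev3.and (ev4.and (ev5.and ev6)))))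
  refine ⟨max T0 11, lt_of_lt_of_le (by norm_num) (le_max_right _ _), ?_⟩
  intro T h hT hh1 hhL hW
  obtain ⟨g1, g2, g3, g4, g5, g6⟩ := hT0 T ((le_max_left _ _).trans hT)
  have hT11 : 11 ≤ T := (le_max_left _ _).trans g6
  have hTε : 1 / ε ≤ T := (le_max_right _ _).trans g6
  have hTp : 0 < T := by linarith
  set z : ℝ := Real.log (Real.log (Real.log T)) with hzdef
  set L : ℝ := Real.log T with hL
  have hL0 : 0 < L := Real.log_pos (by linarith)
  have hz0 : 0 < z := by linarith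
  have hlz : 1 ≤ Real.log z := by
    rw [Real.le_log_iff_exp_le hz0]
    have := Real.exp_one_lt_d9
    linarith
  set g : ℝ := 3 / 2 * Real.log z with hg
  have hg0 : 0 < g := by rw [hg]; positivity
  have hPA : PA T = Real.exp (2 * g) := by
    have e1 : Real.exp (2 * g) = z ^ 3 := by
      have : 2 * g = Real.log z * 3 := by rw [hg]; ring
      rw [this, Real.exp_mul, Real.exp_log hz0]
      norm_num
    rw [e1]; rfl
  have hlogPA : Real.log (PA T) = 3 * Real.log z := by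
    rw [hPA, Real.log_exp, hg]; ring
  have hPA3 : 3 ≤ PA T := by
    have : PA T = z ^ 3 := rfl
    rw [this]
    nlinarith [pow_le_pow_left₀ (by norm_num : (0 : ℝ) ≤ 3) g3 3]
  have hlL : 0 < Real.log (Real.log T) := by linarith
  have hPB : PB T = Real.exp (16 * z) := by
    have e1 : Real.exp (16 * z) = Real.log (Real.log T) ^ 16 := by
      rw [mul_comm, Real.exp_mul, hzdef, Real.exp_log hlL]
      norm_num
    rw [e1]; rfl
  have hlogPB : Real.log (PB T) = 16 * z := by rw [hPB, Real.log_exp]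
  set n1 : ℕ := nb (PA T) κ K with hn1
  set n2 : ℕ := nb (PB T) κ K with hn2
  have hn1b : (n1 : ℝ) ≤ K * (3 * Real.log z) / κ + 1 := by
    rw [hn1, nb, hlogPA]
    exact (Nat.ceil_lt_add_one (by positivity)).le
  have hn2b : (n2 : ℝ) ≤ K * (16 * z) / κ + 1 := by
    rw [hn2, nb, hlogPB]
    exact (Nat.ceil_lt_add_one (by positivity)).le
  -- the exponents
  set u : ℕ → ℝ := fun v => 16 * z + κ * v with hu
  have hyb : ∀ v : ℕ, yb (PB T) κ v = Real.exp (u v) := by
    intro v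
    rw [yb, hPB, ← Real.exp_add]
  set l : ℕ → ℕ := fun v => ⌈u v / (4 * g)⌉₊ with hl
  have hu16 : ∀ v : ℕ, 16 * z ≤ u v := by
    intro v
    simp only [hu]
    have : 0 ≤ κ * (v : ℝ) := by positivity
    linarith
  have hu0 : ∀ v : ℕ, 0 ≤ u v := fun v => by have := hu16 v; linarith
  have hl1 : ∀ v : ℕ, u v / (4 * g) ≤ l v := fun v => Nat.le_ceil _
  have hl2 : ∀ v : ℕ, (l v : ℝ) ≤ u v / (4 * g) + 1 := by
    intro v
    exact (Nat.ceil_lt_add_one (div_nonneg (hu0 v) (by positivity))).le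
  have hlA : ∀ v < n2, (l v : ℝ) ≤ A * z := by
    intro v hv
    have hv' : (v : ℝ) ≤ n2 := by exact_mod_cast hv.le
    have b1 : κ * (v : ℝ) ≤ K * (16 * z) + κ := by
      calc κ * (v : ℝ) ≤ κ * (K * (16 * z) / κ + 1) :=
            mul_le_mul_of_nonneg_left (hv'.trans hn2b) hκ.le
        _ = K * (16 * z) + κ := by field_simp
    have b2 : u v ≤ (17 + 16 * K) * z := by
      have e1 : (17 + 16 * (K : ℝ)) * z = 16 * z + (K * (16 * z) + z) := by ring
      rw [e1]
      simp only [hu]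
      linarith
    have b3 : u v / (4 * g) ≤ u v := by
      apply div_le_self (hu0 v)
      rw [hg]; linarith
    have b4 := hl2 v
    have e2 : A * z = (17 + 16 * (K : ℝ)) * z + z := by rw [hA]; ring
    rw [e2]
    linarith
  have hVA0 : 0 < VA c κ K T := by
    unfold VA; positivity
  have hVAeq : VA c κ K T = c / (1 + (n1 : ℝ)) ^ 2 := rfl
  have hVB : ∀ v : ℕ, VB κ T v = Real.exp (-(7 / 8 * u v)) := by
    intro v
    rw [VB, hyb, ← Real.exp_mul]
    congr 1
    ring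
  -- the bound of `ff`
  have hff : ∀ m : ℕ, (m : ℝ) ≤ T / ε → |ff η T m| ≤ 4 * L ^ 2 := by
    intro m hm
    have h1 := hffb η T m (by linarith) hη
    have h2 := hbet m
    rw [abs_of_nonneg h1.1]
    refine (h1.2.trans h2.2).trans ?_
    rcases Nat.eq_zero_or_pos m with rfl | hm0
    · simp; positivity
    · have hm1 : (1 : ℝ) ≤ m := by exact_mod_cast hm0
      have h3 : Real.log m ≤ 2 * L := by
        calc Real.log m ≤ Real.log (T / ε) := Real.log_le_log (by linarith) hm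
          _ ≤ Real.log (T * T) := by
              apply Real.log_le_log (by positivity)
              rw [div_eq_mul_one_div]
              exact mul_le_mul_of_nonneg_left hTε hTp.le
          _ = 2 * L := by rw [Real.log_mul hTp.ne' hTp.ne', hL]; ring
      have h4 : 0 ≤ Real.log m := Real.log_nonneg hm1
      nlinarith
  have hb1 : a * h / T ≤ 1 := by
    refine le_trans ?_ g4
    apply div_le_div_of_nonneg_right _ hTp.le
    exact mul_le_mul_of_nonneg_left hhL ha.le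
  -- the coefficients
  set cf : ℕ → ℝ := fun v => n2 * VB κ T v / VA c κ K T ^ l v with hcf
  have hcf0 : ∀ v, 0 ≤ cf v := by
    intro v
    simp only [hcf]
    rw [hVB v]
    positivity
  -- one term
  have hterm : ∀ v < n2, ∀ w < n1, ENNReal.ofReal (cf v) *
      ∫⁻ t : ℝ, ENNReal.ofReal (‖Mb ε η (yb (PB T) κ v) T t * Qb (PA T) κ w t ^ l v‖ ^ 2 *
        Real.exp (-(a * h / T * |t|))) ≤
      ENNReal.ofReal (n2 * (16 * C * B * 2 * (A * z + 1) *
        Real.exp (-(2 * z) + 3 / 2 * Real.log z)) * L ^ 4) := by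
    intro v hv w hw
    have hyw : PA T ≤ yb (PA T) κ w := by
      unfold yb
      have : 1 ≤ Real.exp (κ * w) := Real.one_le_exp (by positivity)
      nlinarith
    have hnext : yb (PA T) κ (w + 1) = yb (PA T) κ w * Real.exp κ := by
      unfold yb
      rw [mul_assoc, ← Real.exp_add]
      congr 2
      push_cast
      ring
    have hyw3 : 3 ≤ yb (PA T) κ w := hPA3.trans hyw
    have hW1 : Wq (yb (PA T) κ w) (yb (PA T) κ (w + 1)) ≤ 1 := by
      rw [hnext]
      exact Wq_block hyw3 hκ hκ2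
    have hlt : yb (PA T) κ w < yb (PA T) κ (w + 1) := by
      rw [hnext]
      have : 1 < Real.exp κ := Real.one_lt_exp_iff.2 hκ
      nlinarith
    have hy1 : 1 ≤ yb (PB T) κ v := by
      rw [hyb]
      exact Real.one_le_exp (hu0 v)
    have h1 := term_int hcm hC (k := l v) ha hε hε1 hTp hh1 hb1 hy1 (by linarith : 2 ≤ yb (PA T) κ w)
      hlt hW1 (by positivity : 0 ≤ 4 * L ^ 2) hff hB
    have h2 := term_bd (z := z) (u := u v) (g := g) (P := yb (PA T) κ w) (V := VA c κ K T)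
      (l := l v) hg0 (hu16 v) (hu0 v) (hl1 v) (hl2 v) hVA0
      (by rw [hVAeq]; exact g1 (l v) n1 (hlA v hv) hn1b) (by rw [← hPA]; exact hyw)
    calc ENNReal.ofReal (cf v) *
      ∫⁻ t : ℝ, ENNReal.ofReal (‖Mb ε η (yb (PB T) κ v) T t * Qb (PA T) κ w t ^ l v‖ ^ 2 *
        Real.exp (-(a * h / T * |t|)))
        ≤ ENNReal.ofReal (cf v) * ENNReal.ofReal (C * (4 * L ^ 2) ^ 2 * (l v + 1) *
          (B * ((4 * (l v : ℝ) / yb (PA T) κ w) ^ l v * yb (PB T) κ v +
            (2 * (l v : ℝ)) ^ l v))) := by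
          gcongr
          exact h1
      _ = ENNReal.ofReal (cf v * (C * (4 * L ^ 2) ^ 2 * (l v + 1) *
          (B * ((4 * (l v : ℝ) / yb (PA T) κ w) ^ l v * yb (PB T) κ v +
            (2 * (l v : ℝ)) ^ l v)))) := (ENNReal.ofReal_mul (hcf0 v)).symm
      _ ≤ _ := by
          apply ENNReal.ofReal_le_ofReal
          have h3 : cf v * (C * (4 * L ^ 2) ^ 2 * (l v + 1) *
              (B * ((4 * (l v : ℝ) / yb (PA T) κ w) ^ l v * yb (PB T) κ v +
                (2 * (l v : ℝ)) ^ l v))) =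
              n2 * (16 * C * B * (l v + 1)) * L ^ 4 *
                (Real.exp (-(7 / 8 * u v)) / VA c κ K T ^ l v *
                  ((4 * (l v : ℝ) / yb (PA T) κ w) ^ l v * Real.exp (u v) +
                    (2 * (l v : ℝ)) ^ l v)) := by
            simp only [hcf]
            rw [hVB v, hyb v]
            ring
          rw [h3]
          calc n2 * (16 * C * B * (l v + 1)) * L ^ 4 *
                (Real.exp (-(7 / 8 * u v)) / VA c κ K T ^ l v *
                  ((4 * (l v : ℝ) / yb (PA T) κ w) ^ l v * Real.exp (u v) +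
                    (2 * (l v : ℝ)) ^ l v))
              ≤ n2 * (16 * C * B * (A * z + 1)) * L ^ 4 *
                (2 * Real.exp (-(2 * z) + g)) := by
                have := hlA v hv
                gcongr
            _ = _ := by rw [hg]; ring
  -- the sum
  have hm : ∀ v w : ℕ, Measurable (fun t : ℝ => ENNReal.ofReal (cf v) *
      ENNReal.ofReal (‖Mb ε η (yb (PB T) κ v) T t * Qb (PA T) κ w t ^ l v‖ ^ 2 *
        Real.exp (-(a * h / T * |t|)))) := by
    intro v w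
    have c1 := Mb_cont ε η (yb (PB T) κ v) T
    have c2 : Continuous (Qb (PA T) κ w) := Qp_cont _ _
    have c3 : Continuous (fun t : ℝ => ‖Mb ε η (yb (PB T) κ v) T t *
        Qb (PA T) κ w t ^ l v‖ ^ 2 * Real.exp (-(a * h / T * |t|))) := by
      fun_prop
    exact (measurable_const.mul (ENNReal.measurable_ofReal.comp c3.measurable))
  calc ∫⁻ t in {t : ℝ | (∃ v < nb (PA T) κ K, VA c κ K T < ‖Qb (PA T) κ v t‖ ^ 2) ∧
        ∀ v < nb (PB T) κ K, ‖Qb (PB T) κ v t‖ ^ 2 ≤ VB κ T v},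
      ENNReal.ofReal (‖Fb ε η κ K (PB T) T t‖ ^ 2 * Real.exp (-(a * h / T * |t|)))
      ≤ ∫⁻ t in {t : ℝ | (∃ v < nb (PA T) κ K, VA c κ K T < ‖Qb (PA T) κ v t‖ ^ 2) ∧
        ∀ v < nb (PB T) κ K, ‖Qb (PB T) κ v t‖ ^ 2 ≤ VB κ T v},
        ∑ v ∈ Finset.range n2, ∑ w ∈ Finset.range n1, ENNReal.ofReal (cf v) *
          ENNReal.ofReal (‖Mb ε η (yb (PB T) κ v) T t * Qb (PA T) κ w t ^ l v‖ ^ 2 *
            Real.exp (-(a * h / T * |t|))) := by
        apply setLIntegral_mono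
        · exact Finset.measurable_sum _ fun v _ => Finset.measurable_sum _ fun w _ => hm v w
        · intro t ht
          have hp := point (l := l) (M := fun v => Mb ε η (yb (PB T) κ v) T t) hW hVA0 ht.1 ht.2
          have hE := Real.exp_pos (-(a * h / T * |t|))
          have e1 : ∑ v ∈ Finset.range n2, ∑ w ∈ Finset.range n1, ENNReal.ofReal (cf v) *
              ENNReal.ofReal (‖Mb ε η (yb (PB T) κ v) T t * Qb (PA T) κ w t ^ l v‖ ^ 2 *
                Real.exp (-(a * h / T * |t|))) =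
              ENNReal.ofReal ((∑ v ∈ Finset.range n2, ∑ w ∈ Finset.range n1,
                cf v * ‖Mb ε η (yb (PB T) κ v) T t * Qb (PA T) κ w t ^ l v‖ ^ 2) *
                Real.exp (-(a * h / T * |t|))) := by
            rw [Finset.sum_mul, ENNReal.ofReal_sum_of_nonneg (fun v _ =>
              mul_nonneg (Finset.sum_nonneg fun w _ => mul_nonneg (hcf0 v) (by positivity))
                hE.le)]
            apply Finset.sum_congr rfl
            intro v _
            rw [Finset.sum_mul, ENNReal.ofReal_sum_of_nonneg (fun w _ =>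
              mul_nonneg (mul_nonneg (hcf0 v) (by positivity)) hE.le)]
            apply Finset.sum_congr rfl
            intro w _
            rw [mul_assoc, ENNReal.ofReal_mul (hcf0 v)]
          rw [e1]
          apply ENNReal.ofReal_le_ofReal
          apply mul_le_mul_of_nonneg_right _ hE.le
          exact hp
    _ ≤ ∫⁻ t : ℝ, ∑ v ∈ Finset.range n2, ∑ w ∈ Finset.range n1, ENNReal.ofReal (cf v) *
          ENNReal.ofReal (‖Mb ε η (yb (PB T) κ v) T t * Qb (PA T) κ w t ^ l v‖ ^ 2 *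
            Real.exp (-(a * h / T * |t|))) := setLIntegral_le_lintegral _ _
    _ = ∑ v ∈ Finset.range n2, ∑ w ∈ Finset.range n1, ENNReal.ofReal (cf v) *
          ∫⁻ t : ℝ, ENNReal.ofReal (‖Mb ε η (yb (PB T) κ v) T t *
            Qb (PA T) κ w t ^ l v‖ ^ 2 * Real.exp (-(a * h / T * |t|))) := by
        rw [lintegral_finsetSum _ fun v _ => Finset.measurable_sum _ fun w _ => hm v w]
        apply Finset.sum_congr rfl
        intro v _
        rw [lintegral_finsetSum _ fun w _ => hm v w]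
        apply Finset.sum_congr rfl
        intro w _
        rw [lintegral_const_mul' _ _ ENNReal.ofReal_ne_top]
    _ ≤ ∑ _v ∈ Finset.range n2, ∑ _w ∈ Finset.range n1,
          ENNReal.ofReal (n2 * (16 * C * B * 2 * (A * z + 1) *
            Real.exp (-(2 * z) + 3 / 2 * Real.log z)) * L ^ 4) :=
        Finset.sum_le_sum fun v hv => Finset.sum_le_sum fun w hw =>
          hterm v (Finset.mem_range.1 hv) w (Finset.mem_range.1 hw)
    _ = ENNReal.ofReal ((n2 : ℝ) ^ 2 * n1 * (16 * C * B * 2 * (A * z + 1) *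
            Real.exp (-(2 * z) + 3 / 2 * Real.log z)) * L ^ 4) := by
        rw [Finset.sum_const, Finset.sum_const, Finset.card_range, Finset.card_range,
          nsmul_eq_mul, nsmul_eq_mul]
        have e1 : ((n2 : ℕ) : ℝ≥0∞) = ENNReal.ofReal n2 := (ENNReal.ofReal_natCast n2).symm
        have e2 : ((n1 : ℕ) : ℝ≥0∞) = ENNReal.ofReal n1 := (ENNReal.ofReal_natCast n1).symm
        rw [e1, e2, ← ENNReal.ofReal_mul (Nat.cast_nonneg _), ← ENNReal.ofReal_mul
          (Nat.cast_nonneg _)]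
        congr 1
        ring
    _ ≤ ENNReal.ofReal (δ * L ^ 4) := by
        apply ENNReal.ofReal_le_ofReal
        apply mul_le_mul_of_nonneg_right _ (by positivity)
        exact g2 n1 n2 hn1b hn2b

end Pool.Agent.Lib.MP_6bc78b_nt.GP.G8.H19
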