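import Pool.Agent.Lib.MP_6bc78b_nt.GP.H62.Defs7

/-! Project GP7, row POLX: polar coordinates over the middle region. -/

set_option autoImplicit false

open MeasureTheory Complex Filter Topology Set
open scoped ENNReal

namespace Pool.Agent.Lib.MP_6bc78b_nt.GP.G7.H19

/-! ## The kernel -/

/-- The kernel in the angle `k` from the imaginary axis. -/
noncomputable def ker (κ0 κ1 t x : ℝ) : ℝ≥0∞ :=
  (Icc κ0 κ1).indicator (fun x => ENNReal.ofReal ((1 + |t|) * Real.exp (-(2 * x * |t|)))) x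

lemma ker_meas2 (κ0 κ1 : ℝ) : Measurable (fun p : ℝ × ℝ => ker κ0 κ1 p.2 p.1) := by
  unfold ker
  have h : Measurable (fun p : ℝ × ℝ =>
      ((fun p : ℝ × ℝ => p.1) ⁻¹' (Icc κ0 κ1)).indicator
        (fun p : ℝ × ℝ => ENNReal.ofReal ((1 + |p.2|) * Real.exp (-(2 * p.1 * |p.2|)))) p) := by
    apply Measurable.indicator
    · fun_prop
    · exact measurable_fst measurableSet_Icc
  exact h

lemma ker_int1 {κ0 κ1 t : ℝ} (h0 : 0 ≤ κ0) :
    ∫⁻ x : ℝ, ker κ0 κ1 t x ≤
      ENNReal.ofReal ((1 + |t|) * κ1 * Real.exp (-(2 * κ0 * |t|))) := by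
  unfold ker
  rw [lintegral_indicator measurableSet_Icc]
  calc ∫⁻ x in Icc κ0 κ1, ENNReal.ofReal ((1 + |t|) * Real.exp (-(2 * x * |t|)))
      ≤ ∫⁻ _ in Icc κ0 κ1, ENNReal.ofReal ((1 + |t|) * Real.exp (-(2 * κ0 * |t|))) := by
        apply setLIntegral_mono' measurableSet_Icc
        intro x hx
        apply ENNReal.ofReal_le_ofReal
        apply mul_le_mul_of_nonneg_left _ (by positivity)
        apply Real.exp_le_exp.2
        have := mul_le_mul_of_nonneg_right hx.1 (abs_nonneg t)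
        linarith
    _ = ENNReal.ofReal ((1 + |t|) * Real.exp (-(2 * κ0 * |t|))) * ENNReal.ofReal (κ1 - κ0) := by
        rw [setLIntegral_const, Real.volume_Icc]
    _ ≤ _ := by
        rw [← ENNReal.ofReal_mul (by positivity)]
        apply ENNReal.ofReal_le_ofReal
        have : (1 + |t|) * Real.exp (-(2 * κ0 * |t|)) * (κ1 - κ0) ≤
            (1 + |t|) * Real.exp (-(2 * κ0 * |t|)) * κ1 := by
          apply mul_le_mul_of_nonneg_left (by linarith) (by positivity)
        linarith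

lemma ker_int2 {κ0 κ1 t : ℝ} (ht : 1 ≤ |t|) :
    ∫⁻ x : ℝ, ker κ0 κ1 t x ≤ ENNReal.ofReal (Real.exp (-(2 * κ0 * |t|))) := by
  unfold ker
  rw [lintegral_indicator measurableSet_Icc]
  have ht0 : -(2 * |t|) < 0 := by linarith
  have hcl : ∫⁻ x in Ioi κ0, ENNReal.ofReal (2 * |t| * Real.exp (-(2 * |t|) * x)) =
      ENNReal.ofReal (Real.exp (-(2 * κ0 * |t|))) := by
    rw [← ofReal_integral_eq_lintegral_ofReal]
    · congr 1
      rw [integral_const_mul, integral_exp_mul_Ioi ht0]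
      have : |t| ≠ 0 := by linarith
      field_simp
    · exact (integrableOn_exp_mul_Ioi ht0 κ0).const_mul _
    · exact Filter.Eventually.of_forall fun x => by positivity
  rw [← hcl]
  calc ∫⁻ x in Icc κ0 κ1, ENNReal.ofReal ((1 + |t|) * Real.exp (-(2 * x * |t|)))
      ≤ ∫⁻ x in Ici κ0, ENNReal.ofReal ((1 + |t|) * Real.exp (-(2 * x * |t|))) :=
        lintegral_mono_set (fun x hx => hx.1)
    _ = ∫⁻ x in Ioi κ0, ENNReal.ofReal ((1 + |t|) * Real.exp (-(2 * x * |t|))) :=
        setLIntegral_congr Ioi_ae_eq_Ici.symm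
    _ ≤ _ := by
        apply lintegral_mono
        intro x
        apply ENNReal.ofReal_le_ofReal
        have : Real.exp (-(2 * x * |t|)) = Real.exp (-(2 * |t|) * x) := by
          congr 1; ring
        rw [this]
        apply mul_le_mul_of_nonneg_right (by linarith) (by positivity)

lemma ker_int {κ0 κ1 t : ℝ} (h0 : 0 ≤ κ0) (h01 : κ0 ≤ κ1) (h1 : 2 * κ1 ≤ 1) :
    ∫⁻ x : ℝ, ker κ0 κ1 t x ≤
      ENNReal.ofReal (min 1 ((1 + |t|) * (2 * κ1)) * Real.exp (-(2 * κ0 * |t|))) := by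
  have hE := Real.exp_pos (-(2 * κ0 * |t|))
  have hk1 : 0 ≤ κ1 := h0.trans h01
  have hA : ∫⁻ x : ℝ, ker κ0 κ1 t x ≤
      ENNReal.ofReal ((1 + |t|) * (2 * κ1) * Real.exp (-(2 * κ0 * |t|))) := by
    refine (ker_int1 h0).trans (ENNReal.ofReal_le_ofReal ?_)
    apply mul_le_mul_of_nonneg_right _ hE.le
    apply mul_le_mul_of_nonneg_left (by linarith) (by positivity)
  rcases le_total ((1 + |t|) * (2 * κ1)) 1 with h | h
  · rw [min_eq_right h]; exact hA
  · rw [min_eq_left h, one_mul]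
    rcases le_total 1 |t| with ht | ht
    · exact ker_int2 ht
    · refine (ker_int1 h0).trans (ENNReal.ofReal_le_ofReal ?_)
      have : (1 + |t|) * κ1 ≤ 1 := by nlinarith
      nlinarith

/-! ## Geometry of the rays -/

lemma ray_mid {a b T lam2 h r φ : ℝ} (ha : 0 < a) (hT : 0 < T) (hh : 0 < h) (hl : 0 < lam2)
    (hbl : b * lam2 / T ≤ 1 / 2) (hr : 0 < r) (hφ : |φ| ≤ Real.pi)
    (hz : ((r : ℂ) * (Real.cos φ + Real.sin φ * I)) ∈ mid a b T lam2 h) :
    a * h / (2 * T) ≤ Real.pi / 2 - |φ| ∧ Real.pi / 2 - |φ| ≤ b * lam2 / T := by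
  have hre : ((r : ℂ) * (Real.cos φ + Real.sin φ * I)).re = r * Real.cos φ := by
    simp only [Complex.mul_re, Complex.add_re, Complex.ofReal_re, Complex.ofReal_im,
      Complex.add_im, Complex.mul_im, Complex.I_re, Complex.I_im]
    ring
  have him : ((r : ℂ) * (Real.cos φ + Real.sin φ * I)).im = r * Real.sin φ := by
    simp only [Complex.mul_re, Complex.add_re, Complex.ofReal_re, Complex.ofReal_im,
      Complex.add_im, Complex.mul_im, Complex.I_re, Complex.I_im]
    ring
  obtain ⟨⟨h1, h2⟩, h3, h4⟩ := hz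
  rw [hre] at h1 h2
  rw [him] at h3 h4
  rw [abs_mul, abs_of_pos hr] at h3 h4
  set k : ℝ := Real.pi / 2 - |φ| with hk
  have hpi := Real.pi_pos
  have hcos : Real.cos φ = Real.sin k := by
    rw [hk, Real.sin_pi_div_two_sub, Real.cos_abs]
  have hsin : |Real.sin φ| = Real.cos k := by
    rw [hk, Real.cos_pi_div_two_sub]
    have hs : 0 ≤ Real.sin |φ| := Real.sin_nonneg_of_nonneg_of_le_pi (abs_nonneg φ) hφ
    rcases abs_cases φ with ⟨e, _⟩ | ⟨e, _⟩
    · rw [e] at hs ⊢; exact abs_of_nonneg hs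
    · rw [e] at hs ⊢; rw [Real.sin_neg] at hs ⊢; exact abs_of_nonpos (by linarith)
  rw [hcos] at h1 h2
  rw [hsin] at h3 h4
  have haT : 0 < a / T := by positivity
  have hsk : 0 < Real.sin k := by
    by_contra hc
    rw [not_lt] at hc
    nlinarith
  have hck : 0 < Real.cos k := by
    by_contra hc
    rw [not_lt] at hc
    have : 0 < 1 / lam2 := by positivity
    nlinarith
  have hk0 : 0 < k := by
    by_contra hc
    rw [not_lt] at hc
    have : Real.sin k ≤ 0 := Real.sin_nonpos_of_nonpos_of_neg_pi_le hc (by linarith)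
    linarith
  have hk2 : k < Real.pi / 2 := by
    by_contra hc
    rw [not_lt] at hc
    have h5 : k ≤ Real.pi / 2 := by
      rw [hk]; have := abs_nonneg φ; linarith
    have h6 : k = Real.pi / 2 := le_antisymm h5 hc
    rw [h6, Real.cos_pi_div_two] at hck
    exact lt_irrefl _ hck
  -- `tan k`
  have htan : Real.tan k * Real.cos k = Real.sin k := by
    rw [Real.tan_eq_sin_div_cos]; field_simp
  have hup : Real.tan k ≤ b * lam2 / T := by
    -- tan k = r sin k/(r cos k) ≤ (b/T)/(1/lam2)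
    have h5 : 0 < r * Real.cos k := by positivity
    have h6 : Real.tan k * (r * Real.cos k) ≤ b / T := by
      calc Real.tan k * (r * Real.cos k) = r * Real.sin k := by rw [← htan]; ring
        _ ≤ b / T := h2
    have ht0 : 0 < Real.tan k := Real.tan_pos_of_pos_of_lt_pi_div_two hk0 hk2
    have h7 : Real.tan k * (1 / lam2) ≤ b / T :=
      (mul_le_mul_of_nonneg_left h3 ht0.le).trans h6
    have h8 : Real.tan k * (1 / lam2) * lam2 ≤ b / T * lam2 :=
      mul_le_mul_of_nonneg_right h7 hl.le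
    have h9 : Real.tan k * (1 / lam2) * lam2 = Real.tan k := by field_simp
    have h10 : b / T * lam2 = b * lam2 / T := by ring
    linarith
  have hlo : a * h / T ≤ Real.tan k := by
    have h6 : a / T ≤ Real.tan k * (r * Real.cos k) := by
      calc a / T ≤ r * Real.sin k := h1
        _ = Real.tan k * (r * Real.cos k) := by rw [← htan]; ring
    have ht0 : 0 < Real.tan k := Real.tan_pos_of_pos_of_lt_pi_div_two hk0 hk2
    have h7 : a / T ≤ Real.tan k * (1 / h) :=
      h6.trans (mul_le_mul_of_nonneg_left h4 ht0.le)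
    have h8 : a / T * h ≤ Real.tan k * (1 / h) * h := mul_le_mul_of_nonneg_right h7 hh.le
    have h9 : Real.tan k * (1 / h) * h = Real.tan k := by field_simp
    have h10 : a / T * h = a * h / T := by ring
    linarith
  have hkt : k < Real.tan k := Real.lt_tan hk0 hk2
  have hk12 : k ≤ 1 / 2 := by linarith
  constructor
  · -- tan k ≤ 2 k for small k
    have hc2 : 1 / 2 ≤ Real.cos k := by
      have := Real.one_sub_sq_div_two_le_cos (x := k)
      nlinarith
    have hs2 : Real.sin k ≤ k := (Real.sin_lt hk0).le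
    have h5 : Real.tan k ≤ 2 * k := by
      rw [Real.tan_eq_sin_div_cos, div_le_iff₀ hck]
      nlinarith
    have h6 : a * h / (2 * T) = a * h / T / 2 := by field_simp
    rw [h6]
    linarith
  · linarith

/-! ## Continuity -/

lemma EP_cont (c : ℕ → ℂ) (N : ℕ) : Continuous (EP c N) := by
  unfold EP
  fun_prop

lemma DP_cont (c : ℕ → ℂ) (N : ℕ) : Continuous (DP c N) := by
  unfold DP
  apply continuous_finsetSum
  intro n hn
  have hn0 : (n : ℂ) ≠ 0 := by
    have := (Finset.mem_Icc.1 hn).1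
    exact_mod_cast (by omega : n ≠ 0)
  apply Continuous.mul continuous_const
  apply Continuous.const_cpow _ (Or.inl hn0)
  fun_prop

lemma mid_meas (a b T lam2 h : ℝ) : MeasurableSet (mid a b T lam2 h) := by
  unfold mid
  have h1 : MeasurableSet {z : ℂ | a / T ≤ z.re} := measurableSet_le (by fun_prop) (by fun_prop)
  have h2 : MeasurableSet {z : ℂ | z.re ≤ b / T} := measurableSet_le (by fun_prop) (by fun_prop)
  have h3 : MeasurableSet {z : ℂ | 1 / lam2 ≤ |z.im|} :=
    measurableSet_le (by fun_prop) (by fun_prop)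
  have h4 : MeasurableSet {z : ℂ | |z.im| ≤ 1 / h} :=
    measurableSet_le (by fun_prop) (by fun_prop)
  exact ((h1.inter h2).inter (h3.inter h4))

theorem polx (hR : RAYXStatement) : POLXStatement := by
  intro a b ha hab
  obtain ⟨C, hC, hray⟩ := hR
  refine ⟨2 * C, max 11 ((2 * b) ^ 2), by positivity, ?_, ?_⟩
  · exact lt_of_lt_of_le (by norm_num) (le_max_left _ _)
  intro T h lam2 hT hh1 hhl hlT N c
  have hT11 : 11 ≤ T := (le_max_left _ _).trans hT
  have hTb : (2 * b) ^ 2 ≤ T := (le_max_right _ _).trans hT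
  have hT0 : 0 < T := by linarith
  have hh0 : 0 < h := by linarith
  have hl0 : 0 < lam2 := by linarith
  have hb0 : 0 < b := ha.trans hab
  set κ0 : ℝ := a * h / (2 * T) with hκ0
  set κ1 : ℝ := b * lam2 / T with hκ1
  have hκ0p : 0 < κ0 := by positivity
  have hκ1h : κ1 ≤ 1 / 2 := by
    have hs : Real.sqrt T * Real.sqrt T = T := Real.mul_self_sqrt hT0.le
    have hs0 : 0 < Real.sqrt T := Real.sqrt_pos.2 hT0
    have hs2 : 2 * b ≤ Real.sqrt T := Real.le_sqrt_of_sq_le hTb
    rw [hκ1, div_le_iff₀ hT0]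
    calc b * lam2 ≤ b * Real.sqrt T := mul_le_mul_of_nonneg_left hlT hb0.le
      _ ≤ Real.sqrt T / 2 * Real.sqrt T :=
          mul_le_mul_of_nonneg_right (by linarith) hs0.le
      _ = 1 / 2 * T := by linear_combination (1 / 2 : ℝ) * hs
  have h01 : κ0 ≤ κ1 := by
    rw [hκ0, hκ1]
    rw [div_le_div_iff₀ (by positivity) hT0]
    have h1 : a * h ≤ b * lam2 := mul_le_mul hab.le hhl hh0.le hb0.le
    have h2 : a * h * T ≤ b * lam2 * T := mul_le_mul_of_nonneg_right h1 hT0.le
    have h3 : 0 ≤ b * lam2 * T := by positivity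
    linarith
  have hpi := Real.pi_gt_three
  -- the inner integral
  have hinner : ∀ φ : ℝ, φ ∈ Ioo (-Real.pi) Real.pi →
      ∫⁻ r in Ioi (0 : ℝ), ENNReal.ofReal r * (mid a b T lam2 h).indicator
        (fun z => ENNReal.ofReal (‖EP c N z‖ ^ 2)) ((r : ℂ) * (Real.cos φ + Real.sin φ * I)) ≤
      ENNReal.ofReal C * ∫⁻ t : ℝ, ENNReal.ofReal (‖DP c N t‖ ^ 2) *
        ker κ0 κ1 t (Real.pi / 2 - |φ|) := by
    intro φ hφ
    have hφπ : |φ| ≤ Real.pi := (abs_lt.2 ⟨hφ.1, hφ.2⟩).le
    by_cases hk : Real.pi / 2 - |φ| ∈ Icc κ0 κ1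
    · -- RAYX
      have hk' := hk
      obtain ⟨hk1, hk2⟩ := hk'
      have hr := hray N c (Real.pi / 2 - |φ|) φ (by linarith) (by linarith) (by linarith)
      calc ∫⁻ r in Ioi (0 : ℝ), ENNReal.ofReal r * (mid a b T lam2 h).indicator
            (fun z => ENNReal.ofReal (‖EP c N z‖ ^ 2)) ((r : ℂ) * (Real.cos φ + Real.sin φ * I))
          ≤ ∫⁻ r in Ioi (0 : ℝ), ENNReal.ofReal (‖EP c N (r * Complex.exp (φ * I))‖ ^ 2 * r) := by
            apply setLIntegral_mono' measurableSet_Ioi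
            intro r hr0
            have hr0' : 0 < r := hr0
            have he : (r : ℂ) * (Real.cos φ + Real.sin φ * I) = r * Complex.exp (φ * I) := by
              rw [Complex.exp_mul_I]; push_cast; ring
            rw [he]
            rw [ENNReal.ofReal_mul (by positivity), mul_comm]
            gcongr
            exact Set.indicator_le_self _ _ _
        _ ≤ ENNReal.ofReal C * ∫⁻ t : ℝ, ENNReal.ofReal (‖DP c N t‖ ^ 2 *
              ((1 + |t|) * Real.exp (-(2 * (Real.pi / 2 - |φ|) * |t|)))) := hr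
        _ = _ := by
            congr 1
            apply lintegral_congr
            intro t
            unfold ker
            rw [Set.indicator_of_mem hk, ← ENNReal.ofReal_mul (by positivity)]
    · -- nothing in the region
      have h0 : ∀ r ∈ Ioi (0 : ℝ), ENNReal.ofReal r * (mid a b T lam2 h).indicator
          (fun z => ENNReal.ofReal (‖EP c N z‖ ^ 2))
          ((r : ℂ) * (Real.cos φ + Real.sin φ * I)) = 0 := by
        intro r hr
        rw [Set.indicator_of_notMem, mul_zero]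
        intro hz
        exact hk (ray_mid ha hT0 hh0 hl0 hκ1h hr hφπ hz)
      rw [setLIntegral_congr_fun measurableSet_Ioi h0]
      simp
  have hpolar : ∫⁻ z in mid a b T lam2 h, ENNReal.ofReal (‖EP c N z‖ ^ 2) ≤
      ∫⁻ φ in Ioo (-Real.pi) Real.pi, ∫⁻ r in Ioi (0 : ℝ), ENNReal.ofReal r *
        (mid a b T lam2 h).indicator (fun z => ENNReal.ofReal (‖EP c N z‖ ^ 2))
          ((r : ℂ) * (Real.cos φ + Real.sin φ * I)) := by
    rw [← lintegral_indicator (mid_meas a b T lam2 h), ← Complex.lintegral_comp_polarCoord_symm]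
    rw [show polarCoord.target = Ioi (0 : ℝ) ×ˢ Ioo (-Real.pi) Real.pi from rfl]
    rw [show (volume : Measure (ℝ × ℝ)) = volume.prod volume from rfl, ← Measure.prod_restrict]
    rw [← lintegral_prod_swap]
    refine (lintegral_prod_le _).trans (le_of_eq ?_)
    apply lintegral_congr
    intro φ
    apply lintegral_congr
    intro r
    simp only [Prod.swap_prod_mk, smul_eq_mul, Complex.polarCoord_symm_apply]
  -- measurability
  have hm2 : Measurable (fun p : ℝ × ℝ => ENNReal.ofReal (‖DP c N p.2‖ ^ 2) *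
      ker κ0 κ1 p.2 (Real.pi / 2 - |p.1|)) := by
    apply Measurable.mul
    · have := (DP_cont c N).measurable
      fun_prop
    · have h1 := ker_meas2 κ0 κ1
      exact h1.comp (by fun_prop : Measurable (fun p : ℝ × ℝ => (Real.pi / 2 - |p.1|, p.2)))
  have hmk : ∀ t : ℝ, Measurable (fun x : ℝ => ker κ0 κ1 t x) := by
    intro t
    exact (ker_meas2 κ0 κ1).comp (by fun_prop : Measurable (fun x : ℝ => (x, t)))
  -- the integral over the angle
  have hang : ∀ t : ℝ, ∫⁻ φ in Ioo (-Real.pi) Real.pi, ker κ0 κ1 t (Real.pi / 2 - |φ|) ≤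
      ENNReal.ofReal (2 * rho a b T lam2 h t) := by
    intro t
    have h1 : ∀ φ : ℝ, ker κ0 κ1 t (Real.pi / 2 - |φ|) ≤
        ker κ0 κ1 t (Real.pi / 2 - φ) + ker κ0 κ1 t (Real.pi / 2 + φ) := by
      intro φ
      rcases abs_cases φ with ⟨e, _⟩ | ⟨e, _⟩
      · rw [e]; exact le_self_add
      · rw [e, sub_neg_eq_add]; exact le_add_self
    have h2 : ∫⁻ φ : ℝ, ker κ0 κ1 t (Real.pi / 2 - φ) = ∫⁻ x : ℝ, ker κ0 κ1 t x :=
      lintegral_sub_left_eq_self (fun x => ker κ0 κ1 t x) (Real.pi / 2)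
    have h3 : ∫⁻ φ : ℝ, ker κ0 κ1 t (Real.pi / 2 + φ) = ∫⁻ x : ℝ, ker κ0 κ1 t x :=
      lintegral_add_left_eq_self (fun x => ker κ0 κ1 t x) (Real.pi / 2)
    have h4 := ker_int (t := t) hκ0p.le h01 (by linarith : 2 * κ1 ≤ 1)
    have h5 : min 1 ((1 + |t|) * (2 * κ1)) * Real.exp (-(2 * κ0 * |t|)) =
        rho a b T lam2 h t := by
      unfold rho
      have e1 : 2 * κ1 = 2 * b * lam2 / T := by rw [hκ1]; ring
      have e2 : 2 * κ0 * |t| = a * h / T * |t| := by
        rw [hκ0]; field_simp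
      rw [e1, e2]
    rw [h5] at h4
    calc ∫⁻ φ in Ioo (-Real.pi) Real.pi, ker κ0 κ1 t (Real.pi / 2 - |φ|)
        ≤ ∫⁻ φ : ℝ, ker κ0 κ1 t (Real.pi / 2 - |φ|) := setLIntegral_le_lintegral _ _
      _ ≤ ∫⁻ φ : ℝ, (ker κ0 κ1 t (Real.pi / 2 - φ) + ker κ0 κ1 t (Real.pi / 2 + φ)) :=
          lintegral_mono h1
      _ = (∫⁻ x : ℝ, ker κ0 κ1 t x) + ∫⁻ x : ℝ, ker κ0 κ1 t x := by
          have hmA : Measurable (fun φ : ℝ => ker κ0 κ1 t (Real.pi / 2 - φ)) :=
            (hmk t).comp (by fun_prop)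
          rw [lintegral_add_left hmA, h2, h3]
      _ ≤ ENNReal.ofReal (rho a b T lam2 h t) + ENNReal.ofReal (rho a b T lam2 h t) :=
          add_le_add h4 h4
      _ = _ := by
          rw [← two_mul, ENNReal.ofReal_mul (by norm_num)]
          norm_num
  calc ∫⁻ z in mid a b T lam2 h, ENNReal.ofReal (‖EP c N z‖ ^ 2)
      ≤ _ := hpolar
    _ ≤ ∫⁻ φ in Ioo (-Real.pi) Real.pi, ENNReal.ofReal C * ∫⁻ t : ℝ,
          ENNReal.ofReal (‖DP c N t‖ ^ 2) * ker κ0 κ1 t (Real.pi / 2 - |φ|) :=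
        setLIntegral_mono' measurableSet_Ioo hinner
    _ = ENNReal.ofReal C * ∫⁻ φ in Ioo (-Real.pi) Real.pi, ∫⁻ t : ℝ,
          ENNReal.ofReal (‖DP c N t‖ ^ 2) * ker κ0 κ1 t (Real.pi / 2 - |φ|) :=
        lintegral_const_mul' _ _ ENNReal.ofReal_ne_top
    _ = ENNReal.ofReal C * ∫⁻ t : ℝ, ∫⁻ φ in Ioo (-Real.pi) Real.pi,
          ENNReal.ofReal (‖DP c N t‖ ^ 2) * ker κ0 κ1 t (Real.pi / 2 - |φ|) := by
        congr 1
        exact lintegral_lintegral_swap hm2.aemeasurable
    _ ≤ ENNReal.ofReal C * ∫⁻ t : ℝ, ENNReal.ofReal 2 *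
          ENNReal.ofReal (‖DP c N t‖ ^ 2 * rho a b T lam2 h t) := by
        gcongr with t
        rw [lintegral_const_mul' _ _ ENNReal.ofReal_ne_top]
        calc ENNReal.ofReal (‖DP c N t‖ ^ 2) *
              ∫⁻ φ in Ioo (-Real.pi) Real.pi, ker κ0 κ1 t (Real.pi / 2 - |φ|)
            ≤ ENNReal.ofReal (‖DP c N t‖ ^ 2) * ENNReal.ofReal (2 * rho a b T lam2 h t) := by
              gcongr
              exact hang t
          _ = _ := by
              rw [← ENNReal.ofReal_mul (by positivity), ← ENNReal.ofReal_mul (by norm_num)]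
              congr 1
              ring
    _ = _ := by
        rw [lintegral_const_mul' _ _ ENNReal.ofReal_ne_top, ← mul_assoc,
          ← ENNReal.ofReal_mul hC.le]
        congr 2
        ring

end Pool.Agent.Lib.MP_6bc78b_nt.GP.G7.H19
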