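import Pool.Agent.Lib.MP_6bc78b_nt.GP.H19.Sclb
import Pool.Agent.Lib.MP_6bc78b_nt.GP.H35.Defs11s

/-! Project GP11 (MP_6bc78b_nt), row SCL2: the scales, and the form of the square of the
polynomial. -/

set_option autoImplicit false

namespace Pool.Agent.Lib.MP_6bc78b_nt.GP.H19S

open Finset ArithmeticFunction
open Pool.Agent.Lib.MP_6bc78b_nt.MS Pool.Agent.Lib.MP_6bc78b_nt.GP
open Pool.Agent.Lib.MP_6bc78b_nt.GP.G7

/-! ## One scale -/

lemma gcd_four {a b c d : ℕ} (ha : a.Prime) (hb : b.Prime) (hc : c.Prime) (hd : d.Prime) :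
    (Nat.gcd (a * b) (c * d) : ℝ) ≤ 1 + (if a = c then (a : ℝ) else 0) +
      (if a = d then (a : ℝ) else 0) + (if b = c then (b : ℝ) else 0) +
      (if b = d then (b : ℝ) else 0) + (if a = c then if b = d then (a : ℝ) * b else 0 else 0) +
      (if a = d then if b = c then (a : ℝ) * b else 0 else 0) := by
  have ha0 : (0 : ℝ) < a := by exact_mod_cast ha.pos
  have hb0 : (0 : ℝ) < b := by exact_mod_cast hb.pos
  have n1 : (0 : ℝ) ≤ if a = c then (a : ℝ) else 0 := by split_ifs <;> positivity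
  have n2 : (0 : ℝ) ≤ if a = d then (a : ℝ) else 0 := by split_ifs <;> positivity
  have n3 : (0 : ℝ) ≤ if b = c then (b : ℝ) else 0 := by split_ifs <;> positivity
  have n4 : (0 : ℝ) ≤ if b = d then (b : ℝ) else 0 := by split_ifs <;> positivity
  have n5 : (0 : ℝ) ≤ if a = c then if b = d then (a : ℝ) * b else 0 else 0 := by
    split_ifs <;> positivity
  have n6 : (0 : ℝ) ≤ if a = d then if b = c then (a : ℝ) * b else 0 else 0 := by
    split_ifs <;> positivity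
  by_cases h1 : a = c
  · subst h1
    rw [Nat.gcd_mul_left]
    by_cases h2 : b = d
    · subst h2
      rw [Nat.gcd_self]
      push_cast
      simp only [if_true] at *
      linarith
    · rw [show Nat.gcd b d = 1 from (Nat.coprime_primes hb hd).2 h2, mul_one]
      simp only [if_true] at *
      linarith
  · by_cases h2 : a = d
    · subst h2
      rw [Nat.mul_comm c a, Nat.gcd_mul_left]
      by_cases h3 : b = c
      · subst h3
        rw [Nat.gcd_self]
        push_cast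
        simp only [if_true] at *
        linarith
      · rw [show Nat.gcd b c = 1 from (Nat.coprime_primes hb hc).2 h3, mul_one]
        simp only [if_true] at *
        linarith
    · have h3 : Nat.Coprime a (c * d) := Nat.Coprime.mul_right
        ((Nat.coprime_primes ha hc).2 h1) ((Nat.coprime_primes ha hd).2 h2)
      have h4 : Nat.gcd (a * b) (c * d) = Nat.gcd b (c * d) :=
        Nat.Coprime.gcd_mul_left_cancel _ h3
      rw [h4]
      by_cases h5 : b = c ∨ b = d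
      · have h6 : (Nat.gcd b (c * d) : ℝ) ≤ b := by
          exact_mod_cast Nat.le_of_dvd hb.pos (Nat.gcd_dvd_left _ _)
        rcases h5 with h5 | h5
        · rw [if_pos h5] at n3
          rw [show (if b = c then (b : ℝ) else 0) = b from if_pos h5]
          linarith
        · rw [if_pos h5] at n4
          rw [show (if b = d then (b : ℝ) else 0) = b from if_pos h5]
          linarith
      · push Not at h5
        have h6 : Nat.gcd b (c * d) = 1 := Nat.Coprime.mul_right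
          ((Nat.coprime_primes hb hc).2 h5.1) ((Nat.coprime_primes hb hd).2 h5.2)
        rw [h6, Nat.cast_one]
        linarith

lemma ker_four {a b c d : ℕ} (ha : a.Prime) (hb : b.Prime) (hc : c.Prime) (hd : d.Prime) :
    ker (a * b) (c * d) ≤ 1 / (a : ℝ) * (1 / (b : ℝ)) * (1 / (c : ℝ)) * (1 / (d : ℝ)) +
      (if a = c then 1 / (a : ℝ) * (1 / (b : ℝ)) * (1 / (d : ℝ)) else 0) +
      (if a = d then 1 / (a : ℝ) * (1 / (b : ℝ)) * (1 / (c : ℝ)) else 0) +
      (if b = c then 1 / (a : ℝ) * (1 / (b : ℝ)) * (1 / (d : ℝ)) else 0) +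
      (if b = d then 1 / (a : ℝ) * (1 / (b : ℝ)) * (1 / (c : ℝ)) else 0) +
      (if a = c then if b = d then 1 / (a : ℝ) * (1 / (b : ℝ)) else 0 else 0) +
      (if a = d then if b = c then 1 / (a : ℝ) * (1 / (b : ℝ)) else 0 else 0) := by
  have ha0 : (0 : ℝ) < a := by exact_mod_cast ha.pos
  have hb0 : (0 : ℝ) < b := by exact_mod_cast hb.pos
  have hc0 : (0 : ℝ) < c := by exact_mod_cast hc.pos
  have hd0 : (0 : ℝ) < d := by exact_mod_cast hd.pos
  have h := gcd_four ha hb hc hd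
  have hk : ker (a * b) (c * d) = (Nat.gcd (a * b) (c * d) : ℝ) *
      (1 / (a : ℝ) * (1 / (b : ℝ)) * (1 / (c : ℝ)) * (1 / (d : ℝ))) := by
    unfold ker
    push_cast
    field_simp
  rw [hk]
  refine (mul_le_mul_of_nonneg_right h (by positivity)).trans (le_of_eq ?_)
  rw [add_mul, add_mul, add_mul, add_mul, add_mul, add_mul, one_mul]
  congr 1
  congr 1
  congr 1
  congr 1
  congr 1
  congr 1
  · split_ifs with e
    · subst e; field_simp
    · ring
  · split_ifs with e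
    · subst e; field_simp
    · ring
  · split_ifs with e
    · subst e; field_simp
    · ring
  · split_ifs with e
    · subst e; field_simp
    · ring
  · split_ifs with e e'
    · subst e; subst e'; field_simp
    · ring
    · ring
  · split_ifs with e e'
    · subst e; subst e'; field_simp
    · ring
    · ring

lemma ker4_sum {A : Finset ℕ} (hA : ∀ q ∈ A, q.Prime) :
    ∑ a ∈ A, ∑ b ∈ A, ∑ c ∈ A, ∑ d ∈ A, ker (a * b) (c * d) ≤
      Wr A ^ 4 + 4 * Wr A ^ 3 + 2 * Wr A ^ 2 := by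
  have h1 : ∑ a ∈ A, ∑ b ∈ A, ∑ c ∈ A, ∑ d ∈ A, ker (a * b) (c * d) ≤
      ∑ a ∈ A, ∑ b ∈ A, ∑ c ∈ A, ∑ d ∈ A,
      (1 / (a : ℝ) * (1 / (b : ℝ)) * (1 / (c : ℝ)) * (1 / (d : ℝ)) +
      (if a = c then 1 / (a : ℝ) * (1 / (b : ℝ)) * (1 / (d : ℝ)) else 0) +
      (if a = d then 1 / (a : ℝ) * (1 / (b : ℝ)) * (1 / (c : ℝ)) else 0) +
      (if b = c then 1 / (a : ℝ) * (1 / (b : ℝ)) * (1 / (d : ℝ)) else 0) +
      (if b = d then 1 / (a : ℝ) * (1 / (b : ℝ)) * (1 / (c : ℝ)) else 0) +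
      (if a = c then if b = d then 1 / (a : ℝ) * (1 / (b : ℝ)) else 0 else 0) +
      (if a = d then if b = c then 1 / (a : ℝ) * (1 / (b : ℝ)) else 0 else 0)) :=
    Finset.sum_le_sum fun a ha => Finset.sum_le_sum fun b hb => Finset.sum_le_sum fun c hc =>
      Finset.sum_le_sum fun d hd => ker_four (hA a ha) (hA b hb) (hA c hc) (hA d hd)
  refine h1.trans (le_of_eq ?_)
  have S1 : ∀ r : ℝ, ∑ d ∈ A, r * (1 / (d : ℝ)) = r * Wr A := fun r => by
    rw [← Finset.mul_sum]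
    rfl
  have S2 : ∀ r : ℝ, ∑ a ∈ A, ∑ b ∈ A, 1 / (a : ℝ) * (1 / (b : ℝ)) * r = Wr A ^ 2 * r := by
    intro r
    calc ∑ a ∈ A, ∑ b ∈ A, 1 / (a : ℝ) * (1 / (b : ℝ)) * r
        = ∑ a ∈ A, (Wr A * r) * (1 / (a : ℝ)) := by
          refine Finset.sum_congr rfl fun a _ => ?_
          rw [← Finset.sum_mul, S1]
          ring
      _ = Wr A ^ 2 * r := by
          rw [S1]
          ring
  have t0 : ∑ a ∈ A, ∑ b ∈ A, ∑ c ∈ A, ∑ d ∈ A,
      1 / (a : ℝ) * (1 / (b : ℝ)) * (1 / (c : ℝ)) * (1 / (d : ℝ)) = Wr A ^ 2 * Wr A ^ 2 := by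
    rw [← S2]
    refine Finset.sum_congr rfl fun a _ => Finset.sum_congr rfl fun b _ => ?_
    calc ∑ c ∈ A, ∑ d ∈ A, 1 / (a : ℝ) * (1 / (b : ℝ)) * (1 / (c : ℝ)) * (1 / (d : ℝ))
        = ∑ c ∈ A, (1 / (a : ℝ) * (1 / (b : ℝ)) * Wr A) * (1 / (c : ℝ)) := by
          refine Finset.sum_congr rfl fun c _ => ?_
          rw [S1]
          ring
      _ = _ := by
          rw [S1]
          ring
  have t1 : ∑ a ∈ A, ∑ b ∈ A, ∑ c ∈ A, ∑ d ∈ A,
      (if a = c then 1 / (a : ℝ) * (1 / (b : ℝ)) * (1 / (d : ℝ)) else 0) =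
        Wr A ^ 2 * Wr A := by
    rw [← S2]
    refine Finset.sum_congr rfl fun a ha => Finset.sum_congr rfl fun b hb => ?_
    have h : ∀ c ∈ A, (∑ d ∈ A,
        (if a = c then 1 / (a : ℝ) * (1 / (b : ℝ)) * (1 / (d : ℝ)) else 0)) =
        if a = c then 1 / (a : ℝ) * (1 / (b : ℝ)) * Wr A else 0 := by
      intro c _
      split_ifs
      · exact S1 _
      · exact Finset.sum_const_zero
    rw [Finset.sum_congr rfl h, Finset.sum_ite_eq, if_pos ha]
  have t2 : ∑ a ∈ A, ∑ b ∈ A, ∑ c ∈ A, ∑ d ∈ A,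
      (if a = d then 1 / (a : ℝ) * (1 / (b : ℝ)) * (1 / (c : ℝ)) else 0) =
        Wr A ^ 2 * Wr A := by
    rw [← S2]
    refine Finset.sum_congr rfl fun a ha => Finset.sum_congr rfl fun b hb => ?_
    have h : ∀ c ∈ A, (∑ d ∈ A,
        (if a = d then 1 / (a : ℝ) * (1 / (b : ℝ)) * (1 / (c : ℝ)) else 0)) =
        1 / (a : ℝ) * (1 / (b : ℝ)) * (1 / (c : ℝ)) := by
      intro c _
      rw [Finset.sum_ite_eq, if_pos ha]
    rw [Finset.sum_congr rfl h, S1]
  have t3 : ∑ a ∈ A, ∑ b ∈ A, ∑ c ∈ A, ∑ d ∈ A,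
      (if b = c then 1 / (a : ℝ) * (1 / (b : ℝ)) * (1 / (d : ℝ)) else 0) =
        Wr A ^ 2 * Wr A := by
    rw [← S2]
    refine Finset.sum_congr rfl fun a ha => Finset.sum_congr rfl fun b hb => ?_
    have h : ∀ c ∈ A, (∑ d ∈ A,
        (if b = c then 1 / (a : ℝ) * (1 / (b : ℝ)) * (1 / (d : ℝ)) else 0)) =
        if b = c then 1 / (a : ℝ) * (1 / (b : ℝ)) * Wr A else 0 := by
      intro c _
      split_ifs
      · exact S1 _
      · exact Finset.sum_const_zero
    rw [Finset.sum_congr rfl h, Finset.sum_ite_eq, if_pos hb]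
  have t4 : ∑ a ∈ A, ∑ b ∈ A, ∑ c ∈ A, ∑ d ∈ A,
      (if b = d then 1 / (a : ℝ) * (1 / (b : ℝ)) * (1 / (c : ℝ)) else 0) =
        Wr A ^ 2 * Wr A := by
    rw [← S2]
    refine Finset.sum_congr rfl fun a ha => Finset.sum_congr rfl fun b hb => ?_
    have h : ∀ c ∈ A, (∑ d ∈ A,
        (if b = d then 1 / (a : ℝ) * (1 / (b : ℝ)) * (1 / (c : ℝ)) else 0)) =
        1 / (a : ℝ) * (1 / (b : ℝ)) * (1 / (c : ℝ)) := by
      intro c _
      rw [Finset.sum_ite_eq, if_pos hb]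
    rw [Finset.sum_congr rfl h, S1]
  have t5 : ∑ a ∈ A, ∑ b ∈ A, ∑ c ∈ A, ∑ d ∈ A,
      (if a = c then if b = d then 1 / (a : ℝ) * (1 / (b : ℝ)) else 0 else 0) =
        Wr A ^ 2 * 1 := by
    rw [← S2]
    refine Finset.sum_congr rfl fun a ha => Finset.sum_congr rfl fun b hb => ?_
    have h : ∀ c ∈ A, (∑ d ∈ A,
        (if a = c then if b = d then 1 / (a : ℝ) * (1 / (b : ℝ)) else 0 else 0)) =
        if a = c then 1 / (a : ℝ) * (1 / (b : ℝ)) * 1 else 0 := by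
      intro c _
      split_ifs
      · rw [Finset.sum_ite_eq, if_pos hb, mul_one]
      · exact Finset.sum_const_zero
    rw [Finset.sum_congr rfl h, Finset.sum_ite_eq, if_pos ha]
  have t6 : ∑ a ∈ A, ∑ b ∈ A, ∑ c ∈ A, ∑ d ∈ A,
      (if a = d then if b = c then 1 / (a : ℝ) * (1 / (b : ℝ)) else 0 else 0) =
        Wr A ^ 2 * 1 := by
    rw [← S2]
    refine Finset.sum_congr rfl fun a ha => Finset.sum_congr rfl fun b hb => ?_
    have h : ∀ c ∈ A, (∑ d ∈ A,
        (if a = d then if b = c then 1 / (a : ℝ) * (1 / (b : ℝ)) else 0 else 0)) =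
        if b = c then 1 / (a : ℝ) * (1 / (b : ℝ)) * 1 else 0 := by
      intro c _
      rw [Finset.sum_ite_eq, if_pos ha, mul_one]
    rw [Finset.sum_congr rfl h, Finset.sum_ite_eq, if_pos hb]
  simp_rw [Finset.sum_add_distrib]
  rw [t0, t1, t2, t3, t4, t5, t6]
  ring

/-! ## The product -/

/-- `∑∑ β(m) β(m') F(m m')` -/
noncomputable def E2 (N : ℕ) (s : Finset ℕ) (Q : ℕ → Finset ℕ) (F : ℕ → ℝ) : ℝ :=
  ∑ m ∈ supp N s Q, ∑ m' ∈ supp N s Q, betA s Q m * betA s Q m' * F (m * m')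

lemma E2_congr {N : ℕ} {s : Finset ℕ} {Q : ℕ → Finset ℕ} {F G : ℕ → ℝ}
    (h : ∀ m ∈ supp N s Q, ∀ m' ∈ supp N s Q, F (m * m') = G (m * m')) :
    E2 N s Q F = E2 N s Q G := by
  unfold E2
  exact Finset.sum_congr rfl fun m hm => Finset.sum_congr rfl fun m' hm' => by rw [h m hm m' hm']

lemma E2_mul (N : ℕ) (s : Finset ℕ) (Q : ℕ → Finset ℕ) (c : ℝ) (F : ℕ → ℝ) :
    E2 N s Q (fun m => c * F m) = c * E2 N s Q F := by
  unfold E2
  rw [Finset.mul_sum]
  refine Finset.sum_congr rfl fun m _ => ?_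
  rw [Finset.mul_sum]
  exact Finset.sum_congr rfl fun m' _ => by ring

lemma E2_sum (N : ℕ) (s : Finset ℕ) (Q : ℕ → Finset ℕ) (A : Finset ℕ) (F : ℕ → ℕ → ℝ) :
    E2 N s Q (fun m => ∑ a ∈ A, F a m) = ∑ a ∈ A, E2 N s Q (F a) := by
  unfold E2
  have h1 : ∀ m ∈ supp N s Q, ∑ m' ∈ supp N s Q,
      betA s Q m * betA s Q m' * ∑ a ∈ A, F a (m * m') =
      ∑ a ∈ A, ∑ m' ∈ supp N s Q, betA s Q m * betA s Q m' * F a (m * m') := by
    intro m _
    simp_rw [Finset.mul_sum]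
    exact Finset.sum_comm
  rw [Finset.sum_congr rfl h1]
  exact Finset.sum_comm

lemma E2_nonneg (N : ℕ) (s : Finset ℕ) (Q : ℕ → Finset ℕ) {F : ℕ → ℝ} (hF : ∀ m, 0 ≤ F m) :
    0 ≤ E2 N s Q F :=
  Finset.sum_nonneg fun _ _ => Finset.sum_nonneg fun _ _ =>
    mul_nonneg (mul_nonneg (betA_nonneg _ _ _) (betA_nonneg _ _ _)) (hF _)

/-- splitting off one scale -/
theorem E2_ins {N : ℕ} {s : Finset ℕ} {Q : ℕ → Finset ℕ} {k : ℕ} (h : Scls (insert k s) Q)
    (hk : k ∉ s) (hN : ∀ m, betA (insert k s) Q m ≠ 0 → m ≤ N) (F : ℕ → ℝ) :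
    E2 N (insert k s) Q F = (1 / Wr (Q k)) ^ 2 *
      ∑ a ∈ Q k, ∑ b ∈ Q k, E2 N s Q (fun m => F (a * b * m)) := by
  have h1 : E2 N (insert k s) Q F = ∑ m ∈ supp N (insert k s) Q, betA (insert k s) Q m •
      ∑ m' ∈ supp N (insert k s) Q, betA (insert k s) Q m' • F (m * m') := by
    unfold E2
    refine Finset.sum_congr rfl fun m _ => ?_
    rw [smul_eq_mul, Finset.mul_sum]
    refine Finset.sum_congr rfl fun m' _ => ?_
    rw [smul_eq_mul]
    ring
  have h2 : ∀ m, ∑ m' ∈ supp N (insert k s) Q, betA (insert k s) Q m' • F (m * m') =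
      (1 / Wr (Q k)) • ∑ b ∈ Q k, ∑ m' ∈ supp N s Q, betA s Q m' • F (m * (b * m')) :=
    fun m => fac h hk hN (fun m' => F (m * m'))
  rw [h1]
  simp_rw [h2]
  rw [fac h hk hN]
  rw [smul_eq_mul, sq, mul_assoc]
  congr 1
  rw [Finset.mul_sum]
  refine Finset.sum_congr rfl fun a _ => ?_
  unfold E2
  calc ∑ m ∈ supp N s Q, betA s Q m • (1 / Wr (Q k)) • ∑ b ∈ Q k, ∑ m' ∈ supp N s Q,
        betA s Q m' • F (a * m * (b * m'))
      = ∑ m ∈ supp N s Q, ∑ b ∈ Q k, 1 / Wr (Q k) * ∑ m' ∈ supp N s Q,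
        betA s Q m * betA s Q m' * F (a * b * (m * m')) := by
        refine Finset.sum_congr rfl fun m _ => ?_
        rw [smul_eq_mul, smul_eq_mul, Finset.mul_sum, Finset.mul_sum]
        refine Finset.sum_congr rfl fun b _ => ?_
        rw [Finset.mul_sum, Finset.mul_sum, Finset.mul_sum]
        refine Finset.sum_congr rfl fun m' _ => ?_
        rw [smul_eq_mul, show a * m * (b * m') = a * b * (m * m') by ring]
        ring
    _ = 1 / Wr (Q k) * ∑ b ∈ Q k, ∑ m ∈ supp N s Q, ∑ m' ∈ supp N s Q,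
        betA s Q m * betA s Q m' * F (a * b * (m * m')) := by
        rw [Finset.sum_comm, Finset.mul_sum]
        refine Finset.sum_congr rfl fun b _ => ?_
        rw [Finset.mul_sum]

/-- the fourfold sum -/
theorem sum_ker4 {N : ℕ} (hN1 : 1 ≤ N) {s : Finset ℕ} {Q : ℕ → Finset ℕ} (h : Scls s Q)
    (hW : ∀ k ∈ s, 1 ≤ Wr (Q k)) (hN : ∀ t ⊆ s, ∀ m, betA t Q m ≠ 0 → m ≤ N) :
    E2 N s Q (fun M => E2 N s Q (fun M' => ker M M')) ≤ ∏ k ∈ s, (1 + 6 * (1 / Wr (Q k))) := by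
  induction s using Finset.induction_on with
  | empty =>
    unfold E2
    rw [supp_empty hN1]
    simp [betA, ker]
  | insert k s hk ih =>
    have h' := h.of_insert
    have hWk := hW k (Finset.mem_insert_self _ _)
    have hpr := h.pr k (Finset.mem_insert_self _ _)
    have hNs := hN _ (Finset.Subset.refl _)
    have ih' := ih h' (fun j hj => hW j (Finset.mem_insert_of_mem hj))
      (fun t ht => hN t (ht.trans (Finset.subset_insert _ _)))
    have hcop : ∀ q ∈ Q k, ∀ m ∈ supp N s Q, Nat.Coprime q m := by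
      intro q hq m hm
      rw [mem_supp] at hm
      rw [Nat.Prime.coprime_iff_not_dvd (hpr q hq)]
      refine betA_cop h' q (hpr q hq) (fun j hj hqj => ?_) m hm.2
      have h4 := h.dj k (Finset.mem_insert_self _ _) j (Finset.mem_insert_of_mem hj)
        (fun e => hk (e ▸ hj))
      exact Finset.disjoint_left.1 h4 hq hqj
    set W := Wr (Q k) with hWdef
    set G := E2 N s Q (fun M => E2 N s Q (fun M' => ker M M')) with hG
    set P := ∏ k ∈ s, (1 + 6 * (1 / Wr (Q k))) with hP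
    have hG0 : 0 ≤ G := E2_nonneg _ _ _ fun M => E2_nonneg _ _ _ fun M' => by
      unfold ker
      positivity
    have key : E2 N (insert k s) Q (fun M => E2 N (insert k s) Q (fun M' => ker M M')) =
        (1 / W) ^ 4 * ((∑ a ∈ Q k, ∑ b ∈ Q k, ∑ c ∈ Q k, ∑ d ∈ Q k, ker (a * b) (c * d)) * G) := by
      have e1 : ∀ M, E2 N (insert k s) Q (fun M' => ker M M') =
          (1 / W) ^ 2 * ∑ c ∈ Q k, ∑ d ∈ Q k, E2 N s Q (fun M' => ker M (c * d * M')) :=
        fun M => E2_ins h hk hNs (fun M' => ker M M')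
      simp_rw [e1]
      rw [E2_ins h hk hNs]
      have e2 : ∀ a ∈ Q k, ∀ b ∈ Q k, E2 N s Q (fun M => (1 / W) ^ 2 *
          ∑ c ∈ Q k, ∑ d ∈ Q k, E2 N s Q (fun M' => ker (a * b * M) (c * d * M'))) =
          (1 / W) ^ 2 * ((∑ c ∈ Q k, ∑ d ∈ Q k, ker (a * b) (c * d)) * G) := by
        intro a ha b hb
        rw [E2_mul]
        congr 1
        rw [E2_sum, Finset.sum_mul]
        refine Finset.sum_congr rfl fun c hc => ?_
        rw [E2_sum, Finset.sum_mul]
        refine Finset.sum_congr rfl fun d hd => ?_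
        rw [hG, ← E2_mul]
        refine E2_congr fun m1 hm1 m2 hm2 => ?_
        rw [← E2_mul]
        refine E2_congr fun m3 hm3 m4 hm4 => ?_
        refine ker_mul _ _ _ _ ?_ ?_ ?_
        · exact Nat.Coprime.mul_left
            (Nat.Coprime.mul_right (hcop a ha m3 hm3) (hcop a ha m4 hm4))
            (Nat.Coprime.mul_right (hcop b hb m3 hm3) (hcop b hb m4 hm4))
        · exact Nat.Coprime.mul_left
            (Nat.Coprime.mul_right (hcop c hc m1 hm1) (hcop c hc m2 hm2))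
            (Nat.Coprime.mul_right (hcop d hd m1 hm1) (hcop d hd m2 hm2))
        · exact Nat.Coprime.mul_left
            (Nat.Coprime.mul_right (hcop c hc m3 hm3) (hcop c hc m4 hm4))
            (Nat.Coprime.mul_right (hcop d hd m3 hm3) (hcop d hd m4 hm4))
      rw [Finset.sum_congr rfl fun a ha => Finset.sum_congr rfl fun b hb => e2 a ha b hb]
      simp_rw [← Finset.mul_sum, ← Finset.sum_mul]
      ring
    rw [key, Finset.prod_insert hk]
    have h2 := ker4_sum hpr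
    rw [← hWdef] at h2
    have hW0 : 0 < W := by linarith
    have h3 : (∑ a ∈ Q k, ∑ b ∈ Q k, ∑ c ∈ Q k, ∑ d ∈ Q k, ker (a * b) (c * d)) * G ≤
        (W ^ 4 + 4 * W ^ 3 + 2 * W ^ 2) * P := mul_le_mul h2 ih' hG0 (by positivity)
    have hP0 : 0 ≤ P := hG0.trans ih'
    calc (1 / W) ^ 4 * ((∑ a ∈ Q k, ∑ b ∈ Q k, ∑ c ∈ Q k, ∑ d ∈ Q k, ker (a * b) (c * d)) * G)
        ≤ (1 / W) ^ 4 * ((W ^ 4 + 4 * W ^ 3 + 2 * W ^ 2) * P) :=
          mul_le_mul_of_nonneg_left h3 (by positivity)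
      _ = (1 + 4 * (1 / W) + 2 * (1 / W) * (1 / W)) * P := by
          field_simp
      _ ≤ (1 + 6 * (1 / W)) * P := by
          refine mul_le_mul_of_nonneg_right ?_ hP0
          have h5 : 1 / W ≤ 1 := by
            rw [div_le_one hW0]
            exact hWk
          have h6 : 0 < 1 / W := by positivity
          nlinarith

/-! ## The square of the polynomial -/

/-- the products of two members of the support -/
noncomputable def supp2 (N : ℕ) (s : Finset ℕ) (Q : ℕ → Finset ℕ) : Finset ℕ :=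
  (supp N s Q ×ˢ supp N s Q).image fun p => p.1 * p.2

/-- the coefficients of the square -/
noncomputable def bet2 (N : ℕ) (s : Finset ℕ) (Q : ℕ → Finset ℕ) (n : ℕ) : ℝ :=
  ∑ p ∈ (supp N s Q ×ˢ supp N s Q).filter (fun p => p.1 * p.2 = n),
    betA s Q p.1 * betA s Q p.2

lemma bet2_nonneg (N : ℕ) (s : Finset ℕ) (Q : ℕ → Finset ℕ) (n : ℕ) : 0 ≤ bet2 N s Q n := by
  unfold bet2
  exact Finset.sum_nonneg fun p _ => mul_nonneg (betA_nonneg _ _ _) (betA_nonneg _ _ _)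

lemma supp2_le {N : ℕ} {s : Finset ℕ} {Q : ℕ → Finset ℕ} {n : ℕ} (hn : n ∈ supp2 N s Q) :
    1 ≤ n ∧ n ≤ N * N := by
  unfold supp2 at hn
  rw [Finset.mem_image] at hn
  obtain ⟨p, hp, rfl⟩ := hn
  rw [Finset.mem_product, mem_supp, mem_supp] at hp
  exact ⟨Nat.mul_pos hp.1.1.1 hp.2.1.1, Nat.mul_le_mul hp.1.1.2 hp.2.1.2⟩

lemma bet2_sum {V : Type*} [AddCommGroup V] [Module ℝ V] (N : ℕ) (s : Finset ℕ)
    (Q : ℕ → Finset ℕ) (F : ℕ → V) :
    ∑ n ∈ supp2 N s Q, bet2 N s Q n • F n =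
      ∑ m ∈ supp N s Q, ∑ m' ∈ supp N s Q, (betA s Q m * betA s Q m') • F (m * m') := by
  classical
  rw [← Finset.sum_product (f := fun p : ℕ × ℕ => (betA s Q p.1 * betA s Q p.2) • F (p.1 * p.2))]
  have hmaps : ∀ p ∈ supp N s Q ×ˢ supp N s Q, p.1 * p.2 ∈ supp2 N s Q := by
    intro p hp
    unfold supp2
    exact Finset.mem_image_of_mem _ hp
  rw [← Finset.sum_fiberwise_of_maps_to (g := fun p : ℕ × ℕ => p.1 * p.2) hmaps]
  refine Finset.sum_congr rfl fun n _ => ?_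
  unfold bet2
  rw [Finset.sum_smul]
  refine Finset.sum_congr rfl fun p hp => ?_
  rw [Finset.mem_filter] at hp
  rw [hp.2]

open G11 in
lemma Rf_bet2 {N : ℕ} (s : Finset ℕ) (Q : ℕ → Finset ℕ) :
    Rf (supp2 N s Q) (fun n => ((bet2 N s Q n : ℝ) : ℂ)) =
      E2 N s Q (fun M => E2 N s Q (fun M' => ker M M')) := by
  unfold Rf
  have h1 : ∀ m ∈ supp2 N s Q, ∑ m' ∈ supp2 N s Q, ‖((bet2 N s Q m : ℝ) : ℂ)‖ *
      ‖((bet2 N s Q m' : ℝ) : ℂ)‖ / (Nat.lcm m m' : ℝ) =
      bet2 N s Q m • E2 N s Q (fun M' => ker m M') := by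
    intro m hm
    have h2 := bet2_sum N s Q (fun M' => ker m M')
    rw [show E2 N s Q (fun M' => ker m M') = ∑ n ∈ supp2 N s Q, bet2 N s Q n • ker m n from ?_]
    · rw [Finset.smul_sum]
      refine Finset.sum_congr rfl fun m' hm' => ?_
      rw [Complex.norm_real, Complex.norm_real, Real.norm_of_nonneg (bet2_nonneg _ _ _ _),
        Real.norm_of_nonneg (bet2_nonneg _ _ _ _), smul_eq_mul, smul_eq_mul,
        ker_eq m m' (by have := (supp2_le hm).1; omega) (by have := (supp2_le hm').1; omega)]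
      ring
    · rw [h2]
      rfl
  rw [Finset.sum_congr rfl h1, bet2_sum]
  rfl

open G10 G11 in
lemma cA_bet2 {N : ℕ} (s : Finset ℕ) (Q : ℕ → Finset ℕ) (z : ℂ) :
    cA (supp2 N s Q) (fun n => ((bet2 N s Q n : ℝ) : ℂ)) z = pB (supp N s Q) (betA s Q) z ^ 2 := by
  unfold cA pB
  have h := bet2_sum N s Q (fun n : ℕ => ((n : ℂ)) ^ (-z))
  simp only [Complex.real_smul] at h
  rw [h, sq, Finset.sum_mul_sum]
  refine Finset.sum_congr rfl fun m _ => Finset.sum_congr rfl fun m' _ => ?_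
  rw [Nat.cast_mul, Complex.natCast_mul_natCast_cpow]
  push_cast
  ring

open G10 G11 in
/-- **The general construction.** -/
theorem core {w : ℝ} {K M : ℕ} (hKM : K + 1 ≤ M) {Q : ℕ → Finset ℕ} (hQ : ∀ k ≤ K, Q k = Qk w k)
    (hS : ∀ t : Finset ℕ, Scls t Q) (hW : ∀ k, 1 ≤ Wr (Q k)) {X : ℕ → ℝ} (hX0 : ∀ k, 0 ≤ X k)
    (hX : ∀ k, ∀ q ∈ Q k, Real.log q ≤ X k) {D : ℝ} (hD : ∑ k ∈ Finset.range M, X k ≤ D)
    {ν : ℝ} (hν0 : 0 < ν) (hν : ∑ k ∈ Finset.range M, 1 / Wr (Q k) ≤ Real.log (1 + ν))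
    (h2 : 6 * ∑ k ∈ Finset.range M, 1 / Wr (Q k) ≤ Real.log 2) {e : ℝ}
    (he : ∏ k ∈ Finset.range M, 1 / Wr (Q k) ≤ e) (heν : e ≤ ν) :
    ∃ (S : Finset ℕ) (β : ℕ → ℝ) (S' : ℕ → Finset ℕ) (β' : ℕ → ℕ → ℝ) (S2 : Finset ℕ)
      (β2 : ℕ → ℂ), Scl w K S β S' β' (Real.exp D) ν ∧ ∑ m ∈ S, β m ^ 2 / m ≤ e ∧
      (∀ m ∈ S2, 1 ≤ m ∧ (m : ℝ) ≤ Real.exp (2 * D)) ∧
      (∀ s : ℂ, cA S2 β2 s = pB S β s ^ 2) ∧ Rf S2 β2 ≤ 2 := by
  have hD0 : 0 ≤ D := (Finset.sum_nonneg fun k _ => hX0 k).trans hD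
  have hW0 : ∀ k, 0 ≤ 1 / Wr (Q k) := fun k => by
    have := hW k
    positivity
  have hprod : ∀ t ⊆ Finset.range M, ∏ k ∈ t, (1 + 1 / Wr (Q k)) ≤ 1 + ν := by
    intro t ht
    have h2 : ∏ k ∈ t, (1 + 1 / Wr (Q k)) ≤ Real.exp (∑ k ∈ t, 1 / Wr (Q k)) := by
      rw [Real.exp_sum]
      refine Finset.prod_le_prod (fun k _ => ?_) fun k _ => ?_
      · have := hW0 k
        positivity
      · have := Real.add_one_le_exp (1 / Wr (Q k))
        linarith
    have h3 : ∑ k ∈ t, 1 / Wr (Q k) ≤ Real.log (1 + ν) :=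
      (Finset.sum_le_sum_of_subset_of_nonneg ht fun k _ _ => hW0 k).trans hν
    calc _ ≤ _ := h2
      _ ≤ Real.exp (Real.log (1 + ν)) := Real.exp_le_exp.2 h3
      _ = 1 + ν := Real.exp_log (by linarith)
  have hprod6 : ∏ k ∈ Finset.range M, (1 + 6 * (1 / Wr (Q k))) ≤ 2 := by
    have h3 : ∏ k ∈ Finset.range M, (1 + 6 * (1 / Wr (Q k))) ≤
        Real.exp (∑ k ∈ Finset.range M, 6 * (1 / Wr (Q k))) := by
      rw [Real.exp_sum]
      refine Finset.prod_le_prod (fun k _ => ?_) fun k _ => ?_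
      · have := hW0 k
        positivity
      · have := Real.add_one_le_exp (6 * (1 / Wr (Q k)))
        linarith
    rw [← Finset.mul_sum] at h3
    calc _ ≤ _ := h3
      _ ≤ Real.exp (Real.log 2) := Real.exp_le_exp.2 h2
      _ = 2 := Real.exp_log (by norm_num)
  set Y : ℝ := Real.exp D with hY
  have hY1 : 1 ≤ Y := Real.one_le_exp hD0
  set N : ℕ := ⌊Y⌋₊ with hNdef
  have hN1 : 1 ≤ N := Nat.le_floor (by push_cast; exact hY1)
  have hNX : (N : ℝ) ≤ Y := Nat.floor_le (by linarith)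
  have hN : ∀ t ⊆ Finset.range M, ∀ m, betA t Q m ≠ 0 → m ≤ N := by
    intro t ht m hm
    obtain ⟨hm0, h1⟩ := betA_supp (hS t) X (fun k _ q hq => hX k q hq) m hm
    have h2 : Real.log m ≤ D := h1.trans
      ((Finset.sum_le_sum_of_subset_of_nonneg ht fun k _ _ => hX0 k).trans hD)
    have hm0' : (0 : ℝ) < m := by exact_mod_cast Nat.pos_of_ne_zero hm0
    exact Nat.le_floor ((Real.log_le_iff_le_exp hm0').1 h2)
  have hmol := mol_of hN1 hNX (hS (Finset.range M)) hN (hprod _ (Finset.Subset.refl _))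
  have hle : ∀ m, betA (Finset.range M) Q m ≤ e := fun m => (betA_le (hS _) m).trans he
  have hsq : ∑ m ∈ supp N (Finset.range M) Q, betA (Finset.range M) Q m ^ 2 / m ≤ e := by
    calc ∑ m ∈ supp N (Finset.range M) Q, betA (Finset.range M) Q m ^ 2 / m
        ≤ ∑ m ∈ supp N (Finset.range M) Q, e * (betA (Finset.range M) Q m / m) := by
          refine Finset.sum_le_sum fun m _ => ?_
          rw [sq, mul_div_assoc]
          exact mul_le_mul_of_nonneg_right (hle m)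
            (div_nonneg (betA_nonneg _ _ _) (Nat.cast_nonneg _))
      _ = _ := by rw [← Finset.mul_sum, hmol.sum_one, mul_one]
  refine ⟨supp N (Finset.range M) Q, betA (Finset.range M) Q,
    fun k => supp N ((Finset.range M).erase k) Q, fun k => betA ((Finset.range M).erase k) Q,
    supp2 N (Finset.range M) Q, fun n => ((bet2 N (Finset.range M) Q n : ℝ) : ℂ),
    ⟨hmol, ?_, ?_, ?_, hsq.trans heν⟩, hsq, ?_, fun s => cA_bet2 _ _ s, ?_⟩
  · intro k _
    exact mol_of hN1 hNX (hS _) (fun t ht => hN t (ht.trans (Finset.erase_subset _ _)))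
      (hprod _ (Finset.erase_subset _ _))
  · intro k hk
    have := hW k
    rw [hQ k hk] at this
    exact this
  · intro k hk f
    have hkm : k ∈ Finset.range M := Finset.mem_range.2 (by omega)
    have hins : insert k ((Finset.range M).erase k) = Finset.range M := Finset.insert_erase hkm
    have h1 := fac (V := ℂ) (N := N) (s := (Finset.range M).erase k) (Q := Q)
      (k := k) (by rw [hins]; exact hS _) (Finset.notMem_erase _ _)
      (by rw [hins]; exact hN _ (Finset.Subset.refl _)) f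
    rw [hins] at h1
    simp only [Complex.real_smul] at h1
    rw [h1, hQ k hk, show Wk w k = Wr (Qk w k) from rfl]
    push_cast
    rfl
  · intro m hm
    obtain ⟨h3, h4⟩ := supp2_le hm
    refine ⟨h3, ?_⟩
    have h5 : (m : ℝ) ≤ (N : ℝ) * N := by exact_mod_cast h4
    calc (m : ℝ) ≤ (N : ℝ) * N := h5
      _ ≤ Y * Y := mul_le_mul hNX hNX (Nat.cast_nonneg _) (by linarith)
      _ = Real.exp (2 * D) := by rw [hY, ← Real.exp_add, two_mul]
  · rw [Rf_bet2]
    exact (sum_ker4 hN1 (hS _) (fun k _ => hW k) hN).trans hprod6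

end Pool.Agent.Lib.MP_6bc78b_nt.GP.H19S
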