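import Pool.Agent.Lib.MP_6bc78b_nt.GP.H19.Sclb

/-! Project GP10 (MP_6bc78b_nt), row SCLT, general part: the scales of `Sclb` together with `J`
more blocks of primes above the last scale, so that `∑ β(m)²/m` is very small. -/

set_option autoImplicit false

namespace Pool.Agent.Lib.MP_6bc78b_nt.GP.H19S

open Finset ArithmeticFunction
open Pool.Agent.Lib.MP_6bc78b_nt.MS Pool.Agent.Lib.MP_6bc78b_nt.GP
open Pool.Agent.Lib.MP_6bc78b_nt.GP.G7

/-! ## Parameters -/

/-- the number `J` of blocks and their length `n` -/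
theorem par {c ν : ℝ} (hc : 0 < c) (hν : 0 < ν) : ∃ l0 : ℝ, 1 ≤ l0 ∧ ∀ l : ℝ, l0 ≤ l →
    ∃ J n : ℕ, 2 ≤ n ∧ 4 * (1200 * l) ^ 4 * (n : ℝ) ^ J ≤ Real.exp (l / 2) ∧
      1 ≤ c * Real.log n ∧ J / (c * Real.log n) ≤ ν ∧
      6 * Real.sqrt (l * Real.log l) ≤ J * Real.log (c * Real.log n) := by
  obtain ⟨h, hh⟩ : ∃ h : ℝ, Real.sqrt (c * ν / 8) = h := ⟨_, rfl⟩
  have hh0 : 0 < h := by
    rw [← hh]
    exact Real.sqrt_pos.2 (by positivity)
  have hh2 : h ^ 2 = c * ν / 8 := by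
    rw [← hh]
    exact Real.sq_sqrt (by positivity)
  have e1 : ∀ᶠ l : ℝ in Filter.atTop,
      2 / h + (8 * h + 8 * h / c) + (8 * h / c) ^ 2 ≤ Real.sqrt l :=
    Real.tendsto_sqrt_atTop.eventually_ge_atTop _
  have e2 : ∀ᶠ l : ℝ in Filter.atTop, 1 + (48 / h) ^ 2 ≤ Real.log l :=
    Real.tendsto_log_atTop.eventually_ge_atTop _
  have e3 : ∀ᶠ l : ℝ in Filter.atTop, 4 * 1200 ^ 4 * (4 ^ 5 * 120) ≤ l :=
    Filter.eventually_ge_atTop _
  obtain ⟨l0, hl0⟩ := Filter.eventually_atTop.1 (e1.and (e2.and e3))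
  refine ⟨max 1 l0, le_max_left _ _, fun l hl => ?_⟩
  obtain ⟨h1, h2, h3⟩ := hl0 l ((le_max_right _ _).trans hl)
  have hl1 : 1 ≤ l := (le_max_left _ _).trans hl
  have hl0' : 0 < l := by linarith
  obtain ⟨s, hs⟩ : ∃ s : ℝ, Real.sqrt l = s := ⟨_, rfl⟩
  rw [hs] at h1
  have p1 : 0 < 2 / h := by positivity
  have p2 : 0 < 8 * h / c := by positivity
  have p3 : 0 < (8 * h / c) ^ 2 := by positivity
  have hs1 : 2 / h ≤ s := by linarith
  have hs2 : 8 * h ≤ s := by linarith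
  have hs3 : 8 * h / c ≤ s := by linarith
  have hs4 : (8 * h / c) ^ 2 ≤ s := by linarith
  have hs0 : 0 < s := by linarith
  have hsl : s ^ 2 = l := by
    rw [← hs]
    exact Real.sq_sqrt hl0'.le
  have hhs : 2 ≤ h * s := by
    rw [div_le_iff₀ hh0] at hs1
    linarith
  obtain ⟨J, hJ⟩ : ∃ J : ℕ, ⌊h * s⌋₊ = J := ⟨_, rfl⟩
  have hJ1 : (J : ℝ) ≤ h * s := by
    rw [← hJ]
    exact Nat.floor_le (by positivity)
  have hJ2 : h * s / 2 ≤ J := by
    have := Nat.lt_floor_add_one (h * s)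
    rw [hJ] at this
    linarith
  have hJ0 : 0 < (J : ℝ) := by linarith
  obtain ⟨x, hx⟩ : ∃ x : ℝ, l / (4 * J) = x := ⟨_, rfl⟩
  have hx1 : s / (4 * h) ≤ x := by
    rw [← hx, div_le_div_iff₀ (by positivity) (by positivity), ← hsl]
    nlinarith [mul_le_mul_of_nonneg_left hJ1 hs0.le]
  have hx2 : 2 ≤ x := by
    refine le_trans ?_ hx1
    rw [le_div_iff₀ (by positivity)]
    linarith
  have hex : 2 < Real.exp x := by
    have := Real.add_one_le_exp x
    linarith
  obtain ⟨n, hn⟩ : ∃ n : ℕ, ⌊Real.exp x⌋₊ = n := ⟨_, rfl⟩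
  have hn1 : (n : ℝ) ≤ Real.exp x := by
    rw [← hn]
    exact Nat.floor_le (Real.exp_pos _).le
  have hn2 : Real.exp x / 2 ≤ n := by
    have := Nat.lt_floor_add_one (Real.exp x)
    rw [hn] at this
    linarith
  have hn3 : 2 ≤ n := by
    rw [← hn]
    exact Nat.le_floor (by push_cast; linarith)
  have hn0 : (0 : ℝ) < n := by
    have : 0 < n := by omega
    exact_mod_cast this
  have hlog : x / 2 ≤ Real.log n := by
    have h7 := Real.log_le_log (by positivity) hn2
    rw [Real.log_div (Real.exp_pos _).ne' (by norm_num), Real.log_exp] at h7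
    have h9 := Real.log_two_lt_d9
    linarith
  -- `c log n ≥ c s / (8 h)`
  have hV : c * s / (8 * h) ≤ c * Real.log n := by
    have : c * s / (8 * h) = c * (s / (4 * h) / 2) := by
      field_simp
      ring
    rw [this]
    exact mul_le_mul_of_nonneg_left (by linarith) hc.le
  have hV1 : 1 ≤ c * s / (8 * h) := by
    rw [div_le_iff₀ hc] at hs3
    rw [le_div_iff₀ (by positivity)]
    linarith
  refine ⟨J, n, hn3, ?_, hV1.trans hV, ?_, ?_⟩
  · have h5 : (n : ℝ) ^ J ≤ Real.exp (l / 4) := by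
      calc (n : ℝ) ^ J ≤ Real.exp x ^ J := pow_le_pow_left₀ hn0.le hn1 J
        _ = Real.exp (l / 4) := by
          rw [← Real.exp_nat_mul, ← hx]
          congr 1
          field_simp
    have h6 : 4 * (1200 * l) ^ 4 ≤ Real.exp (l / 4) := by
      have h7 := Real.pow_div_factorial_le_exp (l / 4) (by positivity) 5
      refine le_trans ?_ h7
      have h8 : (Nat.factorial 5 : ℝ) = 120 := by norm_num [Nat.factorial]
      rw [h8, le_div_iff₀ (by norm_num)]
      have h9 : 4 * 1200 ^ 4 * (4 ^ 5 * 120) * l ^ 4 ≤ l * l ^ 4 :=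
        mul_le_mul_of_nonneg_right h3 (by positivity)
      have h10 : (l / 4) ^ 5 = l * l ^ 4 / 4 ^ 5 := by ring
      rw [h10, le_div_iff₀ (by norm_num)]
      calc 4 * (1200 * l) ^ 4 * 120 * 4 ^ 5 = 4 * 1200 ^ 4 * (4 ^ 5 * 120) * l ^ 4 := by ring
        _ ≤ _ := h9
    calc 4 * (1200 * l) ^ 4 * (n : ℝ) ^ J ≤ Real.exp (l / 4) * Real.exp (l / 4) :=
          mul_le_mul h6 h5 (by positivity) (Real.exp_pos _).le
      _ = Real.exp (l / 2) := by
          rw [← Real.exp_add]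
          congr 1
          ring
  · have hVp : 0 < c * s / (8 * h) := by positivity
    have hVq : 0 < c * Real.log n := hVp.trans_le hV
    rw [div_le_iff₀ hVq]
    have h6 : h * s = ν * (c * s / (8 * h)) := by
      have : ν * (c * s / (8 * h)) = (c * ν / 8) * s / h := by
        field_simp
      rw [this, ← hh2]
      field_simp
    calc (J : ℝ) ≤ h * s := hJ1
      _ = ν * (c * s / (8 * h)) := h6
      _ ≤ ν * (c * Real.log n) := mul_le_mul_of_nonneg_left hV hν.le
  · have h4 : Real.sqrt s ≤ c * s / (8 * h) := by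
      have h5 : 8 * h / c ≤ Real.sqrt s := by
        rw [← Real.sqrt_sq p2.le]
        exact Real.sqrt_le_sqrt hs4
      have h6 : Real.sqrt s * Real.sqrt s = s := Real.mul_self_sqrt hs0.le
      have h7 : 8 * h ≤ c * Real.sqrt s := by
        rw [div_le_iff₀ hc] at h5
        linarith
      rw [le_div_iff₀ (by positivity)]
      calc Real.sqrt s * (8 * h) ≤ Real.sqrt s * (c * Real.sqrt s) :=
            mul_le_mul_of_nonneg_left h7 (Real.sqrt_nonneg _)
        _ = c * (Real.sqrt s * Real.sqrt s) := by ring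
        _ = c * s := by rw [h6]
    have h8 : Real.log l / 4 ≤ Real.log (c * Real.log n) := by
      have h9 : Real.log (Real.sqrt s) = Real.log l / 4 := by
        rw [Real.log_sqrt hs0.le, ← hsl, Real.log_pow]
        push_cast
        ring
      rw [← h9]
      exact Real.log_le_log (Real.sqrt_pos.2 hs0) (h4.trans hV)
    have h10 : (48 / h) ^ 2 ≤ Real.log l := by linarith
    have h11 : 0 < Real.log l := lt_of_lt_of_le (by positivity) h10
    have h12 : 48 / h ≤ Real.sqrt (Real.log l) := by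
      rw [← Real.sqrt_sq (by positivity : (0 : ℝ) ≤ 48 / h)]
      exact Real.sqrt_le_sqrt h10
    have h13 : 48 ≤ h * Real.sqrt (Real.log l) := by
      rw [div_le_iff₀ hh0] at h12
      linarith
    have h14 : Real.sqrt (Real.log l) * Real.sqrt (Real.log l) = Real.log l :=
      Real.mul_self_sqrt h11.le
    rw [Real.sqrt_mul hl0'.le, hs]
    calc 6 * (s * Real.sqrt (Real.log l)) = 48 * (s * Real.sqrt (Real.log l)) / 8 := by ring
      _ ≤ h * Real.sqrt (Real.log l) * (s * Real.sqrt (Real.log l)) / 8 := by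
          have := mul_le_mul_of_nonneg_right h13
            (by positivity : 0 ≤ s * Real.sqrt (Real.log l))
          linarith
      _ = h * s * (Real.sqrt (Real.log l) * Real.sqrt (Real.log l)) / 8 := by ring
      _ = (h * s / 2) * (Real.log l / 4) := by
          rw [h14]
          ring
      _ ≤ J * Real.log (c * Real.log n) :=
          mul_le_mul hJ2 h8 (by positivity) hJ0.le

/-! ## The blocks -/

open G10 in
/-- the lower ends of the blocks -/
noncomputable def lo (w : ℝ) (K n k : ℕ) : ℝ :=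
  if k ≤ K then pk w k else pk w (K + 1) * (n : ℝ) ^ (k - (K + 1))

/-- the blocks -/
noncomputable def Qx (w : ℝ) (K n k : ℕ) : Finset ℕ :=
  qs (Real.exp (lo w K n k)) (Real.exp (lo w K n (k + 1)))

open G10 in
lemma lo_le {w : ℝ} {K n k : ℕ} (h : k ≤ K + 1) : lo w K n k = pk w k := by
  unfold lo
  split_ifs with h1
  · rfl
  · have : k = K + 1 := by omega
    subst this
    rw [Nat.sub_self, pow_zero, mul_one]

open G10 in
lemma lo_add (w : ℝ) (K n j : ℕ) : lo w K n (K + 1 + j) = pk w (K + 1) * (n : ℝ) ^ j := by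
  unfold lo
  rw [if_neg (by omega), Nat.add_sub_cancel_left]

open G10 in
lemma lo_pos (w : ℝ) (K : ℕ) {n : ℕ} (hn : 1 ≤ n) (k : ℕ) : 0 < lo w K n k := by
  unfold lo
  have h1 : (0 : ℝ) < n := by exact_mod_cast hn
  split_ifs
  · exact pk_pos w k
  · exact mul_pos (pk_pos w _) (by positivity)

open G10 in
lemma lo_mono {w : ℝ} (hw : 0 ≤ w) (K : ℕ) {n : ℕ} (hn : 1 ≤ n) : Monotone (lo w K n) := by
  refine monotone_nat_of_le_succ fun k => ?_
  by_cases h : k ≤ K
  · rw [lo_le (by omega), lo_le (by omega)]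
    exact pk_mono hw (Nat.le_succ k)
  · obtain ⟨j, rfl⟩ : ∃ j, k = K + 1 + j := ⟨k - (K + 1), by omega⟩
    have h2 : K + 1 + j + 1 = K + 1 + (j + 1) := by omega
    rw [h2, lo_add, lo_add]
    have h1 : (1 : ℝ) ≤ n := by exact_mod_cast hn
    exact mul_le_mul_of_nonneg_left (pow_le_pow_right₀ h1 (Nat.le_succ j)) (pk_pos w _).le

open G10 in
lemma Qx_eq {w : ℝ} {K n k : ℕ} (h : k ≤ K) : Qx w K n k = Qk w k := by
  unfold Qx Qk
  rw [lo_le (by omega), lo_le (by omega)]

lemma mem_Qx {w : ℝ} {K n k q : ℕ} : q ∈ Qx w K n k ↔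
    (q : ℝ) ≤ Real.exp (lo w K n (k + 1)) ∧ q.Prime ∧ Real.exp (lo w K n k) < q :=
  mem_qs (Real.exp_pos _).le

lemma Qx_disj {w : ℝ} (hw : 0 ≤ w) {K n : ℕ} (hn : 1 ≤ n) {j k : ℕ} (h : j < k) :
    Disjoint (Qx w K n j) (Qx w K n k) := by
  rw [Finset.disjoint_left]
  intro q h1 h2
  rw [mem_Qx] at h1 h2
  have h3 := Real.exp_le_exp.2 (lo_mono hw K hn (Nat.succ_le_of_lt h))
  have h4 : (q : ℝ) < q := (h1.1.trans h3).trans_lt h2.2.2
  exact lt_irrefl _ h4

open G10 in
lemma Wx_ge {c P0 : ℝ} (hM : ∀ (P : ℝ) (K : ℕ), P0 ≤ P → 1 ≤ K →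
    c * Real.log K ≤ Wq P (P ^ K)) {w : ℝ} (hw : 0 ≤ w) (hwP : P0 ≤ w) (K : ℕ) {n : ℕ}
    (hn : 1 ≤ n) (j : ℕ) : c * Real.log n ≤ Wr (Qx w K n (K + 1 + j)) := by
  have h1 : (1 : ℝ) ≤ n := by exact_mod_cast hn
  have h2 : w ≤ pk w (K + 1) * (n : ℝ) ^ j := by
    have h3 : w * 2 ^ (K + 1) + 1 ≤ pk w (K + 1) := Real.add_one_le_exp _
    have h4 : (1 : ℝ) ≤ 2 ^ (K + 1) := one_le_pow₀ (by norm_num)
    have h5 : (1 : ℝ) ≤ (n : ℝ) ^ j := one_le_pow₀ h1
    have h6 := pk_pos w (K + 1)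
    nlinarith
  have hP : P0 ≤ Real.exp (pk w (K + 1) * (n : ℝ) ^ j) := by
    have := Real.add_one_le_exp (pk w (K + 1) * (n : ℝ) ^ j)
    linarith
  have h3 := hM _ n hP hn
  have h4 : Real.exp (pk w (K + 1) * (n : ℝ) ^ j) ^ n = Real.exp (lo w K n (K + 1 + j + 1)) := by
    rw [← Real.exp_nat_mul, add_assoc, lo_add]
    congr 1
    ring
  rw [h4, ← lo_add] at h3
  exact h3

open G10 in
lemma sum_lo {w : ℝ} (hw : 2 ≤ w) (K : ℕ) {n : ℕ} (hn : 2 ≤ n) (J : ℕ) :
    ∑ k ∈ Finset.range (K + 1 + J), lo w K n (k + 1) ≤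
      4 * (pk w (K + 1) * (n : ℝ) ^ J) := by
  have hn' : (2 : ℝ) ≤ n := by exact_mod_cast hn
  have hp := pk_pos w (K + 1)
  have h1 : ∑ k ∈ Finset.range (K + 1), lo w K n (k + 1) ≤ 2 * pk w (K + 1) := by
    refine le_trans (le_of_eq ?_) (sum_pk hw (K + 1))
    refine Finset.sum_congr rfl fun k hk => ?_
    rw [Finset.mem_range] at hk
    rw [lo_le (by omega)]
  have h2 : ∀ J : ℕ, ∑ j ∈ Finset.range J, (n : ℝ) ^ (j + 1) ≤ 2 * (n : ℝ) ^ J := by
    intro J
    induction J with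
    | zero => rw [Finset.sum_range_zero]; positivity
    | succ J ih =>
      rw [Finset.sum_range_succ]
      have h3 : 2 * (n : ℝ) ^ J ≤ (n : ℝ) ^ (J + 1) := by
        rw [pow_succ']
        exact mul_le_mul_of_nonneg_right hn' (by positivity)
      linarith
  have h3 : ∑ j ∈ Finset.range J, lo w K n (K + 1 + j + 1) ≤
      2 * (pk w (K + 1) * (n : ℝ) ^ J) := by
    calc ∑ j ∈ Finset.range J, lo w K n (K + 1 + j + 1)
        = pk w (K + 1) * ∑ j ∈ Finset.range J, (n : ℝ) ^ (j + 1) := by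
          rw [Finset.mul_sum]
          refine Finset.sum_congr rfl fun j _ => ?_
          rw [add_assoc, lo_add]
      _ ≤ pk w (K + 1) * (2 * (n : ℝ) ^ J) := mul_le_mul_of_nonneg_left (h2 J) hp.le
      _ = _ := by ring
  have h4 : pk w (K + 1) ≤ pk w (K + 1) * (n : ℝ) ^ J :=
    le_mul_of_one_le_right hp.le (one_le_pow₀ (by linarith))
  rw [Finset.sum_range_add]
  linarith

open G10 in
/-- **The scales with additional blocks.** -/
theorem sclx (ν : ℝ) (hν : 0 < ν) : ∃ w : ℝ, 2 ≤ w ∧ ∃ l0 : ℝ, 1 ≤ l0 ∧ ∀ l : ℝ, l0 ≤ l →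
    ∃ (K : ℕ) (S : Finset ℕ) (β : ℕ → ℝ) (S' : ℕ → Finset ℕ) (β' : ℕ → ℕ → ℝ),
      1200 * l ≤ pk w K ∧ pk w K ≤ (1200 * l) ^ 2 ∧
      Scl w K S β S' β' (Real.exp (Real.exp (l / 2))) ν ∧
      ∑ m ∈ S, β m ^ 2 / m ≤ Real.exp (-(6 * Real.sqrt (l * Real.log l))) := by
  obtain ⟨c, P0, hc, hP0, hM⟩ := H81.merk
  have hlν : 0 < Real.log (1 + ν) := Real.log_pos (by linarith)
  have hcl : 0 < c * Real.log (1 + ν) := mul_pos hc hlν
  have h2c : 0 < 2 / c := by positivity
  have h4c : 0 < 8 / (c * Real.log (1 + ν)) := by positivity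
  obtain ⟨w, hw⟩ : ∃ w : ℝ, 2 + P0 + 2 / c + 8 / (c * Real.log (1 + ν)) = w := ⟨_, rfl⟩
  have hw2 : 2 ≤ w := by linarith
  refine ⟨w, hw2, ?_⟩
  have hw0 : 0 ≤ w := by linarith
  have hwP : P0 ≤ w := by linarith
  have hwc : 2 / c ≤ w := by linarith
  have hwn : 8 / (c * Real.log (1 + ν)) ≤ w := by linarith
  have hcw : 2 ≤ c * w := by
    rw [div_le_iff₀ hc] at hwc
    linarith
  have hcw0 : 0 < c * w := by linarith
  obtain ⟨l1, hl1, hpar⟩ := par hc (half_pos hlν)
  -- the sums `W`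
  have hWk : ∀ k, c * w / 2 * 2 ^ k ≤ Wk w k := fun k => Wk_ge hc hM hw2 hwP k
  have hW1 : ∀ k, 1 ≤ Wk w k := by
    intro k
    have h1 : (1 : ℝ) ≤ 2 ^ k := one_le_pow₀ (by norm_num)
    have h2 := hWk k
    nlinarith
  have hWr : ∀ k, Wk w k = Wr (Qk w k) := fun _ => rfl
  refine ⟨l1 + Real.exp w + |Real.log ν| ^ 2 + Real.exp 1, ?_, ?_⟩
  · have h1 := Real.exp_pos w
    have h2 := Real.exp_pos 1
    nlinarith [sq_nonneg |Real.log ν|]
  intro l hl
  have hew : 0 < Real.exp w := Real.exp_pos w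
  have he1 : 0 < Real.exp 1 := Real.exp_pos 1
  have hnn : 0 ≤ |Real.log ν| ^ 2 := sq_nonneg _
  have hl2 : l1 ≤ l := by linarith
  have hl3 : Real.exp w ≤ l := by linarith
  have hl4 : |Real.log ν| ^ 2 ≤ l := by linarith
  have hl5 : Real.exp 1 ≤ l := by linarith
  have hl0 : 0 < l := by linarith
  obtain ⟨J, n, hn2, hlen, hV1, hJV, hbig⟩ := hpar l hl2
  have hn1 : 1 ≤ n := by omega
  obtain ⟨V, hV⟩ : ∃ V : ℝ, c * Real.log n = V := ⟨_, rfl⟩
  rw [hV] at hV1 hJV hbig
  have hV0 : 0 < V := by linarith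
  -- the number of scales
  have hex : ∃ k : ℕ, 1200 * l ≤ pk w k := by
    obtain ⟨n, hn⟩ := pow_unbounded_of_one_lt (1200 * l) (show (1 : ℝ) < 2 by norm_num)
    refine ⟨n, hn.le.trans ?_⟩
    have h1 : w * 2 ^ n + 1 ≤ pk w n := Real.add_one_le_exp _
    have h2 : (0 : ℝ) < 2 ^ n := by positivity
    nlinarith
  classical
  obtain ⟨K, hK, hKmin⟩ : ∃ K : ℕ, 1200 * l ≤ pk w K ∧ ∀ j < K, pk w j < 1200 * l :=
    ⟨Nat.find hex, Nat.find_spec hex, fun j hj => not_le.1 (Nat.find_min hex hj)⟩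
  have hK0 : K ≠ 0 := by
    rintro rfl
    have h1 : pk w 0 = Real.exp w := by
      unfold pk
      rw [pow_zero, mul_one]
    rw [h1] at hK
    linarith
  have hKup : pk w K ≤ (1200 * l) ^ 2 := by
    obtain ⟨j, rfl⟩ := Nat.exists_eq_succ_of_ne_zero hK0
    have h1 := hKmin j (Nat.lt_succ_self j)
    rw [Nat.succ_eq_add_one, pk_succ]
    exact pow_le_pow_left₀ (pk_pos w j).le h1.le 2
  have hK1 : pk w (K + 1) ≤ (1200 * l) ^ 4 := by
    rw [pk_succ]
    calc pk w K ^ 2 ≤ ((1200 * l) ^ 2) ^ 2 := pow_le_pow_left₀ (pk_pos w K).le hKup 2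
      _ = (1200 * l) ^ 4 := by ring
  -- the sums `W` for all the blocks
  have hWx1 : ∀ j, V ≤ Wr (Qx w K n (K + 1 + j)) := by
    intro j
    rw [← hV]
    exact Wx_ge hM hw0 hwP K hn1 j
  have hWx2 : ∀ k ≤ K, Wr (Qx w K n k) = Wk w k := by
    intro k hk
    rw [Qx_eq hk, hWr]
  have hWx3 : ∀ k, 1 ≤ Wr (Qx w K n k) := by
    intro k
    by_cases h : k ≤ K
    · rw [hWx2 k h]
      exact hW1 k
    · obtain ⟨j, rfl⟩ : ∃ j, k = K + 1 + j := ⟨k - (K + 1), by omega⟩
      exact hV1.trans (hWx1 j)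
  obtain ⟨b, hb⟩ : ∃ b : ℕ → ℝ, b = fun k => if k ≤ K then 2 / (c * w) * (1 / 2) ^ k else 1 / V :=
    ⟨_, rfl⟩
  have hb0 : ∀ k, 0 ≤ b k := by
    intro k
    rw [hb]
    simp only
    split_ifs <;> positivity
  have hWb : ∀ k, 1 / Wr (Qx w K n k) ≤ b k := by
    intro k
    rw [hb]
    simp only
    split_ifs with h
    · rw [hWx2 k h]
      have h3 := hWk k
      have h4 : 0 < c * w / 2 * 2 ^ k := by positivity
      calc 1 / Wk w k ≤ 1 / (c * w / 2 * 2 ^ k) := one_div_le_one_div_of_le h4 h3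
        _ = 2 / (c * w) * (1 / 2) ^ k := by
          rw [div_pow, one_pow]
          field_simp
    · obtain ⟨j, rfl⟩ : ∃ j, k = K + 1 + j := ⟨k - (K + 1), by omega⟩
      exact one_div_le_one_div_of_le hV0 (hWx1 j)
  have hbs : ∑ k ∈ Finset.range (K + 1 + J), b k ≤ Real.log (1 + ν) := by
    have h1 : ∑ k ∈ Finset.range (K + 1), b k ≤ Real.log (1 + ν) / 2 := by
      have h2 : ∑ k ∈ Finset.range (K + 1), b k =
          2 / (c * w) * ∑ k ∈ Finset.range (K + 1), (1 / 2 : ℝ) ^ k := by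
        rw [Finset.mul_sum]
        refine Finset.sum_congr rfl fun k hk => ?_
        rw [Finset.mem_range] at hk
        rw [hb]
        simp only
        rw [if_pos (by omega)]
      rw [h2]
      calc 2 / (c * w) * ∑ k ∈ Finset.range (K + 1), (1 / 2 : ℝ) ^ k ≤ 2 / (c * w) * 2 :=
            mul_le_mul_of_nonneg_left (sum_geometric_two_le _) (by positivity)
        _ = 4 / (c * w) := by ring
        _ ≤ Real.log (1 + ν) / 2 := by
            rw [div_le_iff₀ hcl] at hwn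
            rw [div_le_iff₀ hcw0]
            linarith
    have h3 : ∑ j ∈ Finset.range J, b (K + 1 + j) ≤ Real.log (1 + ν) / 2 := by
      have h4 : ∀ j ∈ Finset.range J, b (K + 1 + j) = 1 / V := by
        intro j _
        rw [hb]
        simp only
        rw [if_neg (by omega)]
      rw [Finset.sum_congr rfl h4, Finset.sum_const, Finset.card_range, nsmul_eq_mul,
        mul_one_div]
      exact hJV
    rw [Finset.sum_range_add]
    linarith
  have hprod : ∀ t ⊆ Finset.range (K + 1 + J),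
      ∏ k ∈ t, (1 + 1 / Wr (Qx w K n k)) ≤ 1 + ν := by
    intro t ht
    have h2 : ∏ k ∈ t, (1 + 1 / Wr (Qx w K n k)) ≤ Real.exp (∑ k ∈ t, b k) := by
      rw [Real.exp_sum]
      refine Finset.prod_le_prod (fun k _ => ?_) fun k _ => ?_
      · have := hWx3 k
        positivity
      · have := Real.add_one_le_exp (b k)
        linarith [hWb k]
    have h3 : ∑ k ∈ t, b k ≤ Real.log (1 + ν) :=
      (Finset.sum_le_sum_of_subset_of_nonneg ht fun k _ _ => hb0 k).trans hbs
    calc _ ≤ _ := h2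
      _ ≤ Real.exp (Real.log (1 + ν)) := Real.exp_le_exp.2 h3
      _ = 1 + ν := Real.exp_log (by linarith)
  have hScls : ∀ t : Finset ℕ, Scls t (Qx w K n) := by
    intro t
    refine ⟨fun k _ q hq => (mem_Qx.1 hq).2.1, fun k _ j _ hkj => ?_, fun k _ => ?_⟩
    · rcases lt_or_gt_of_ne hkj with h1 | h1
      · exact Qx_disj hw0 hn1 h1
      · exact (Qx_disj hw0 hn1 h1).symm
    · linarith [hWx3 k]
  have hsum : ∑ k ∈ Finset.range (K + 1 + J), lo w K n (k + 1) ≤ Real.exp (l / 2) := by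
    refine (sum_lo hw2 K hn2 J).trans ?_
    have h1 : pk w (K + 1) * (n : ℝ) ^ J ≤ (1200 * l) ^ 4 * (n : ℝ) ^ J :=
      mul_le_mul_of_nonneg_right hK1 (by positivity)
    linarith
  set X : ℝ := Real.exp (Real.exp (l / 2)) with hX
  have hX1 : 1 ≤ X := Real.one_le_exp (Real.exp_pos _).le
  set N : ℕ := ⌊X⌋₊ with hNdef
  have hN1 : 1 ≤ N := Nat.le_floor (by push_cast; exact hX1)
  have hNX : (N : ℝ) ≤ X := Nat.floor_le (by linarith)
  have hN : ∀ t ⊆ Finset.range (K + 1 + J), ∀ m, betA t (Qx w K n) m ≠ 0 → m ≤ N := by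
    intro t ht m hm
    obtain ⟨hm0, h1⟩ := betA_supp (hScls t) (fun k => lo w K n (k + 1)) (fun k _ q hq => by
      rw [mem_Qx] at hq
      have hq0 : (0 : ℝ) < q := by exact_mod_cast hq.2.1.pos
      exact (Real.log_le_iff_le_exp hq0).2 hq.1) m hm
    have h2 : Real.log m ≤ Real.exp (l / 2) := h1.trans
      ((Finset.sum_le_sum_of_subset_of_nonneg ht fun k _ _ => (lo_pos w K hn1 _).le).trans hsum)
    have hm0' : (0 : ℝ) < m := by exact_mod_cast Nat.pos_of_ne_zero hm0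
    exact Nat.le_floor ((Real.log_le_iff_le_exp hm0').1 h2)
  -- the sum of squares
  have hle : ∀ m, betA (Finset.range (K + 1 + J)) (Qx w K n) m ≤
      Real.exp (-(6 * Real.sqrt (l * Real.log l))) := by
    intro m
    refine (betA_le (hScls _) m).trans ?_
    rw [Finset.prod_range_add]
    have h4 : ∏ k ∈ Finset.range (K + 1), 1 / Wr (Qx w K n k) ≤ 1 := by
      refine Finset.prod_le_one (fun k _ => ?_) fun k _ => ?_
      · have := hWx3 k
        positivity
      · rw [div_le_one (by linarith [hWx3 k])]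
        exact hWx3 k
    have h5 : ∏ j ∈ Finset.range J, 1 / Wr (Qx w K n (K + 1 + j)) ≤ (1 / V) ^ J := by
      calc _ ≤ ∏ _j ∈ Finset.range J, 1 / V := by
            refine Finset.prod_le_prod (fun j _ => ?_) fun j _ => ?_
            · have := hWx3 (K + 1 + j)
              positivity
            · exact one_div_le_one_div_of_le hV0 (hWx1 j)
        _ = (1 / V) ^ J := by rw [Finset.prod_const, Finset.card_range]
    have h6 : (1 / V) ^ J = Real.exp (-(J * Real.log V)) := by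
      rw [one_div, inv_pow, Real.exp_neg, Real.exp_nat_mul, Real.exp_log hV0]
    have h7 : 0 ≤ ∏ j ∈ Finset.range J, 1 / Wr (Qx w K n (K + 1 + j)) :=
      Finset.prod_nonneg fun j _ => by
        have := hWx3 (K + 1 + j)
        positivity
    calc (∏ k ∈ Finset.range (K + 1), 1 / Wr (Qx w K n k)) *
          ∏ j ∈ Finset.range J, 1 / Wr (Qx w K n (K + 1 + j))
        ≤ 1 * (1 / V) ^ J := mul_le_mul h4 h5 h7 (by norm_num)
      _ = Real.exp (-(J * Real.log V)) := by rw [one_mul, h6]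
      _ ≤ _ := Real.exp_le_exp.2 (by linarith)
  have hmol := mol_of hN1 hNX (hScls (Finset.range (K + 1 + J))) hN
    (hprod _ (Finset.Subset.refl _))
  have hsq : ∑ m ∈ supp N (Finset.range (K + 1 + J)) (Qx w K n),
      betA (Finset.range (K + 1 + J)) (Qx w K n) m ^ 2 / m ≤
      Real.exp (-(6 * Real.sqrt (l * Real.log l))) := by
    calc ∑ m ∈ supp N (Finset.range (K + 1 + J)) (Qx w K n),
          betA (Finset.range (K + 1 + J)) (Qx w K n) m ^ 2 / m
        ≤ ∑ m ∈ supp N (Finset.range (K + 1 + J)) (Qx w K n),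
          Real.exp (-(6 * Real.sqrt (l * Real.log l))) *
            (betA (Finset.range (K + 1 + J)) (Qx w K n) m / m) := by
          refine Finset.sum_le_sum fun m _ => ?_
          rw [sq, mul_div_assoc]
          exact mul_le_mul_of_nonneg_right (hle m)
            (div_nonneg (betA_nonneg _ _ _) (Nat.cast_nonneg _))
      _ = _ := by rw [← Finset.mul_sum, hmol.sum_one, mul_one]
  have hEν : Real.exp (-(6 * Real.sqrt (l * Real.log l))) ≤ ν := by
    rw [← Real.le_log_iff_exp_le hν]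
    have h1 : 1 ≤ Real.log l := by
      rw [Real.le_log_iff_exp_le hl0]
      exact hl5
    have h2 : |Real.log ν| ≤ Real.sqrt (l * Real.log l) := by
      rw [← Real.sqrt_sq (abs_nonneg (Real.log ν))]
      refine Real.sqrt_le_sqrt (hl4.trans ?_)
      exact le_mul_of_one_le_right hl0.le h1
    have h3 := neg_abs_le (Real.log ν)
    have h4 := Real.sqrt_nonneg (l * Real.log l)
    linarith
  refine ⟨K, supp N (Finset.range (K + 1 + J)) (Qx w K n),
    betA (Finset.range (K + 1 + J)) (Qx w K n),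
    fun k => supp N ((Finset.range (K + 1 + J)).erase k) (Qx w K n),
    fun k => betA ((Finset.range (K + 1 + J)).erase k) (Qx w K n), hK, hKup,
    ⟨hmol, ?_, ?_, ?_, hsq.trans hEν⟩, hsq⟩
  · intro k _
    exact mol_of hN1 hNX (hScls _) (fun t ht => hN t (ht.trans (Finset.erase_subset _ _)))
      (hprod _ (Finset.erase_subset _ _))
  · intro k _
    exact hW1 k
  · intro k hk f
    have hkm : k ∈ Finset.range (K + 1 + J) := Finset.mem_range.2 (by omega)
    have hins : insert k ((Finset.range (K + 1 + J)).erase k) = Finset.range (K + 1 + J) :=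
      Finset.insert_erase hkm
    have h1 := fac (V := ℂ) (N := N) (s := (Finset.range (K + 1 + J)).erase k) (Q := Qx w K n)
      (k := k) (by rw [hins]; exact hScls _) (Finset.notMem_erase _ _)
      (by rw [hins]; exact hN _ (Finset.Subset.refl _)) f
    rw [hins] at h1
    simp only [Complex.real_smul] at h1
    rw [h1, hWx2 k hk, Qx_eq hk]
    push_cast
    rfl

end Pool.Agent.Lib.MP_6bc78b_nt.GP.H19S
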