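import Pool.Agent.Lib.MP_6bc78b_nt.GP.H19.Scl2
import Pool.Agent.Lib.MP_6bc78b_nt.GP.H19.Sclx
import Pool.Agent.Lib.MP_6bc78b_nt.GP.H43.Defs11t

/-! Project GP11 (MP_6bc78b_nt), row SCL2T: the scales with additional blocks of primes, and the
square of the polynomial. -/

set_option autoImplicit false

namespace Pool.Agent.Lib.MP_6bc78b_nt.GP.H19S

open Finset ArithmeticFunction
open Pool.Agent.Lib.MP_6bc78b_nt.MS Pool.Agent.Lib.MP_6bc78b_nt.GP
open Pool.Agent.Lib.MP_6bc78b_nt.GP.G7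

/-! ## Parameters -/

/-- the number `J` of blocks and their length `n`, total length `exp (θ l)` -/
theorem par' {c ν θ : ℝ} (hc : 0 < c) (hν : 0 < ν) (hθ : 0 < θ) :
    ∃ l0 : ℝ, 1 ≤ l0 ∧ ∀ l : ℝ, l0 ≤ l →
    ∃ J n : ℕ, 2 ≤ n ∧ 4 * (1200 * l) ^ 4 * (n : ℝ) ^ J ≤ Real.exp (θ * l) ∧
      1 ≤ c * Real.log n ∧ J / (c * Real.log n) ≤ ν ∧
      6 * Real.sqrt (l * Real.log l) ≤ J * Real.log (c * Real.log n) := by
  obtain ⟨h, hh⟩ : ∃ h : ℝ, Real.sqrt (c * θ * ν / 4) = h := ⟨_, rfl⟩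
  have hh0 : 0 < h := by
    rw [← hh]
    exact Real.sqrt_pos.2 (by positivity)
  have hh2 : h ^ 2 = c * θ * ν / 4 := by
    rw [← hh]
    exact Real.sq_sqrt (by positivity)
  obtain ⟨g, hg⟩ : ∃ g : ℝ, 4 * h / (c * θ) = g := ⟨_, rfl⟩
  have hg0 : 0 < g := by rw [← hg]; positivity
  have e1 : ∀ᶠ l : ℝ in Filter.atTop,
      2 / h + (4 * h / θ + g) + g ^ 2 ≤ Real.sqrt l :=
    Real.tendsto_sqrt_atTop.eventually_ge_atTop _
  have e2 : ∀ᶠ l : ℝ in Filter.atTop, 1 + (48 / h) ^ 2 ≤ Real.log l :=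
    Real.tendsto_log_atTop.eventually_ge_atTop _
  have e3 : ∀ᶠ l : ℝ in Filter.atTop, 4 * 1200 ^ 4 * 120 * (2 / θ) ^ 5 ≤ l :=
    Filter.eventually_ge_atTop _
  obtain ⟨l0, hl0⟩ := Filter.eventually_atTop.1 (e1.and (e2.and e3))
  refine ⟨max 1 l0, le_max_left _ _, fun l hl => ?_⟩
  obtain ⟨h1, h2, h3⟩ := hl0 l ((le_max_right _ _).trans hl)
  have hl1 : 1 ≤ l := (le_max_left _ _).trans hl
  have hl0' : 0 < l := by linarith
  obtain ⟨s, hs⟩ : ∃ s : ℝ, Real.sqrt l = s := ⟨_, rfl⟩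
  rw [hs] at h1
  have p1 : 0 < 2 / h := by positivity
  have p2 : 0 < 4 * h / θ := by positivity
  have p3 : 0 < g ^ 2 := by positivity
  have hs1 : 2 / h ≤ s := by linarith
  have hs2 : 4 * h / θ ≤ s := by linarith
  have hs3 : g ≤ s := by linarith
  have hs4 : g ^ 2 ≤ s := by linarith
  have hs0 : 0 < s := by linarith
  have hsl : s ^ 2 = l := by
    rw [← hs]
    exact Real.sq_sqrt hl0'.le
  have hhs : 2 ≤ h * s := by
    rw [div_le_iff₀ hh0] at hs1
    linarith
  have hs2' : 4 * h ≤ θ * s := by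
    rw [div_le_iff₀ hθ] at hs2
    linarith
  obtain ⟨J, hJ⟩ : ∃ J : ℕ, ⌊h * s⌋₊ = J := ⟨_, rfl⟩
  have hJ1 : (J : ℝ) ≤ h * s := by
    rw [← hJ]
    exact Nat.floor_le (by positivity)
  have hJ2 : h * s / 2 ≤ J := by
    have := Nat.lt_floor_add_one (h * s)
    rw [hJ] at this
    linarith
  have hJ0 : 0 < (J : ℝ) := by linarith
  obtain ⟨x, hx⟩ : ∃ x : ℝ, θ * l / (2 * J) = x := ⟨_, rfl⟩
  have hx1 : θ * s / (2 * h) ≤ x := by
    rw [← hx, div_le_div_iff₀ (by positivity) (by positivity), ← hsl]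
    have := mul_le_mul_of_nonneg_left hJ1 (by positivity : 0 ≤ 2 * (θ * s))
    nlinarith [this]
  have hx2 : 2 ≤ x := by
    refine le_trans ?_ hx1
    rw [le_div_iff₀ (by positivity)]
    linarith
  have hex : 2 < Real.exp x := by
    have := Real.add_one_le_exp x
    linarith
  obtain ⟨n, hn⟩ : ∃ n : ℕ, ⌊Real.exp x⌋₊ = n := ⟨_, rfl⟩
  have hn1 : (n : ℝ) ≤ Real.exp x := by
    rw [← hn]
    exact Nat.floor_le (Real.exp_pos _).le
  have hn2 : Real.exp x / 2 ≤ n := by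
    have := Nat.lt_floor_add_one (Real.exp x)
    rw [hn] at this
    linarith
  have hn3 : 2 ≤ n := by
    rw [← hn]
    exact Nat.le_floor (by push_cast; linarith)
  have hn0 : (0 : ℝ) < n := by
    have : 0 < n := by omega
    exact_mod_cast this
  have hlog : x / 2 ≤ Real.log n := by
    have h7 := Real.log_le_log (by positivity) hn2
    rw [Real.log_div (Real.exp_pos _).ne' (by norm_num), Real.log_exp] at h7
    have h9 := Real.log_two_lt_d9
    linarith
  -- `c log n ≥ s / g`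
  have hV : s / g ≤ c * Real.log n := by
    have : s / g = c * (θ * s / (2 * h) / 2) := by
      rw [← hg]
      field_simp
      ring
    rw [this]
    exact mul_le_mul_of_nonneg_left (by linarith) hc.le
  have hV1 : 1 ≤ s / g := by
    rw [le_div_iff₀ hg0]
    linarith
  refine ⟨J, n, hn3, ?_, hV1.trans hV, ?_, ?_⟩
  · have h5 : (n : ℝ) ^ J ≤ Real.exp (θ * l / 2) := by
      calc (n : ℝ) ^ J ≤ Real.exp x ^ J := pow_le_pow_left₀ hn0.le hn1 J
        _ = Real.exp (θ * l / 2) := by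
          rw [← Real.exp_nat_mul, ← hx]
          congr 1
          field_simp
    have h6 : 4 * (1200 * l) ^ 4 ≤ Real.exp (θ * l / 2) := by
      have h7 := Real.pow_div_factorial_le_exp (θ * l / 2) (by positivity) 5
      refine le_trans ?_ h7
      have h8 : (Nat.factorial 5 : ℝ) = 120 := by norm_num [Nat.factorial]
      rw [h8, le_div_iff₀ (by norm_num)]
      have h9 : 4 * 1200 ^ 4 * 120 * (2 / θ) ^ 5 * l ^ 4 ≤ l * l ^ 4 :=
        mul_le_mul_of_nonneg_right h3 (by positivity)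
      have h10 : (θ * l / 2) ^ 5 = (θ / 2) ^ 5 * (l * l ^ 4) := by ring
      have h11 : (θ / 2) ^ 5 * (2 / θ) ^ 5 = 1 := by
        rw [← mul_pow]
        have : θ / 2 * (2 / θ) = 1 := by field_simp
        rw [this, one_pow]
      rw [h10]
      calc 4 * (1200 * l) ^ 4 * 120
          = ((θ / 2) ^ 5 * (2 / θ) ^ 5) * (4 * 1200 ^ 4 * 120 * l ^ 4) := by
            rw [h11]
            ring
        _ = (θ / 2) ^ 5 * (4 * 1200 ^ 4 * 120 * (2 / θ) ^ 5 * l ^ 4) := by ring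
        _ ≤ _ := mul_le_mul_of_nonneg_left h9 (by positivity)
    calc 4 * (1200 * l) ^ 4 * (n : ℝ) ^ J ≤ Real.exp (θ * l / 2) * Real.exp (θ * l / 2) :=
          mul_le_mul h6 h5 (by positivity) (Real.exp_pos _).le
      _ = Real.exp (θ * l) := by
          rw [← Real.exp_add]
          congr 1
          ring
  · have hVp : 0 < s / g := by positivity
    have hVq : 0 < c * Real.log n := hVp.trans_le hV
    rw [div_le_iff₀ hVq]
    have h6 : h * s = ν * (s / g) := by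
      have : ν * (s / g) = (c * θ * ν / 4) * s / h := by
        rw [← hg]
        field_simp
      rw [this, ← hh2]
      field_simp
    calc (J : ℝ) ≤ h * s := hJ1
      _ = ν * (s / g) := h6
      _ ≤ ν * (c * Real.log n) := mul_le_mul_of_nonneg_left hV hν.le
  · have h4 : Real.sqrt s ≤ s / g := by
      have h5 : g ≤ Real.sqrt s := by
        rw [← Real.sqrt_sq hg0.le]
        exact Real.sqrt_le_sqrt hs4
      have h6 : Real.sqrt s * Real.sqrt s = s := Real.mul_self_sqrt hs0.le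
      rw [le_div_iff₀ hg0]
      calc Real.sqrt s * g ≤ Real.sqrt s * Real.sqrt s :=
            mul_le_mul_of_nonneg_left h5 (Real.sqrt_nonneg _)
        _ = s := h6
    have h8 : Real.log l / 4 ≤ Real.log (c * Real.log n) := by
      have h9 : Real.log (Real.sqrt s) = Real.log l / 4 := by
        rw [Real.log_sqrt hs0.le, ← hsl, Real.log_pow]
        push_cast
        ring
      rw [← h9]
      exact Real.log_le_log (Real.sqrt_pos.2 hs0) (h4.trans hV)
    have h10 : (48 / h) ^ 2 ≤ Real.log l := by linarith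
    have h11 : 0 < Real.log l := lt_of_lt_of_le (by positivity) h10
    have h12 : 48 / h ≤ Real.sqrt (Real.log l) := by
      rw [← Real.sqrt_sq (by positivity : (0 : ℝ) ≤ 48 / h)]
      exact Real.sqrt_le_sqrt h10
    have h13 : 48 ≤ h * Real.sqrt (Real.log l) := by
      rw [div_le_iff₀ hh0] at h12
      linarith
    have h14 : Real.sqrt (Real.log l) * Real.sqrt (Real.log l) = Real.log l :=
      Real.mul_self_sqrt h11.le
    rw [Real.sqrt_mul hl0'.le, hs]
    calc 6 * (s * Real.sqrt (Real.log l)) = 48 * (s * Real.sqrt (Real.log l)) / 8 := by ring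
      _ ≤ h * Real.sqrt (Real.log l) * (s * Real.sqrt (Real.log l)) / 8 := by
          have := mul_le_mul_of_nonneg_right h13
            (by positivity : 0 ≤ s * Real.sqrt (Real.log l))
          linarith
      _ = h * s * (Real.sqrt (Real.log l) * Real.sqrt (Real.log l)) / 8 := by ring
      _ = (h * s / 2) * (Real.log l / 4) := by
          rw [h14]
          ring
      _ ≤ J * Real.log (c * Real.log n) :=
          mul_le_mul hJ2 h8 (by positivity) hJ0.le

open G10 G11 in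
/-- **The scales with additional blocks, and the square.** -/
theorem scl2x (ν θ : ℝ) (hν : 0 < ν) (hθ : 0 < θ) : ∃ w : ℝ, 2 ≤ w ∧ ∃ l0 : ℝ, 1 ≤ l0 ∧
    ∀ l : ℝ, l0 ≤ l → ∃ (K : ℕ) (S : Finset ℕ) (β : ℕ → ℝ) (S' : ℕ → Finset ℕ)
      (β' : ℕ → ℕ → ℝ) (S2 : Finset ℕ) (β2 : ℕ → ℂ), 1200 * l ≤ pk w K ∧
      pk w K ≤ (1200 * l) ^ 2 ∧ Scl w K S β S' β' (Real.exp (Real.exp (θ * l))) ν ∧
      ∑ m ∈ S, β m ^ 2 / m ≤ Real.exp (-(6 * Real.sqrt (l * Real.log l))) ∧
      (∀ m ∈ S2, 1 ≤ m ∧ (m : ℝ) ≤ Real.exp (2 * Real.exp (θ * l))) ∧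
      (∀ s : ℂ, cA S2 β2 s = pB S β s ^ 2) ∧ Rf S2 β2 ≤ 2 := by
  obtain ⟨c, P0, hc, hP0, hM⟩ := H81.merk
  have hlν : 0 < Real.log (1 + ν) := Real.log_pos (by linarith)
  have hl2 : 0 < Real.log 2 := Real.log_pos (by norm_num)
  obtain ⟨τ, hτ⟩ : ∃ τ : ℝ, min (Real.log (1 + ν) / 2) (Real.log 2 / 12) = τ := ⟨_, rfl⟩
  have hτ0 : 0 < τ := by
    rw [← hτ]
    exact lt_min (by positivity) (by positivity)
  have hτ1 : τ ≤ Real.log (1 + ν) / 2 := by
    rw [← hτ]
    exact min_le_left _ _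
  have hτ2 : τ ≤ Real.log 2 / 12 := by
    rw [← hτ]
    exact min_le_right _ _
  have hcτ : 0 < c * τ := mul_pos hc hτ0
  have h2c : 0 < 2 / c := by positivity
  have h4c : 0 < 4 / (c * τ) := by positivity
  obtain ⟨w, hw⟩ : ∃ w : ℝ, 2 + P0 + 2 / c + 4 / (c * τ) = w := ⟨_, rfl⟩
  have hw2 : 2 ≤ w := by linarith
  refine ⟨w, hw2, ?_⟩
  have hw0 : 0 ≤ w := by linarith
  have hwP : P0 ≤ w := by linarith
  have hwc : 2 / c ≤ w := by linarith
  have hwn : 4 / (c * τ) ≤ w := by linarith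
  have hcw : 2 ≤ c * w := by
    rw [div_le_iff₀ hc] at hwc
    linarith
  have hcw0 : 0 < c * w := by linarith
  obtain ⟨l1, hl1, hpar⟩ := par' hc hτ0 hθ
  -- the sums `W`
  have hWk : ∀ k, c * w / 2 * 2 ^ k ≤ Wk w k := fun k => Wk_ge hc hM hw2 hwP k
  have hW1 : ∀ k, 1 ≤ Wk w k := by
    intro k
    have h1 : (1 : ℝ) ≤ 2 ^ k := one_le_pow₀ (by norm_num)
    have h2 := hWk k
    nlinarith
  have hWr : ∀ k, Wk w k = Wr (Qk w k) := fun _ => rfl
  refine ⟨l1 + Real.exp w + |Real.log ν| ^ 2 + Real.exp 1, ?_, ?_⟩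
  · have h1 := Real.exp_pos w
    have h2 := Real.exp_pos 1
    nlinarith [sq_nonneg |Real.log ν|]
  intro l hl
  have hew : 0 < Real.exp w := Real.exp_pos w
  have he1 : 0 < Real.exp 1 := Real.exp_pos 1
  have hnn : 0 ≤ |Real.log ν| ^ 2 := sq_nonneg _
  have hl2' : l1 ≤ l := by linarith
  have hl3 : Real.exp w ≤ l := by linarith
  have hl4 : |Real.log ν| ^ 2 ≤ l := by linarith
  have hl5 : Real.exp 1 ≤ l := by linarith
  have hl0 : 0 < l := by linarith
  obtain ⟨J, n, hn2, hlen, hV1, hJV, hbig⟩ := hpar l hl2'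
  have hn1 : 1 ≤ n := by omega
  obtain ⟨V, hV⟩ : ∃ V : ℝ, c * Real.log n = V := ⟨_, rfl⟩
  rw [hV] at hV1 hJV hbig
  have hV0 : 0 < V := by linarith
  -- the number of scales
  have hex : ∃ k : ℕ, 1200 * l ≤ pk w k := by
    obtain ⟨n, hn⟩ := pow_unbounded_of_one_lt (1200 * l) (show (1 : ℝ) < 2 by norm_num)
    refine ⟨n, hn.le.trans ?_⟩
    have h1 : w * 2 ^ n + 1 ≤ pk w n := Real.add_one_le_exp _
    have h2 : (0 : ℝ) < 2 ^ n := by positivity
    nlinarith
  classical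
  obtain ⟨K, hK, hKmin⟩ : ∃ K : ℕ, 1200 * l ≤ pk w K ∧ ∀ j < K, pk w j < 1200 * l :=
    ⟨Nat.find hex, Nat.find_spec hex, fun j hj => not_le.1 (Nat.find_min hex hj)⟩
  have hK0 : K ≠ 0 := by
    rintro rfl
    have h1 : pk w 0 = Real.exp w := by
      unfold pk
      rw [pow_zero, mul_one]
    rw [h1] at hK
    linarith
  have hKup : pk w K ≤ (1200 * l) ^ 2 := by
    obtain ⟨j, rfl⟩ := Nat.exists_eq_succ_of_ne_zero hK0
    have h1 := hKmin j (Nat.lt_succ_self j)
    rw [Nat.succ_eq_add_one, pk_succ]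
    exact pow_le_pow_left₀ (pk_pos w j).le h1.le 2
  have hK1 : pk w (K + 1) ≤ (1200 * l) ^ 4 := by
    rw [pk_succ]
    calc pk w K ^ 2 ≤ ((1200 * l) ^ 2) ^ 2 := pow_le_pow_left₀ (pk_pos w K).le hKup 2
      _ = (1200 * l) ^ 4 := by ring
  -- the sums `W` for all the blocks
  have hWx1 : ∀ j, V ≤ Wr (Qx w K n (K + 1 + j)) := by
    intro j
    rw [← hV]
    exact Wx_ge hM hw0 hwP K hn1 j
  have hWx2 : ∀ k ≤ K, Wr (Qx w K n k) = Wk w k := by
    intro k hk
    rw [Qx_eq hk, hWr]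
  have hWx3 : ∀ k, 1 ≤ Wr (Qx w K n k) := by
    intro k
    by_cases h : k ≤ K
    · rw [hWx2 k h]
      exact hW1 k
    · obtain ⟨j, rfl⟩ : ∃ j, k = K + 1 + j := ⟨k - (K + 1), by omega⟩
      exact hV1.trans (hWx1 j)
  have hsumW : ∑ k ∈ Finset.range (K + 1 + J), 1 / Wr (Qx w K n k) ≤ 2 * τ := by
    have h1 : ∑ k ∈ Finset.range (K + 1), 1 / Wr (Qx w K n k) ≤ τ := by
      have h2 : ∀ k ∈ Finset.range (K + 1), 1 / Wr (Qx w K n k) ≤
          2 / (c * w) * (1 / 2 : ℝ) ^ k := by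
        intro k hk
        rw [Finset.mem_range] at hk
        rw [hWx2 k (by omega)]
        have h3 := hWk k
        have h4 : 0 < c * w / 2 * 2 ^ k := by positivity
        calc 1 / Wk w k ≤ 1 / (c * w / 2 * 2 ^ k) := one_div_le_one_div_of_le h4 h3
          _ = 2 / (c * w) * (1 / 2) ^ k := by
            rw [div_pow, one_pow]
            field_simp
      calc ∑ k ∈ Finset.range (K + 1), 1 / Wr (Qx w K n k)
          ≤ ∑ k ∈ Finset.range (K + 1), 2 / (c * w) * (1 / 2 : ℝ) ^ k := Finset.sum_le_sum h2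
        _ = 2 / (c * w) * ∑ k ∈ Finset.range (K + 1), (1 / 2 : ℝ) ^ k := by
            rw [Finset.mul_sum]
        _ ≤ 2 / (c * w) * 2 :=
            mul_le_mul_of_nonneg_left (sum_geometric_two_le _) (by positivity)
        _ = 4 / (c * w) := by ring
        _ ≤ τ := by
            rw [div_le_iff₀ hcτ] at hwn
            rw [div_le_iff₀ hcw0]
            linarith
    have h3 : ∑ j ∈ Finset.range J, 1 / Wr (Qx w K n (K + 1 + j)) ≤ τ := by
      calc ∑ j ∈ Finset.range J, 1 / Wr (Qx w K n (K + 1 + j))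
          ≤ ∑ _j ∈ Finset.range J, 1 / V :=
            Finset.sum_le_sum fun j _ => one_div_le_one_div_of_le hV0 (hWx1 j)
        _ = J / V := by
            rw [Finset.sum_const, Finset.card_range, nsmul_eq_mul, mul_one_div]
        _ ≤ τ := hJV
    rw [Finset.sum_range_add]
    linarith
  have hScls : ∀ t : Finset ℕ, Scls t (Qx w K n) := by
    intro t
    refine ⟨fun k _ q hq => (mem_Qx.1 hq).2.1, fun k _ j _ hkj => ?_, fun k _ => ?_⟩
    · rcases lt_or_gt_of_ne hkj with h1 | h1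
      · exact Qx_disj hw0 hn1 h1
      · exact (Qx_disj hw0 hn1 h1).symm
    · linarith [hWx3 k]
  have hsum : ∑ k ∈ Finset.range (K + 1 + J), lo w K n (k + 1) ≤ Real.exp (θ * l) := by
    refine (sum_lo hw2 K hn2 J).trans ?_
    have h1 : pk w (K + 1) * (n : ℝ) ^ J ≤ (1200 * l) ^ 4 * (n : ℝ) ^ J :=
      mul_le_mul_of_nonneg_right hK1 (by positivity)
    linarith
  have hprod : ∏ k ∈ Finset.range (K + 1 + J), 1 / Wr (Qx w K n k) ≤
      Real.exp (-(6 * Real.sqrt (l * Real.log l))) := by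
    rw [Finset.prod_range_add]
    have h4 : ∏ k ∈ Finset.range (K + 1), 1 / Wr (Qx w K n k) ≤ 1 := by
      refine Finset.prod_le_one (fun k _ => ?_) fun k _ => ?_
      · have := hWx3 k
        positivity
      · rw [div_le_one (by linarith [hWx3 k])]
        exact hWx3 k
    have h5 : ∏ j ∈ Finset.range J, 1 / Wr (Qx w K n (K + 1 + j)) ≤ (1 / V) ^ J := by
      calc _ ≤ ∏ _j ∈ Finset.range J, 1 / V := by
            refine Finset.prod_le_prod (fun j _ => ?_) fun j _ => ?_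
            · have := hWx3 (K + 1 + j)
              positivity
            · exact one_div_le_one_div_of_le hV0 (hWx1 j)
        _ = (1 / V) ^ J := by rw [Finset.prod_const, Finset.card_range]
    have h6 : (1 / V) ^ J = Real.exp (-(J * Real.log V)) := by
      rw [one_div, inv_pow, Real.exp_neg, Real.exp_nat_mul, Real.exp_log hV0]
    have h7 : 0 ≤ ∏ j ∈ Finset.range J, 1 / Wr (Qx w K n (K + 1 + j)) :=
      Finset.prod_nonneg fun j _ => by
        have := hWx3 (K + 1 + j)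
        positivity
    calc (∏ k ∈ Finset.range (K + 1), 1 / Wr (Qx w K n k)) *
          ∏ j ∈ Finset.range J, 1 / Wr (Qx w K n (K + 1 + j))
        ≤ 1 * (1 / V) ^ J := mul_le_mul h4 h5 h7 (by norm_num)
      _ = Real.exp (-(J * Real.log V)) := by rw [one_mul, h6]
      _ ≤ _ := Real.exp_le_exp.2 (by linarith)
  have hEν : Real.exp (-(6 * Real.sqrt (l * Real.log l))) ≤ ν := by
    rw [← Real.le_log_iff_exp_le hν]
    have h1 : 1 ≤ Real.log l := by
      rw [Real.le_log_iff_exp_le hl0]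
      exact hl5
    have h2 : |Real.log ν| ≤ Real.sqrt (l * Real.log l) := by
      rw [← Real.sqrt_sq (abs_nonneg (Real.log ν))]
      refine Real.sqrt_le_sqrt (hl4.trans ?_)
      exact le_mul_of_one_le_right hl0.le h1
    have h3 := neg_abs_le (Real.log ν)
    have h4 := Real.sqrt_nonneg (l * Real.log l)
    linarith
  obtain ⟨S, β, S', β', S2, β2, g1, g2, g3, g4, g5⟩ := core (w := w) (K := K) (M := K + 1 + J)
    (by omega) (Q := Qx w K n) (fun k hk => Qx_eq hk) hScls hWx3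
    (X := fun k => lo w K n (k + 1)) (fun k => (lo_pos w K hn1 _).le) (fun k q hq => by
      rw [mem_Qx] at hq
      have hq0 : (0 : ℝ) < q := by exact_mod_cast hq.2.1.pos
      exact (Real.log_le_iff_le_exp hq0).2 hq.1) hsum hν (by linarith) (by linarith) hprod hEν
  exact ⟨K, S, β, S', β', S2, β2, hK, hKup, g1, g2, g3, g4, g5⟩

open G10 G11 in
/-- **Row SCL2T.** -/
theorem scl2t : SCL2TStatement := by
  intro ν hν
  obtain ⟨w, hw, l0, hl0, H⟩ := scl2x ν (1 / 3) hν (by norm_num)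
  refine ⟨w, hw, max 11 (Real.exp (Real.exp (l0 + 15))),
    lt_of_lt_of_le (by norm_num) (le_max_left _ _), ?_⟩
  intro T hT
  have hTe : Real.exp (Real.exp (l0 + 15)) ≤ T := (le_max_right _ _).trans hT
  have hT0 : 0 < T := (Real.exp_pos _).trans_le hTe
  have hl1 : Real.exp (l0 + 15) ≤ Real.log T := (Real.le_log_iff_exp_le hT0).2 hTe
  have hLT : 0 < Real.log T := (Real.exp_pos _).trans_le hl1
  have hl : l0 + 15 ≤ Real.log (Real.log T) := (Real.le_log_iff_exp_le hLT).2 hl1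
  obtain ⟨K, S, β, S', β', S2, β2, h1, h2, h3, h4, h5, h6, h7⟩ :=
    H (Real.log (Real.log T)) (by linarith)
  have e1 : Real.exp (1 / 3 * Real.log (Real.log T)) = Real.log T ^ (1 / 3 : ℝ) := by
    rw [Real.rpow_def_of_pos hLT, mul_comm]
  have e2 : Real.log T ^ (2 / 5 : ℝ) = Real.exp (Real.log (Real.log T) * (2 / 5)) :=
    Real.rpow_def_of_pos hLT _
  have e3 : 2 * Real.log T ^ (1 / 3 : ℝ) ≤ Real.log T ^ (2 / 5 : ℝ) := by
    rw [← e1, e2]
    have h8 : Real.exp (Real.log (Real.log T) * (2 / 5)) =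
        Real.exp (Real.log (Real.log T) / 15) * Real.exp (1 / 3 * Real.log (Real.log T)) := by
      rw [← Real.exp_add]
      congr 1
      ring
    rw [h8]
    refine mul_le_mul_of_nonneg_right ?_ (Real.exp_pos _).le
    have := Real.add_one_le_exp (Real.log (Real.log T) / 15)
    linarith
  rw [e1] at h3 h5
  exact ⟨K, S, β, S', β', S2, β2, h1, h2, h3, h4,
    fun m hm => ⟨(h5 m hm).1, (h5 m hm).2.trans (Real.exp_le_exp.2 e3)⟩, h6, h7⟩

end Pool.Agent.Lib.MP_6bc78b_nt.GP.H19S
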