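import Pool.Agent.Lib.MP_6bc78b_nt.GP.H43.Defs10b
import Pool.Agent.Lib.MP_6bc78b_nt.GP.H81.Merk

/-! Project GP10 (MP_6bc78b_nt), row SCLB: the scales of primes and their product. -/

set_option autoImplicit false

namespace Pool.Agent.Lib.MP_6bc78b_nt.GP.H19S

open Finset ArithmeticFunction
open Pool.Agent.Lib.MP_6bc78b_nt.MS Pool.Agent.Lib.MP_6bc78b_nt.GP
open Pool.Agent.Lib.MP_6bc78b_nt.GP.G7

/-! ## The product over a finite set of scales -/

/-- the sum of `1/q` over `A` -/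
noncomputable def Wr (A : Finset ℕ) : ℝ := ∑ q ∈ A, 1 / (q : ℝ)

/-- `w n = 1/W` for `n` in `A` -/
noncomputable def wA (A : Finset ℕ) : ArithmeticFunction ℝ :=
  ⟨fun n => if n ∈ A ∧ n ≠ 0 then 1 / Wr A else 0, by simp⟩

/-- the coefficients of the product over the scales in `s` -/
noncomputable def betA (s : Finset ℕ) (Q : ℕ → Finset ℕ) : ArithmeticFunction ℝ :=
  ∏ k ∈ s, wA (Q k)

/-- disjoint sets of primes -/
structure Scls (s : Finset ℕ) (Q : ℕ → Finset ℕ) : Prop where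
  pr : ∀ k ∈ s, ∀ q ∈ Q k, q.Prime
  dj : ∀ k ∈ s, ∀ j ∈ s, k ≠ j → Disjoint (Q k) (Q j)
  pos : ∀ k ∈ s, 0 < Wr (Q k)

lemma wA_apply (A : Finset ℕ) (n : ℕ) : wA A n = if n ∈ A ∧ n ≠ 0 then 1 / Wr A else 0 := rfl

lemma Wr_nonneg (A : Finset ℕ) : 0 ≤ Wr A := Finset.sum_nonneg fun q _ => by positivity

lemma wA_nonneg (A : Finset ℕ) (n : ℕ) : 0 ≤ wA A n := by
  rw [wA_apply]
  split_ifs
  · have := Wr_nonneg A
    positivity
  · exact le_rfl

lemma mul_nonneg_af {f g : ArithmeticFunction ℝ} (hf : ∀ n, 0 ≤ f n) (hg : ∀ n, 0 ≤ g n) (n : ℕ) :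
    0 ≤ (f * g) n := by
  rw [ArithmeticFunction.mul_apply]
  exact Finset.sum_nonneg fun p _ => mul_nonneg (hf _) (hg _)

lemma betA_insert {s : Finset ℕ} {Q : ℕ → Finset ℕ} {k : ℕ} (hk : k ∉ s) :
    betA (insert k s) Q = wA (Q k) * betA s Q := by
  unfold betA
  rw [Finset.prod_insert hk]

lemma betA_nonneg (s : Finset ℕ) (Q : ℕ → Finset ℕ) (n : ℕ) : 0 ≤ betA s Q n := by
  induction s using Finset.induction_on generalizing n with
  | empty =>
    unfold betA
    rw [Finset.prod_empty, ArithmeticFunction.one_apply]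
    split_ifs <;> norm_num
  | insert k s hk ih =>
    rw [betA_insert hk]
    exact mul_nonneg_af (wA_nonneg _) ih n

lemma Scls.of_insert {s : Finset ℕ} {Q : ℕ → Finset ℕ} {k : ℕ} (h : Scls (insert k s) Q) :
    Scls s Q :=
  ⟨fun j hj => h.pr j (Finset.mem_insert_of_mem hj),
    fun i hi j hj => h.dj i (Finset.mem_insert_of_mem hi) j (Finset.mem_insert_of_mem hj),
    fun j hj => h.pos j (Finset.mem_insert_of_mem hj)⟩

lemma Scls.mono {s t : Finset ℕ} {Q : ℕ → Finset ℕ} (h : Scls s Q) (hts : t ⊆ s) : Scls t Q :=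
  ⟨fun j hj => h.pr j (hts hj), fun i hi j hj => h.dj i (hts hi) j (hts hj),
    fun j hj => h.pos j (hts hj)⟩

/-- a factorization of the support -/
lemma betA_split {s : Finset ℕ} {Q : ℕ → Finset ℕ} {k m : ℕ} (hk : k ∉ s)
    (hm : betA (insert k s) Q m ≠ 0) :
    m ≠ 0 ∧ ∃ q ∈ Q k, ∃ b, betA s Q b ≠ 0 ∧ q * b = m := by
  rw [betA_insert hk, ArithmeticFunction.mul_apply] at hm
  obtain ⟨p, hp, hne⟩ := Finset.exists_ne_zero_of_sum_ne_zero hm
  rw [Nat.mem_divisorsAntidiagonal] at hp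
  have h1 : wA (Q k) p.1 ≠ 0 := left_ne_zero_of_mul hne
  have h2 : betA s Q p.2 ≠ 0 := right_ne_zero_of_mul hne
  refine ⟨hp.2 ∘ fun e => ?_, p.1, ?_, p.2, h2, hp.1⟩
  · exact e
  · by_contra h4
    refine h1 ?_
    rw [wA_apply, if_neg]
    rintro ⟨h5, -⟩
    exact h4 h5

/-- the support of `β` -/
theorem betA_supp {s : Finset ℕ} {Q : ℕ → Finset ℕ} (h : Scls s Q) (X : ℕ → ℝ)
    (hX : ∀ k ∈ s, ∀ q ∈ Q k, Real.log q ≤ X k) (m : ℕ) (hm : betA s Q m ≠ 0) :
    m ≠ 0 ∧ Real.log m ≤ ∑ k ∈ s, X k := by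
  induction s using Finset.induction_on generalizing m with
  | empty =>
    unfold betA at hm
    rw [Finset.prod_empty, ArithmeticFunction.one_apply] at hm
    have h1 : m = 1 := by
      by_contra h2
      exact hm (if_neg h2)
    subst h1
    simp
  | insert k s hk ih =>
    have h' := h.of_insert
    have hpr := h.pr k (Finset.mem_insert_self _ _)
    obtain ⟨hm0, q, hq, b, hb, rfl⟩ := betA_split hk hm
    obtain ⟨h4, h5⟩ := ih h' (fun j hj => hX j (Finset.mem_insert_of_mem hj)) b hb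
    refine ⟨hm0, ?_⟩
    rw [Nat.cast_mul, Real.log_mul (Nat.cast_ne_zero.2 (hpr _ hq).ne_zero)
      (Nat.cast_ne_zero.2 h4), Finset.sum_insert hk]
    exact add_le_add (hX k (Finset.mem_insert_self _ _) _ hq) h5

/-- primes outside the scales do not divide the members of the support -/
theorem betA_cop {s : Finset ℕ} {Q : ℕ → Finset ℕ} (h : Scls s Q) (p : ℕ) (hp : p.Prime)
    (hps : ∀ k ∈ s, p ∉ Q k) (m : ℕ) (hm : betA s Q m ≠ 0) : ¬ p ∣ m := by
  induction s using Finset.induction_on generalizing m with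
  | empty =>
    unfold betA at hm
    rw [Finset.prod_empty, ArithmeticFunction.one_apply] at hm
    have h1 : m = 1 := by
      by_contra h2
      exact hm (if_neg h2)
    subst h1
    exact fun hd => hp.one_lt.ne' (Nat.dvd_one.1 hd)
  | insert k s hk ih =>
    have hpr := h.pr k (Finset.mem_insert_self _ _)
    obtain ⟨hm0, q, hq, b, hb, rfl⟩ := betA_split hk hm
    intro hd
    rcases (hp.dvd_mul).1 hd with h1 | h1
    · have : p = q := (Nat.prime_dvd_prime_iff_eq hp (hpr q hq)).1 h1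
      subst this
      exact hps k (Finset.mem_insert_self _ _) hq
    · exact ih h.of_insert (fun j hj => hps j (Finset.mem_insert_of_mem hj)) b hb h1

/-- every coefficient is at most the product of the `1/W` -/
theorem betA_le {s : Finset ℕ} {Q : ℕ → Finset ℕ} (h : Scls s Q) (m : ℕ) :
    betA s Q m ≤ ∏ k ∈ s, 1 / Wr (Q k) := by
  classical
  induction s using Finset.induction_on generalizing m with
  | empty =>
    unfold betA
    rw [Finset.prod_empty, ArithmeticFunction.one_apply, Finset.prod_empty]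
    split_ifs <;> norm_num
  | insert k s hk ih =>
    have h' := h.of_insert
    have hpr := h.pr k (Finset.mem_insert_self _ _)
    have hW := h.pos k (Finset.mem_insert_self _ _)
    have hP : 0 ≤ ∏ k ∈ s, 1 / Wr (Q k) := Finset.prod_nonneg fun j hj => by
      have := h'.pos j hj
      positivity
    rw [Finset.prod_insert hk]
    by_cases hm : betA (insert k s) Q m = 0
    · rw [hm]
      positivity
    · obtain ⟨hm0, q, hq, b, hb, rfl⟩ := betA_split hk hm
      rw [betA_insert hk, ArithmeticFunction.mul_apply]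
      have hone : ∀ p ∈ (q * b).divisorsAntidiagonal, p ≠ (q, b) →
          wA (Q k) p.1 * betA s Q p.2 = 0 := by
        intro p hp hne
        rw [Nat.mem_divisorsAntidiagonal] at hp
        by_contra hcon
        have h1 : wA (Q k) p.1 ≠ 0 := left_ne_zero_of_mul hcon
        have h3 : p.1 ∈ Q k := by
          by_contra h4
          refine h1 ?_
          rw [wA_apply, if_neg]
          rintro ⟨h5, -⟩
          exact h4 h5
        have h5 : ¬ p.1 ∣ b := by
          refine betA_cop h' p.1 (hpr _ h3) (fun j hj hqj => ?_) b hb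
          have h4 := h.dj k (Finset.mem_insert_self _ _) j (Finset.mem_insert_of_mem hj)
            (fun e => hk (e ▸ hj))
          exact Finset.disjoint_left.1 h4 h3 hqj
        have h6 : p.1 ∣ q * b := ⟨p.2, hp.1.symm⟩
        rcases ((hpr _ h3).dvd_mul).1 h6 with h7 | h7
        · have h8 : p.1 = q := (Nat.prime_dvd_prime_iff_eq (hpr _ h3) (hpr q hq)).1 h7
          have h9 : p.2 = b := by
            have := hp.1
            rw [h8] at this
            exact Nat.eq_of_mul_eq_mul_left (hpr q hq).pos this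
          exact hne (Prod.ext h8 h9)
        · exact h5 h7
      rw [Finset.sum_eq_single (q, b) hone (fun h7 =>
        absurd (Nat.mem_divisorsAntidiagonal.2 ⟨rfl, hm0⟩) h7)]
      simp only
      rw [wA_apply, if_pos ⟨hq, (hpr q hq).ne_zero⟩]
      exact mul_le_mul_of_nonneg_left (ih h' b) (by positivity)

/-- the support as a finite set -/
noncomputable def supp (N : ℕ) (s : Finset ℕ) (Q : ℕ → Finset ℕ) : Finset ℕ := by
  classical exact (Finset.Icc 1 N).filter fun m => betA s Q m ≠ 0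

lemma mem_supp {N : ℕ} {s : Finset ℕ} {Q : ℕ → Finset ℕ} {m : ℕ} :
    m ∈ supp N s Q ↔ (1 ≤ m ∧ m ≤ N) ∧ betA s Q m ≠ 0 := by
  unfold supp
  rw [Finset.mem_filter, Finset.mem_Icc]

/-- splitting off one scale -/
theorem fac {V : Type*} [AddCommGroup V] [Module ℝ V] {N : ℕ} {s : Finset ℕ}
    {Q : ℕ → Finset ℕ} {k : ℕ} (h : Scls (insert k s) Q) (hk : k ∉ s)
    (hN : ∀ m, betA (insert k s) Q m ≠ 0 → m ≤ N) (f : ℕ → V) :
    ∑ m ∈ supp N (insert k s) Q, betA (insert k s) Q m • f m =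
      (1 / Wr (Q k)) • ∑ q ∈ Q k, ∑ m ∈ supp N s Q, betA s Q m • f (q * m) := by
  classical
  have hW := h.pos k (Finset.mem_insert_self _ _)
  have hpr := h.pr k (Finset.mem_insert_self _ _)
  have hR : (1 / Wr (Q k)) • ∑ q ∈ Q k, ∑ m ∈ supp N s Q, betA s Q m • f (q * m) =
      ∑ p ∈ Q k ×ˢ supp N s Q, (wA (Q k) p.1 * betA s Q p.2) • f (p.1 * p.2) := by
    rw [Finset.sum_product, Finset.smul_sum]
    refine Finset.sum_congr rfl fun q hq => ?_
    rw [Finset.smul_sum]
    refine Finset.sum_congr rfl fun m _ => ?_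
    simp only
    rw [wA_apply, if_pos ⟨hq, (hpr q hq).ne_zero⟩, mul_smul]
  have hmaps : ∀ p ∈ Q k ×ˢ supp N s Q, p.1 * p.2 ∈ supp N (insert k s) Q := by
    intro p hp
    rw [Finset.mem_product, mem_supp] at hp
    obtain ⟨hp1, ⟨hp2, -⟩, hp3⟩ := hp
    have h1 : p.1 * p.2 ≠ 0 := Nat.mul_ne_zero (hpr _ hp1).ne_zero (by omega)
    have h2 : betA (insert k s) Q (p.1 * p.2) ≠ 0 := by
      rw [betA_insert hk, ArithmeticFunction.mul_apply]
      have h3 : 0 < wA (Q k) p.1 * betA s Q p.2 := by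
        refine mul_pos ?_ (lt_of_le_of_ne (betA_nonneg _ _ _) hp3.symm)
        rw [wA_apply, if_pos ⟨hp1, (hpr _ hp1).ne_zero⟩]
        positivity
      have h4 := Finset.single_le_sum (f := fun x : ℕ × ℕ => wA (Q k) x.1 * betA s Q x.2)
        (fun x _ => mul_nonneg (wA_nonneg _ _) (betA_nonneg _ _ _))
        (Nat.mem_divisorsAntidiagonal.2 ⟨rfl, h1⟩ : (p.1, p.2) ∈ (p.1 * p.2).divisorsAntidiagonal)
      exact (lt_of_lt_of_le h3 h4).ne'
    rw [mem_supp]
    exact ⟨⟨Nat.one_le_iff_ne_zero.2 h1, hN _ h2⟩, h2⟩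
  rw [hR, ← Finset.sum_fiberwise_of_maps_to (g := fun p : ℕ × ℕ => p.1 * p.2) hmaps]
  refine Finset.sum_congr rfl fun m hm => ?_
  rw [mem_supp] at hm
  have hm0 : m ≠ 0 := by omega
  rw [betA_insert hk, ArithmeticFunction.mul_apply, Finset.sum_smul]
  symm
  have hsub : (Q k ×ˢ supp N s Q).filter (fun p => p.1 * p.2 = m) ⊆ m.divisorsAntidiagonal := by
    intro p hp
    rw [Finset.mem_filter] at hp
    exact Nat.mem_divisorsAntidiagonal.2 ⟨hp.2, hm0⟩
  rw [← Finset.sum_subset hsub]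
  · refine Finset.sum_congr rfl fun p hp => ?_
    rw [Finset.mem_filter] at hp
    rw [hp.2]
  · intro p hp hpn
    rw [Nat.mem_divisorsAntidiagonal] at hp
    by_cases h1 : p.1 ∈ Q k
    · by_cases h2 : betA s Q p.2 = 0
      · rw [h2, mul_zero, zero_smul]
      · refine absurd ?_ hpn
        rw [Finset.mem_filter, Finset.mem_product, mem_supp]
        have h3 : p.2 ≠ 0 := by
          intro e
          exact hm0 (by rw [← hp.1, e, mul_zero])
        have h4 : p.2 ≤ m := by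
          rw [← hp.1]
          exact Nat.le_mul_of_pos_left _ (hpr _ h1).pos
        exact ⟨⟨h1, ⟨Nat.one_le_iff_ne_zero.2 h3, h4.trans hm.1.2⟩, h2⟩, hp.1⟩
    · rw [wA_apply, if_neg (fun h5 => h1 h5.1), zero_mul, zero_smul]

lemma supp_empty {N : ℕ} (hN : 1 ≤ N) (Q : ℕ → Finset ℕ) : supp N ∅ Q = {1} := by
  ext m
  rw [mem_supp, Finset.mem_singleton]
  unfold betA
  rw [Finset.prod_empty, ArithmeticFunction.one_apply]
  constructor
  · rintro ⟨-, h⟩
    by_contra h2
    exact h (if_neg h2)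
  · rintro rfl
    simp [hN]

/-- `∑ β(m)/m = 1` -/
theorem sum_one {N : ℕ} (hN1 : 1 ≤ N) {s : Finset ℕ} {Q : ℕ → Finset ℕ} (h : Scls s Q)
    (hN : ∀ t ⊆ s, ∀ m, betA t Q m ≠ 0 → m ≤ N) :
    ∑ m ∈ supp N s Q, betA s Q m • (1 / (m : ℝ)) = 1 := by
  induction s using Finset.induction_on with
  | empty =>
    rw [supp_empty hN1]
    simp [betA]
  | insert k s hk ih =>
    have hW := h.pos k (Finset.mem_insert_self _ _)
    rw [fac h hk (hN _ (Finset.Subset.refl _))]
    have h1 : ∀ q ∈ Q k, ∑ m ∈ supp N s Q, betA s Q m • (1 / ((q * m : ℕ) : ℝ)) = 1 / (q : ℝ) := by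
      intro q _
      have h2 := ih h.of_insert (fun t ht => hN t (ht.trans (Finset.subset_insert _ _)))
      calc ∑ m ∈ supp N s Q, betA s Q m • (1 / ((q * m : ℕ) : ℝ))
          = (1 / (q : ℝ)) * ∑ m ∈ supp N s Q, betA s Q m • (1 / (m : ℝ)) := by
            rw [Finset.mul_sum]
            refine Finset.sum_congr rfl fun m _ => ?_
            push_cast
            rw [smul_eq_mul, smul_eq_mul, ← one_div_mul_one_div]
            ring
        _ = 1 / (q : ℝ) := by rw [h2, mul_one]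
    rw [Finset.sum_congr rfl h1, smul_eq_mul]
    change 1 / Wr (Q k) * Wr (Q k) = 1
    field_simp

/-- the kernel `(m, m') / (m m')`, i.e. `1 / [m, m']` -/
noncomputable def ker (m m' : ℕ) : ℝ := (Nat.gcd m m' : ℝ) / ((m : ℝ) * m')

lemma ker_eq (m m' : ℕ) (hm : m ≠ 0) (hm' : m' ≠ 0) : ker m m' = 1 / (Nat.lcm m m' : ℝ) := by
  unfold ker
  have h1 : (Nat.gcd m m' : ℝ) * (Nat.lcm m m' : ℝ) = (m : ℝ) * m' := by
    exact_mod_cast Nat.gcd_mul_lcm m m'
  have h2 : (Nat.lcm m m' : ℝ) ≠ 0 := Nat.cast_ne_zero.2 (Nat.lcm_ne_zero hm hm')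
  have h3 : (m : ℝ) * m' ≠ 0 := mul_ne_zero (Nat.cast_ne_zero.2 hm) (Nat.cast_ne_zero.2 hm')
  rw [div_eq_div_iff h3 h2, one_mul]
  exact h1

lemma ker_mul (q q' m m' : ℕ) (h1 : Nat.Coprime q m') (h2 : Nat.Coprime q' m)
    (h3 : Nat.Coprime q' m') : ker (q * m) (q' * m') = ker q q' * ker m m' := by
  unfold ker
  have e1 : Nat.gcd (q * m) (q' * m') = Nat.gcd q q' * Nat.gcd m m' := by
    rw [Nat.Coprime.gcd_mul _ h3, Nat.Coprime.gcd_mul_right_cancel _ h2.symm,
      Nat.Coprime.gcd_mul_left_cancel _ h1]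
  rw [e1]
  push_cast
  rw [div_mul_div_comm]
  congr 1
  ring

lemma ker_sum {A : Finset ℕ} (hA : ∀ q ∈ A, q.Prime) :
    ∑ q ∈ A, ∑ q' ∈ A, ker q q' ≤ Wr A * Wr A + Wr A := by
  have h1 : ∀ q ∈ A, ∀ q' ∈ A, ker q q' ≤
      1 / (q : ℝ) * (1 / (q' : ℝ)) + if q = q' then 1 / (q : ℝ) else 0 := by
    intro q hq q' hq'
    have hq0 : (0 : ℝ) < q := by exact_mod_cast (hA q hq).pos
    have hq0' : (0 : ℝ) < q' := by exact_mod_cast (hA q' hq').pos
    by_cases e : q = q'
    · subst e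
      rw [if_pos rfl]
      unfold ker
      rw [Nat.gcd_self]
      have : (q : ℝ) / ((q : ℝ) * q) = 1 / q := by field_simp
      rw [this]
      have : 0 ≤ 1 / (q : ℝ) * (1 / (q : ℝ)) := by positivity
      linarith
    · rw [if_neg e, add_zero]
      unfold ker
      have h2 : Nat.gcd q q' = 1 := (Nat.coprime_primes (hA q hq) (hA q' hq')).2 e
      rw [h2, Nat.cast_one, one_div_mul_one_div]
  calc ∑ q ∈ A, ∑ q' ∈ A, ker q q'
      ≤ ∑ q ∈ A, ∑ q' ∈ A, (1 / (q : ℝ) * (1 / (q' : ℝ)) + if q = q' then 1 / (q : ℝ) else 0) :=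
        Finset.sum_le_sum fun q hq => Finset.sum_le_sum fun q' hq' => h1 q hq q' hq'
    _ = Wr A * Wr A + Wr A := by
        simp_rw [Finset.sum_add_distrib]
        congr 1
        · unfold Wr
          rw [Finset.sum_mul_sum]
        · unfold Wr
          refine Finset.sum_congr rfl fun q hq => ?_
          rw [Finset.sum_ite_eq, if_pos hq]

/-- the double sum -/
theorem sum_ker {N : ℕ} (hN1 : 1 ≤ N) {s : Finset ℕ} {Q : ℕ → Finset ℕ} (h : Scls s Q)
    (hN : ∀ t ⊆ s, ∀ m, betA t Q m ≠ 0 → m ≤ N) :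
    ∑ m ∈ supp N s Q, betA s Q m • ∑ m' ∈ supp N s Q, betA s Q m' • ker m m' ≤
      ∏ k ∈ s, (1 + 1 / Wr (Q k)) := by
  induction s using Finset.induction_on with
  | empty =>
    rw [supp_empty hN1]
    simp [betA, ker]
  | insert k s hk ih =>
    have h' := h.of_insert
    have hW := h.pos k (Finset.mem_insert_self _ _)
    have hpr := h.pr k (Finset.mem_insert_self _ _)
    have hNs := hN _ (Finset.Subset.refl _)
    have ih' := ih h' (fun t ht => hN t (ht.trans (Finset.subset_insert _ _)))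
    have hcop : ∀ q ∈ Q k, ∀ m ∈ supp N s Q, Nat.Coprime q m := by
      intro q hq m hm
      rw [mem_supp] at hm
      rw [Nat.Prime.coprime_iff_not_dvd (hpr q hq)]
      refine betA_cop h' q (hpr q hq) (fun j hj hqj => ?_) m hm.2
      have h4 := h.dj k (Finset.mem_insert_self _ _) j (Finset.mem_insert_of_mem hj)
        (fun e => hk (e ▸ hj))
      exact Finset.disjoint_left.1 h4 hq hqj
    have hin : ∀ m, ∑ m' ∈ supp N (insert k s) Q, betA (insert k s) Q m' • ker m m' =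
        (1 / Wr (Q k)) • ∑ q' ∈ Q k, ∑ m' ∈ supp N s Q, betA s Q m' • ker m (q' * m') :=
      fun m => fac h hk hNs (fun m' => ker m m')
    simp_rw [hin]
    rw [fac h hk hNs, Finset.prod_insert hk]
    set P := ∏ k ∈ s, (1 + 1 / Wr (Q k)) with hP
    set G := ∑ m ∈ supp N s Q, betA s Q m • ∑ m' ∈ supp N s Q, betA s Q m' • ker m m' with hG
    have h1 : ∀ q ∈ Q k, ∑ m ∈ supp N s Q, betA s Q m •
        ((1 / Wr (Q k)) • ∑ q' ∈ Q k, ∑ m' ∈ supp N s Q, betA s Q m' • ker (q * m) (q' * m')) =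
        (1 / Wr (Q k)) * ((∑ q' ∈ Q k, ker q q') * G) := by
      intro q hq
      calc ∑ m ∈ supp N s Q, betA s Q m •
            ((1 / Wr (Q k)) • ∑ q' ∈ Q k, ∑ m' ∈ supp N s Q, betA s Q m' • ker (q * m) (q' * m'))
          = ∑ m ∈ supp N s Q, betA s Q m * ((1 / Wr (Q k)) * ((∑ q' ∈ Q k, ker q q') *
              ∑ m' ∈ supp N s Q, betA s Q m' * ker m m')) := by
            refine Finset.sum_congr rfl fun m hm => ?_
            rw [smul_eq_mul, smul_eq_mul]
            congr 2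
            rw [Finset.sum_mul_sum]
            refine Finset.sum_congr rfl fun q' hq' => Finset.sum_congr rfl fun m' hm' => ?_
            rw [smul_eq_mul, ker_mul q q' m m' (hcop q hq m' hm') (hcop q' hq' m hm)
              (hcop q' hq' m' hm')]
            ring
        _ = (1 / Wr (Q k)) * ((∑ q' ∈ Q k, ker q q') * G) := by
            rw [hG, Finset.mul_sum, Finset.mul_sum]
            refine Finset.sum_congr rfl fun m _ => ?_
            simp only [smul_eq_mul]
            ring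
    rw [Finset.sum_congr rfl h1, ← Finset.mul_sum, ← Finset.sum_mul, smul_eq_mul]
    have h2 := ker_sum hpr
    have hG0 : 0 ≤ G := by
      refine Finset.sum_nonneg fun m _ => ?_
      rw [smul_eq_mul]
      refine mul_nonneg (betA_nonneg _ _ _) (Finset.sum_nonneg fun m' _ => ?_)
      rw [smul_eq_mul]
      refine mul_nonneg (betA_nonneg _ _ _) ?_
      unfold ker
      positivity
    have h3 : (∑ q ∈ Q k, ∑ q' ∈ Q k, ker q q') * G ≤ (Wr (Q k) * Wr (Q k) + Wr (Q k)) * P :=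
      mul_le_mul h2 ih' hG0 (by positivity)
    calc 1 / Wr (Q k) * (1 / Wr (Q k) * ((∑ q ∈ Q k, ∑ q' ∈ Q k, ker q q') * G))
        ≤ 1 / Wr (Q k) * (1 / Wr (Q k) * ((Wr (Q k) * Wr (Q k) + Wr (Q k)) * P)) := by
          refine mul_le_mul_of_nonneg_left (mul_le_mul_of_nonneg_left h3 (by positivity))
            (by positivity)
      _ = (1 + 1 / Wr (Q k)) * P := by
          field_simp

/-! ## The scales -/

open G10 in
/-- the conditions on a polynomial for a set of scales -/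
theorem mol_of {N : ℕ} {X ν : ℝ} (hN1 : 1 ≤ N) (hNX : (N : ℝ) ≤ X) {s : Finset ℕ}
    {Q : ℕ → Finset ℕ} (h : Scls s Q) (hN : ∀ t ⊆ s, ∀ m, betA t Q m ≠ 0 → m ≤ N)
    (hν : ∏ k ∈ s, (1 + 1 / Wr (Q k)) ≤ 1 + ν) : Mol (supp N s Q) (betA s Q) X ν where
  one_le m hm := (mem_supp.1 hm).1.1
  le m hm := (Nat.cast_le.2 (mem_supp.1 hm).1.2).trans hNX
  nonneg := betA_nonneg s Q
  sum_one := by
    rw [← sum_one hN1 h hN]
    refine Finset.sum_congr rfl fun m _ => ?_
    rw [smul_eq_mul, mul_one_div]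
  sum_lcm := by
    refine le_trans (le_of_eq ?_) ((sum_ker hN1 h hN).trans hν)
    refine Finset.sum_congr rfl fun m hm => ?_
    rw [smul_eq_mul, Finset.mul_sum]
    refine Finset.sum_congr rfl fun m' hm' => ?_
    rw [mem_supp] at hm hm'
    rw [ker_eq m m' (by omega) (by omega), smul_eq_mul, mul_one_div, mul_div_assoc]

lemma mem_qs {P Q : ℝ} (hQ : 0 ≤ Q) {q : ℕ} : q ∈ qs P Q ↔ (q : ℝ) ≤ Q ∧ q.Prime ∧ P < q := by
  unfold qs
  rw [Finset.mem_filter, Finset.mem_range, Nat.lt_succ_iff, Nat.le_floor_iff hQ]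

open G10 in
lemma mem_Qk {w : ℝ} {k q : ℕ} : q ∈ Qk w k ↔
    (q : ℝ) ≤ Real.exp (pk w (k + 1)) ∧ q.Prime ∧ Real.exp (pk w k) < q :=
  mem_qs (Real.exp_pos _).le

open G10 in
lemma pk_mono {w : ℝ} (hw : 0 ≤ w) {j k : ℕ} (h : j ≤ k) : pk w j ≤ pk w k := by
  unfold pk
  refine Real.exp_le_exp.2 (mul_le_mul_of_nonneg_left ?_ hw)
  exact pow_le_pow_right₀ (by norm_num) h

open G10 in
lemma Qk_disj {w : ℝ} (hw : 0 ≤ w) {j k : ℕ} (h : j < k) : Disjoint (Qk w j) (Qk w k) := by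
  rw [Finset.disjoint_left]
  intro q h1 h2
  rw [mem_Qk] at h1 h2
  have h3 := Real.exp_le_exp.2 (pk_mono hw (Nat.succ_le_of_lt h))
  have h4 : (q : ℝ) < q := (h1.1.trans h3).trans_lt h2.2.2
  exact lt_irrefl _ h4

open G10 in
lemma Wk_ge {c P0 : ℝ} (hc : 0 < c) (hM : ∀ (P : ℝ) (K : ℕ), P0 ≤ P → 1 ≤ K →
    c * Real.log K ≤ Wq P (P ^ K)) {w : ℝ} (hw : 2 ≤ w) (hwP : P0 ≤ w) (k : ℕ) :
    c * w / 2 * 2 ^ k ≤ Wk w k := by
  have h1 : (1 : ℝ) ≤ 2 ^ k := one_le_pow₀ (by norm_num)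
  have hx : w ≤ w * 2 ^ k := by nlinarith
  have hp1 : w * 2 ^ k + 1 ≤ pk w k := Real.add_one_le_exp _
  have hp2 : 2 ≤ pk w k := by linarith
  have hpp := pk_pos w k
  have hP : P0 ≤ Real.exp (pk w k) := by
    have := Real.add_one_le_exp (pk w k)
    linarith
  have hn1 : 1 ≤ ⌊pk w k⌋₊ := Nat.le_floor (by push_cast; linarith)
  have h2 := hM (Real.exp (pk w k)) ⌊pk w k⌋₊ hP hn1
  have h3 : Real.exp (pk w k) ^ ⌊pk w k⌋₊ ≤ Real.exp (pk w (k + 1)) := by
    rw [← Real.exp_nat_mul, pk_succ, sq]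
    refine Real.exp_le_exp.2 (mul_le_mul_of_nonneg_right ?_ hpp.le)
    exact Nat.floor_le hpp.le
  have h4 : Wq (Real.exp (pk w k)) (Real.exp (pk w k) ^ ⌊pk w k⌋₊) ≤ Wk w k := by
    unfold Wk Wq
    refine Finset.sum_le_sum_of_subset_of_nonneg ?_ fun q _ _ => by positivity
    intro q hq
    rw [mem_qs (by positivity)] at hq ⊢
    exact ⟨hq.1.trans h3, hq.2⟩
  have h5 : w * 2 ^ k / 2 ≤ Real.log ⌊pk w k⌋₊ := by
    have h6 : pk w k / 2 ≤ ⌊pk w k⌋₊ := by
      have := Nat.lt_floor_add_one (pk w k)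
      linarith
    have h7 := Real.log_le_log (by positivity) h6
    rw [Real.log_div hpp.ne' (by norm_num)] at h7
    have h8 : Real.log (pk w k) = w * 2 ^ k := by
      unfold pk
      exact Real.log_exp _
    have h9 := Real.log_two_lt_d9
    rw [h8] at h7
    linarith
  calc c * w / 2 * 2 ^ k = c * (w * 2 ^ k / 2) := by ring
    _ ≤ c * Real.log ⌊pk w k⌋₊ := mul_le_mul_of_nonneg_left h5 hc.le
    _ ≤ _ := h2.trans h4

open G10 in
lemma sum_pk {w : ℝ} (hw : 2 ≤ w) (n : ℕ) : ∑ k ∈ Finset.range n, pk w (k + 1) ≤ 2 * pk w n := by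
  induction n with
  | zero =>
    rw [Finset.sum_range_zero]
    have := pk_pos w 0
    positivity
  | succ n ih =>
    rw [Finset.sum_range_succ]
    have h1 : 2 * pk w n ≤ pk w (n + 1) := by
      rw [pk_succ, sq]
      refine mul_le_mul_of_nonneg_right ?_ (pk_pos w n).le
      have h2 : pk w 0 ≤ pk w n := pk_mono (by linarith) (Nat.zero_le n)
      have h3 : w * 2 ^ 0 + 1 ≤ pk w 0 := Real.add_one_le_exp _
      rw [pow_zero, mul_one] at h3
      linarith
    linarith

open G10 in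
/-- **Row SCLB.** -/
theorem sclb : SCLBStatement := by
  obtain ⟨c, P0, hc, hP0, hM⟩ := H81.merk
  intro ν hν
  have hlν : 0 < Real.log (1 + ν) := Real.log_pos (by linarith)
  have hcl : 0 < c * Real.log (1 + ν) := mul_pos hc hlν
  have h2c : 0 < 2 / c := by positivity
  have h4c : 0 < 4 / (c * Real.log (1 + ν)) := by positivity
  have h2cn : 0 < 2 / (c * ν) := by positivity
  obtain ⟨w, hw⟩ : ∃ w : ℝ, 2 + P0 + 2 / c + 4 / (c * Real.log (1 + ν)) + 2 / (c * ν) = w :=
    ⟨_, rfl⟩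
  have hw2 : 2 ≤ w := by linarith
  refine ⟨w, hw2, ?_⟩
  have hw0 : 0 ≤ w := by linarith
  have hwP : P0 ≤ w := by linarith
  have hwc : 2 / c ≤ w := by linarith
  have hwn : 4 / (c * Real.log (1 + ν)) ≤ w := by linarith
  have hcw : 2 ≤ c * w := by
    rw [div_le_iff₀ hc] at hwc
    linarith
  have hcw0 : 0 < c * w := by linarith
  -- the sums `W`
  have hWk : ∀ k, c * w / 2 * 2 ^ k ≤ Wk w k := fun k => Wk_ge hc hM hw2 hwP k
  have hW1 : ∀ k, 1 ≤ Wk w k := by
    intro k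
    have h1 : (1 : ℝ) ≤ 2 ^ k := one_le_pow₀ (by norm_num)
    have h2 := hWk k
    nlinarith
  have hWr : ∀ k, Wk w k = Wr (Qk w k) := fun _ => rfl
  have hW0 : 1 / Wk w 0 ≤ ν := by
    have h1 := hWk 0
    rw [pow_zero, mul_one] at h1
    have h2 : 2 / (c * ν) ≤ w := by linarith
    rw [div_le_iff₀ (by positivity)] at h2
    have h3 : 0 < Wk w 0 := by linarith [hW1 0]
    rw [div_le_iff₀ h3]
    nlinarith
  have hprod : ∀ t : Finset ℕ, ∏ k ∈ t, (1 + 1 / Wr (Qk w k)) ≤ 1 + ν := by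
    intro t
    have h1 : ∀ k, 1 / Wr (Qk w k) ≤ 2 / (c * w) * (1 / 2) ^ k := by
      intro k
      rw [← hWr]
      have h3 := hWk k
      have h4 : 0 < c * w / 2 * 2 ^ k := by positivity
      calc 1 / Wk w k ≤ 1 / (c * w / 2 * 2 ^ k) := one_div_le_one_div_of_le h4 h3
        _ = 2 / (c * w) * (1 / 2) ^ k := by
          rw [div_pow, one_pow]
          field_simp
    have h2 : ∏ k ∈ t, (1 + 1 / Wr (Qk w k)) ≤ Real.exp (∑ k ∈ t, 2 / (c * w) * (1 / 2) ^ k) := by
      rw [Real.exp_sum]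
      refine Finset.prod_le_prod (fun k _ => ?_) fun k _ => ?_
      · have := Wr_nonneg (Qk w k)
        positivity
      · have := Real.add_one_le_exp (2 / (c * w) * (1 / 2 : ℝ) ^ k)
        linarith [h1 k]
    have h3 : ∑ k ∈ t, 2 / (c * w) * (1 / 2 : ℝ) ^ k ≤ Real.log (1 + ν) := by
      have h4 : ∑ k ∈ t, (1 / 2 : ℝ) ^ k ≤ 2 := by
        have h5 : t ⊆ Finset.range (t.sup id + 1) := by
          intro k hk
          rw [Finset.mem_range, Nat.lt_succ_iff]
          exact Finset.le_sup (f := id) hk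
        exact (Finset.sum_le_sum_of_subset_of_nonneg h5 fun k _ _ => by positivity).trans
          (sum_geometric_two_le _)
      rw [← Finset.mul_sum]
      calc 2 / (c * w) * ∑ k ∈ t, (1 / 2 : ℝ) ^ k ≤ 2 / (c * w) * 2 :=
            mul_le_mul_of_nonneg_left h4 (by positivity)
        _ = 4 / (c * w) := by ring
        _ ≤ Real.log (1 + ν) := by
            rw [div_le_iff₀ hcl] at hwn
            rw [div_le_iff₀ hcw0]
            linarith
    calc _ ≤ _ := h2
      _ ≤ Real.exp (Real.log (1 + ν)) := Real.exp_le_exp.2 h3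
      _ = 1 + ν := Real.exp_log (by linarith)
  have hScls : ∀ t : Finset ℕ, Scls t (Qk w) := by
    intro t
    refine ⟨fun k _ q hq => (mem_Qk.1 hq).2.1, fun k _ j _ hkj => ?_, fun k _ => ?_⟩
    · rcases lt_or_gt_of_ne hkj with h1 | h1
      · exact Qk_disj hw0 h1
      · exact (Qk_disj hw0 h1).symm
    · rw [← hWr]
      linarith [hW1 k]
  -- the size of `T`
  set L0 : ℝ := 2 * 1200 ^ 4 + Real.exp w with hL0
  refine ⟨max 11 (Real.exp (Real.exp L0)), lt_of_lt_of_le (by norm_num) (le_max_left _ _), ?_⟩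
  intro T hT
  have hTe : Real.exp (Real.exp L0) ≤ T := (le_max_right _ _).trans hT
  have hT0 : 0 < T := (Real.exp_pos _).trans_le hTe
  have hl1 : Real.exp L0 ≤ Real.log T := (Real.le_log_iff_exp_le hT0).2 hTe
  have hl : L0 ≤ Real.log (Real.log T) :=
    (Real.le_log_iff_exp_le ((Real.exp_pos _).trans_le hl1)).2 hl1
  set l : ℝ := Real.log (Real.log T) with hl'
  have hew : 0 < Real.exp w := Real.exp_pos w
  have hl2 : 2 * 1200 ^ 4 ≤ l := by linarith
  have hl3 : Real.exp w ≤ l := by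
    have : (0 : ℝ) < 2 * 1200 ^ 4 := by norm_num
    linarith
  have hl0 : 0 < l := by linarith
  -- the number of scales
  have hex : ∃ k : ℕ, 1200 * l ≤ pk w k := by
    obtain ⟨n, hn⟩ := pow_unbounded_of_one_lt (1200 * l) (show (1 : ℝ) < 2 by norm_num)
    refine ⟨n, hn.le.trans ?_⟩
    have h1 : w * 2 ^ n + 1 ≤ pk w n := Real.add_one_le_exp _
    have h2 : (0 : ℝ) < 2 ^ n := by positivity
    nlinarith
  classical
  obtain ⟨K, hK, hKmin⟩ : ∃ K : ℕ, 1200 * l ≤ pk w K ∧ ∀ j < K, pk w j < 1200 * l :=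
    ⟨Nat.find hex, Nat.find_spec hex, fun j hj => not_le.1 (Nat.find_min hex hj)⟩
  have hK0 : K ≠ 0 := by
    rintro rfl
    have h1 : pk w 0 = Real.exp w := by
      unfold pk
      rw [pow_zero, mul_one]
    rw [h1] at hK
    linarith
  have hKup : pk w K ≤ (1200 * l) ^ 2 := by
    obtain ⟨j, rfl⟩ := Nat.exists_eq_succ_of_ne_zero hK0
    have h1 := hKmin j (Nat.lt_succ_self j)
    rw [Nat.succ_eq_add_one, pk_succ]
    exact pow_le_pow_left₀ (pk_pos w j).le h1.le 2
  have hsum : ∑ k ∈ Finset.range (K + 1), pk w (k + 1) ≤ l ^ 5 := by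
    refine (sum_pk hw2 (K + 1)).trans ?_
    rw [pk_succ]
    have h1 : pk w K ^ 2 ≤ ((1200 * l) ^ 2) ^ 2 := pow_le_pow_left₀ (pk_pos w K).le hKup 2
    have h2 : 2 * 1200 ^ 4 * l ^ 4 ≤ l * l ^ 4 := mul_le_mul_of_nonneg_right hl2 (by positivity)
    calc 2 * pk w K ^ 2 ≤ 2 * ((1200 * l) ^ 2) ^ 2 := by linarith
      _ = 2 * 1200 ^ 4 * l ^ 4 := by ring
      _ ≤ l * l ^ 4 := h2
      _ = l ^ 5 := by ring
  set X : ℝ := Real.exp (l ^ 5) with hX
  have hX1 : 1 ≤ X := Real.one_le_exp (by positivity)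
  set N : ℕ := ⌊X⌋₊ with hNdef
  have hN1 : 1 ≤ N := Nat.le_floor (by push_cast; exact hX1)
  have hNX : (N : ℝ) ≤ X := Nat.floor_le (by linarith)
  have hN : ∀ t ⊆ Finset.range (K + 1), ∀ m, betA t (Qk w) m ≠ 0 → m ≤ N := by
    intro t ht m hm
    obtain ⟨hm0, h1⟩ := betA_supp (hScls t) (fun k => pk w (k + 1)) (fun k _ q hq => by
      rw [mem_Qk] at hq
      have hq0 : (0 : ℝ) < q := by exact_mod_cast hq.2.1.pos
      exact (Real.log_le_iff_le_exp hq0).2 hq.1) m hm
    have h2 : Real.log m ≤ l ^ 5 := h1.trans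
      ((Finset.sum_le_sum_of_subset_of_nonneg ht fun k _ _ => (pk_pos w _).le).trans hsum)
    have hm0' : (0 : ℝ) < m := by exact_mod_cast Nat.pos_of_ne_zero hm0
    exact Nat.le_floor ((Real.log_le_iff_le_exp hm0').1 h2)
  refine ⟨K, supp N (Finset.range (K + 1)) (Qk w), betA (Finset.range (K + 1)) (Qk w),
    fun k => supp N ((Finset.range (K + 1)).erase k) (Qk w),
    fun k => betA ((Finset.range (K + 1)).erase k) (Qk w), hK, hKup, ?_, ?_, ?_, ?_, ?_⟩
  · exact mol_of hN1 hNX (hScls _) hN (hprod _)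
  · intro k _
    exact mol_of hN1 hNX (hScls _) (fun t ht => hN t (ht.trans (Finset.erase_subset _ _)))
      (hprod _)
  · intro k _
    exact hW1 k
  · intro k hk f
    have hkm : k ∈ Finset.range (K + 1) := Finset.mem_range.2 (by omega)
    have hins : insert k ((Finset.range (K + 1)).erase k) = Finset.range (K + 1) :=
      Finset.insert_erase hkm
    have h1 := fac (V := ℂ) (N := N) (s := (Finset.range (K + 1)).erase k) (Q := Qk w) (k := k)
      (by rw [hins]; exact hScls _) (Finset.notMem_erase _ _)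
      (by rw [hins]; exact hN _ (Finset.Subset.refl _)) f
    rw [hins] at h1
    simp only [Complex.real_smul] at h1
    rw [h1, ← hWr]
    push_cast
    rfl
  · have hm := mol_of hN1 hNX (hScls (Finset.range (K + 1))) hN (hprod _)
    have hle : ∀ m, betA (Finset.range (K + 1)) (Qk w) m ≤ ν := by
      intro m
      refine (betA_le (hScls _) m).trans (le_trans ?_ hW0)
      rw [← Finset.insert_erase (Finset.mem_range.2 (Nat.succ_pos K) : 0 ∈ Finset.range (K + 1)),
        Finset.prod_insert (Finset.notMem_erase _ _), ← hWr]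
      have h3 : 0 < Wk w 0 := by linarith [hW1 0]
      have h4 : ∏ k ∈ (Finset.range (K + 1)).erase 0, 1 / Wr (Qk w k) ≤ 1 := by
        refine Finset.prod_le_one (fun k _ => ?_) fun k _ => ?_
        · rw [← hWr]
          have := hW1 k
          positivity
        · rw [← hWr, div_le_one (by linarith [hW1 k])]
          exact hW1 k
      calc 1 / Wk w 0 * ∏ k ∈ (Finset.range (K + 1)).erase 0, 1 / Wr (Qk w k)
          ≤ 1 / Wk w 0 * 1 := mul_le_mul_of_nonneg_left h4 (by positivity)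
        _ = 1 / Wk w 0 := mul_one _
    calc ∑ m ∈ supp N (Finset.range (K + 1)) (Qk w),
          betA (Finset.range (K + 1)) (Qk w) m ^ 2 / m
        ≤ ∑ m ∈ supp N (Finset.range (K + 1)) (Qk w),
          ν * (betA (Finset.range (K + 1)) (Qk w) m / m) := by
          refine Finset.sum_le_sum fun m _ => ?_
          rw [sq, mul_div_assoc]
          exact mul_le_mul_of_nonneg_right (hle m)
            (div_nonneg (betA_nonneg _ _ _) (Nat.cast_nonneg _))
      _ = ν := by rw [← Finset.mul_sum, hm.sum_one, mul_one]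

end Pool.Agent.Lib.MP_6bc78b_nt.GP.H19S
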