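import Pool.Agent.Lib.MP_6bc78b_nt.GP.H19.Sclx
import Pool.Agent.Lib.MP_6bc78b_nt.GP.H43.Defs10t

/-! Project GP10 (MP_6bc78b_nt), row SCLT: the scales with additional blocks of primes. -/

set_option autoImplicit false

namespace Pool.Agent.Lib.MP_6bc78b_nt.GP.H19S

open G10

/-- **Row SCLT.** -/
theorem sclt : SCLTStatement := by
  intro ν η hν hη
  obtain ⟨w, hw, l0, hl0, H⟩ := sclx ν hν
  refine ⟨w, hw, ?_⟩
  obtain ⟨L0, hL0⟩ : ∃ L0 : ℝ, l0 + 2 * |Real.log η| + 1 = L0 := ⟨_, rfl⟩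
  refine ⟨max 11 (Real.exp (Real.exp L0)), lt_of_lt_of_le (by norm_num) (le_max_left _ _), ?_⟩
  intro T hT
  have hTe : Real.exp (Real.exp L0) ≤ T := (le_max_right _ _).trans hT
  have hT0 : 0 < T := (Real.exp_pos _).trans_le hTe
  have hl1 : Real.exp L0 ≤ Real.log T := (Real.le_log_iff_exp_le hT0).2 hTe
  have hLT : 0 < Real.log T := (Real.exp_pos _).trans_le hl1
  have hl : L0 ≤ Real.log (Real.log T) := (Real.le_log_iff_exp_le hLT).2 hl1
  have habs := abs_nonneg (Real.log η)
  obtain ⟨K, S, β, S', β', h1, h2, h3, h4⟩ := H (Real.log (Real.log T)) (by linarith)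
  have hX : Real.exp (Real.exp (Real.log (Real.log T) / 2)) ≤ T ^ η := by
    rw [Real.rpow_def_of_pos hT0]
    refine Real.exp_le_exp.2 ?_
    have h5 : Real.exp (Real.log (Real.log T) / 2) * Real.exp (Real.log (Real.log T) / 2) =
        Real.log T := by
      rw [← Real.exp_add, add_halves, Real.exp_log hLT]
    have h6 : 1 ≤ Real.exp (Real.log (Real.log T) / 2) * η := by
      have h7 : Real.exp (Real.log (Real.log T) / 2) * η =
          Real.exp (Real.log (Real.log T) / 2 + Real.log η) := by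
        rw [Real.exp_add, Real.exp_log hη]
      rw [h7]
      refine Real.one_le_exp ?_
      have := neg_abs_le (Real.log η)
      linarith
    calc Real.exp (Real.log (Real.log T) / 2)
        = Real.exp (Real.log (Real.log T) / 2) * 1 := by rw [mul_one]
      _ ≤ Real.exp (Real.log (Real.log T) / 2) * (Real.exp (Real.log (Real.log T) / 2) * η) :=
          mul_le_mul_of_nonneg_left h6 (Real.exp_pos _).le
      _ = Real.log T * η := by rw [← mul_assoc, h5]
  have hm : ∀ (S : Finset ℕ) (β : ℕ → ℝ),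
      Mol S β (Real.exp (Real.exp (Real.log (Real.log T) / 2))) ν → Mol S β (T ^ η) ν :=
    fun S β h => ⟨h.one_le, fun m hm => (h.le m hm).trans hX, h.nonneg, h.sum_one, h.sum_lcm⟩
  exact ⟨K, S, β, S', β', h1, h2,
    ⟨hm _ _ h3.mol, fun k hk => hm _ _ (h3.mol' k hk), h3.one_le, h3.fac, h3.sq⟩, h4⟩

end Pool.Agent.Lib.MP_6bc78b_nt.GP.H19S
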